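import Pool.Agent.PG.Defs

/-!
# Levels of a standard group
-/

set_option autoImplicit false

open Topology Filter

namespace Pool.Agent.PG

variable {p r κ : ℕ} [hp : Fact p.Prime]

section Dv
variable {v w : Fin r → ℤ_[p]} {i j : ℕ}

lemma dv_zero (v : Fin r → ℤ_[p]) : Dv 0 v := fun _ => by rw [pow_zero]; exact one_dvd _

lemma Dv.zero' (i : ℕ) : Dv i (0 : Fin r → ℤ_[p]) := fun _ => dvd_zero _

lemma Dv.add (hv : Dv i v) (hw : Dv i w) : Dv i (v + w) := fun a => dvd_add (hv a) (hw a)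

lemma Dv.sub (hv : Dv i v) (hw : Dv i w) : Dv i (v - w) := fun a => dvd_sub (hv a) (hw a)

lemma Dv.neg (hv : Dv i v) : Dv i (-v) := fun a => (hv a).neg_right

lemma Dv.smul (c : ℤ_[p]) (hv : Dv i v) : Dv i (c • v) := fun a => Dvd.dvd.mul_left (hv a) c

lemma Dv.mono (h : i ≤ j) (hv : Dv j v) : Dv i v := fun a => (pow_dvd_pow _ h).trans (hv a)

lemma dv_iff : Dv i v ↔ ∃ y : Fin r → ℤ_[p], v = (p : ℤ_[p]) ^ i • y := by
  constructor
  · intro h
    choose y hy using h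
    exact ⟨y, funext hy⟩
  · rintro ⟨y, rfl⟩ a
    exact dvd_mul_right _ _

lemma p_ne : (p : ℤ_[p]) ≠ 0 := by exact_mod_cast hp.out.ne_zero

lemma dv_pow_smul : Dv (i + j) ((p : ℤ_[p]) ^ i • v) ↔ Dv j v := by
  constructor
  · intro h a
    have h1 := h a
    rw [pow_add, Pi.smul_apply, smul_eq_mul] at h1
    exact (mul_dvd_mul_iff_left (pow_ne_zero _ p_ne)).1 h1
  · intro h a
    rw [pow_add, Pi.smul_apply, smul_eq_mul]
    exact mul_dvd_mul_left _ (h a)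

lemma pow_smul_inj (h : (p : ℤ_[p]) ^ i • v = (p : ℤ_[p]) ^ i • w) : v = w := by
  funext a
  have h1 := congrFun h a
  exact mul_left_cancel₀ (pow_ne_zero _ p_ne) h1

lemma dv_comm : Dv i (v - w) ↔ Dv i (w - v) := by
  constructor <;> intro h <;> rw [← neg_sub] <;> exact h.neg

lemma norm_le_iff_dvd {n : ℕ} {x : ℤ_[p]} : ‖x‖ ≤ (p : ℝ) ^ (-(n : ℤ)) ↔ (p : ℤ_[p]) ^ n ∣ x := by
  rw [PadicInt.norm_le_pow_iff_mem_span_pow, Ideal.mem_span_singleton]

lemma eq_zero_of_dv (h : ∀ n, Dv n v) : v = 0 := by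
  funext a
  have h2 : ‖v a‖ ≤ 0 := by
    refine ge_of_tendsto' (x := atTop) (f := fun l : ℕ => (p : ℝ) ^ (-(l : ℤ))) ?_ fun l =>
      norm_le_iff_dvd.2 (h l a)
    have h3 := tendsto_pow_atTop_nhds_zero_of_lt_one (r := (p : ℝ)⁻¹) (by positivity)
      (inv_lt_one_of_one_lt₀ (by exact_mod_cast hp.out.one_lt))
    refine h3.congr fun l => ?_
    rw [zpow_neg, zpow_natCast, inv_pow]
  exact norm_le_zero_iff.1 h2

lemma toZMod_eq_zero {x : ℤ_[p]} : PadicInt.toZMod x = 0 ↔ (p : ℤ_[p]) ∣ x := by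
  rw [← RingHom.mem_ker, PadicInt.ker_toZMod, PadicInt.maximalIdeal_eq_span_p, Ideal.mem_span_singleton]

/-- convergence in terms of divisibility -/
lemma tendsto_iff_dv {u : ℕ → (Fin r → ℤ_[p])} {x : Fin r → ℤ_[p]} :
    Tendsto u atTop (𝓝 x) ↔ ∀ n, ∀ᶠ k in atTop, Dv n (u k - x) := by
  rw [tendsto_pi_nhds]
  constructor
  · intro h n
    have h1 : ∀ a, ∀ᶠ k in atTop, (p : ℤ_[p]) ^ n ∣ u k a - x a := by
      intro a
      have h2 := (Metric.tendsto_atTop.1 (h a)) ((p : ℝ) ^ (-(n : ℤ))) (by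
        have : (0 : ℝ) < p := by exact_mod_cast hp.out.pos
        positivity)
      obtain ⟨N, hN⟩ := h2
      filter_upwards [eventually_ge_atTop N] with k hk
      have h3 := (hN k hk).le
      rw [dist_eq_norm] at h3
      exact norm_le_iff_dvd.1 h3
    exact eventually_all.2 h1
  · intro h a
    rw [Metric.tendsto_atTop]
    intro ε hε
    have h3 := tendsto_pow_atTop_nhds_zero_of_lt_one (r := (p : ℝ)⁻¹) (by positivity)
      (inv_lt_one_of_one_lt₀ (by exact_mod_cast hp.out.one_lt))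
    obtain ⟨n, hn⟩ := (h3.eventually (gt_mem_nhds hε)).exists
    obtain ⟨N, hN⟩ := eventually_atTop.1 (h n)
    refine ⟨N, fun k hk => ?_⟩
    rw [dist_eq_norm]
    refine lt_of_le_of_lt (norm_le_iff_dvd.2 (hN k hk a)) ?_
    rw [zpow_neg, zpow_natCast, ← inv_pow]
    exact hn

end Dv

variable {G : Type*} [Group G] [TopologicalSpace G] (W : Lw p r κ G)

namespace Lw

lemma inv_add {x : G} {i : ℕ} (hx : Dv i (W.φ x)) : Dv (κ + i) (W.φ x⁻¹ + W.φ x) := by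
  have h1 := W.mul x x⁻¹ i 0 hx (dv_zero _)
  rw [mul_inv_cancel, W.one, add_zero] at h1
  have h2 : W.φ x⁻¹ + W.φ x = -(0 - W.φ x - W.φ x⁻¹) := by abel
  rw [h2]
  exact h1.neg

lemma dv_inv {x : G} {i : ℕ} (hx : Dv i (W.φ x)) : Dv i (W.φ x⁻¹) := by
  have h2 : W.φ x⁻¹ = (W.φ x⁻¹ + W.φ x) - W.φ x := by abel
  rw [h2]
  exact ((W.inv_add hx).mono (by omega)).sub hx

lemma dv_mul {x y : G} {i : ℕ} (hx : Dv i (W.φ x)) (hy : Dv i (W.φ y)) : Dv i (W.φ (x * y)) := by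
  have h2 : W.φ (x * y) = (W.φ (x * y) - W.φ x - W.φ y) + W.φ x + W.φ y := by abel
  rw [h2]
  exact (((W.mul x y i i hx hy).mono (by omega)).add hx).add hy

/-- the quotient of two close elements -/
lemma dv_left (hκ : 1 ≤ κ) {u v : G} {l : ℕ} (h : Dv l (W.φ v - W.φ u)) : Dv l (W.φ (u⁻¹ * v)) := by
  have key : ∀ j, j ≤ l → Dv j (W.φ (u⁻¹ * v)) := by
    intro j
    induction j with
    | zero => exact fun _ => dv_zero _
    | succ j ih =>
      intro hj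
      have h1 := W.mul u (u⁻¹ * v) 0 j (dv_zero _) (ih (by omega))
      rw [mul_inv_cancel_left] at h1
      have h2 : W.φ (u⁻¹ * v) = (W.φ v - W.φ u) - (W.φ v - W.φ u - W.φ (u⁻¹ * v)) := by abel
      rw [h2]
      exact (h.mono hj).sub (h1.mono (by omega))
  exact key l le_rfl

lemma dv_of_left {u v : G} {l : ℕ} (h : Dv l (W.φ (u⁻¹ * v))) : Dv l (W.φ v - W.φ u) := by
  have h1 := W.mul u (u⁻¹ * v) 0 l (dv_zero _) h
  rw [mul_inv_cancel_left] at h1
  have h2 : W.φ v - W.φ u = (W.φ v - W.φ u - W.φ (u⁻¹ * v)) + W.φ (u⁻¹ * v) := by abel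
  rw [h2]
  exact (h1.mono (by omega)).add h

lemma dv_right (hκ : 1 ≤ κ) {u v : G} {l : ℕ} (h : Dv l (W.φ v - W.φ u)) : Dv l (W.φ (v * u⁻¹)) := by
  have key : ∀ j, j ≤ l → Dv j (W.φ (v * u⁻¹)) := by
    intro j
    induction j with
    | zero => exact fun _ => dv_zero _
    | succ j ih =>
      intro hj
      have h1 := W.mul (v * u⁻¹) u j 0 (ih (by omega)) (dv_zero _)
      rw [inv_mul_cancel_right] at h1
      have h2 : W.φ (v * u⁻¹) = (W.φ v - W.φ u) - (W.φ v - W.φ (v * u⁻¹) - W.φ u) := by abel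
      rw [h2]
      exact (h.mono hj).sub (h1.mono (by omega))
  exact key l le_rfl

/-- powers -/
lemma pow_sub {x : G} {i : ℕ} (hx : Dv i (W.φ x)) (n : ℕ) :
    Dv i (W.φ (x ^ n)) ∧ Dv (κ + 2 * i) (W.φ (x ^ n) - (n : ℤ_[p]) • W.φ x) := by
  induction n with
  | zero =>
    rw [pow_zero, W.one]
    refine ⟨Dv.zero' _, ?_⟩
    rw [Nat.cast_zero, zero_smul, sub_zero]
    exact Dv.zero' _
  | succ n ih =>
    refine ⟨by rw [pow_succ]; exact W.dv_mul ih.1 hx, ?_⟩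
    have h1 := W.mul (x ^ n) x i i ih.1 hx
    rw [← pow_succ] at h1
    have h2 : W.φ (x ^ (n + 1)) - ((n + 1 : ℕ) : ℤ_[p]) • W.φ x =
        (W.φ (x ^ (n + 1)) - W.φ (x ^ n) - W.φ x) + (W.φ (x ^ n) - (n : ℤ_[p]) • W.φ x) := by
      rw [Nat.cast_succ, add_smul, one_smul]
      abel
    rw [h2]
    exact (h1.mono (by omega)).add ih.2

/-- commutators -/
lemma comm_sub (hκ : 1 ≤ κ) {x y : G} {i j : ℕ} (hx : Dv i (W.φ x)) (hy : Dv j (W.φ y)) :
    Dv (2 * κ + i + j + min i j)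
      (W.φ (x * y * (y * x)⁻¹) - (p : ℤ_[p]) ^ κ • (W.B (W.φ x) (W.φ y) - W.B (W.φ y) (W.φ x))) := by
  have h1 := W.mul2 x y i j hx hy
  have h2 := W.mul2 y x j i hy hx
  have h3 : Dv (κ + i + j) (W.φ (x * y) - W.φ (y * x)) := by
    have h4 : W.φ (x * y) - W.φ (y * x) = (W.φ (x * y) - W.φ x - W.φ y) - (W.φ (y * x) - W.φ y - W.φ x) := by
      abel
    rw [h4]
    exact (W.mul x y i j hx hy).sub ((W.mul y x j i hy hx).mono (by omega))
  have h4 := W.dv_right hκ h3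
  have h5 : Dv (min i j) (W.φ (y * x)) := W.dv_mul (hy.mono (min_le_right _ _)) (hx.mono (min_le_left _ _))
  have h6 := W.mul (x * y * (y * x)⁻¹) (y * x) _ _ h4 h5
  rw [inv_mul_cancel_right] at h6
  have h7 : W.φ (x * y * (y * x)⁻¹) - (p : ℤ_[p]) ^ κ • (W.B (W.φ x) (W.φ y) - W.B (W.φ y) (W.φ x)) =
      (W.φ (x * y) - W.φ x - W.φ y - (p : ℤ_[p]) ^ κ • W.B (W.φ x) (W.φ y)) -
      (W.φ (y * x) - W.φ y - W.φ x - (p : ℤ_[p]) ^ κ • W.B (W.φ y) (W.φ x)) -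
      (W.φ (x * y) - W.φ (x * y * (y * x)⁻¹) - W.φ (y * x)) := by
    rw [smul_sub]
    abel
  rw [h7]
  refine (h1.sub (h2.mono ?_)).sub (h6.mono ?_)
  · rw [min_comm j i]; omega
  · omega

/-- the elements of level `κ + i` -/
def lev (i : ℕ) : Subgroup G where
  carrier := {g | Dv i (W.φ g)}
  one_mem' := by
    show Dv i (W.φ 1)
    rw [W.one]
    exact Dv.zero' _
  mul_mem' hx hy := W.dv_mul hx hy
  inv_mem' hx := W.dv_inv hx

lemma mem_lev {i : ℕ} {g : G} : g ∈ W.lev i ↔ Dv i (W.φ g) := Iff.rfl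

lemma lev_anti {i j : ℕ} (h : i ≤ j) : W.lev j ≤ W.lev i := fun _ hg => Dv.mono h hg

lemma lev_normal (hκ : 1 ≤ κ) (i : ℕ) : (W.lev i).Normal := by
  refine ⟨fun x hx y => ?_⟩
  refine W.dv_right hκ ?_
  have h1 := W.mul y x 0 i (dv_zero _) hx
  have h2 : W.φ (y * x) - W.φ y = (W.φ (y * x) - W.φ y - W.φ x) + W.φ x := by abel
  rw [h2]
  exact (h1.mono (by omega)).add hx

lemma isClopen_dv (n : ℕ) (v : Fin r → ℤ_[p]) : IsClopen {g : G | Dv n (W.φ g - v)} := by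
  have h1 : {g : G | Dv n (W.φ g - v)} = W.φ ⁻¹' {x | ∀ a, x a ∈ {z : ℤ_[p] | (p : ℤ_[p]) ^ n ∣ z - v a}} := rfl
  rw [h1]
  have h2 : ∀ a, IsClopen {z : ℤ_[p] | (p : ℤ_[p]) ^ n ∣ z - v a} := by
    intro a
    have h3 : {z : ℤ_[p] | (p : ℤ_[p]) ^ n ∣ z - v a} = Metric.closedBall (v a) ((p : ℝ) ^ (-(n : ℤ))) := by
      ext z
      rw [Set.mem_ofPred_eq, Metric.mem_closedBall, dist_eq_norm, norm_le_iff_dvd]
    rw [h3]
    have : (0 : ℝ) < p := by exact_mod_cast hp.out.pos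
    exact IsUltrametricDist.isClopen_closedBall _ (by positivity)
  have h3 : IsClopen {x : Fin r → ℤ_[p] | ∀ a, x a ∈ {z : ℤ_[p] | (p : ℤ_[p]) ^ n ∣ z - v a}} := by
    rw [Set.ofPred_forall]
    exact isClopen_iInter_of_finite fun a => (h2 a).preimage (continuous_apply a)
  exact h3.preimage W.φ.continuous

lemma isClopen_lev (i : ℕ) : IsClopen (W.lev i : Set G) := by
  have h1 := W.isClopen_dv i 0
  have h2 : (W.lev i : Set G) = {g : G | Dv i (W.φ g - 0)} := by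
    ext g
    show Dv i (W.φ g) ↔ Dv i (W.φ g - 0)
    rw [sub_zero]
  rw [h2]
  exact h1

/-- the set of the classes of the elements of `H` of level `κ + i` -/
def cls (hκ : 1 ≤ κ) (H : Subgroup G) (i : ℕ) : Submodule (ZMod p) (Fin r → ZMod p) :=
  AddSubgroup.toZModSubmodule p
    { carrier := {v | ∃ h ∈ H, ∃ y : Fin r → ℤ_[p], W.φ h = (p : ℤ_[p]) ^ i • y ∧ ∀ a, PadicInt.toZMod (y a) = v a}
      zero_mem' := ⟨1, one_mem _, 0, by rw [W.one, smul_zero], fun a => by simp⟩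
      add_mem' := by
        rintro v v' ⟨h, hh, y, hy, hv⟩ ⟨h', hh', y', hy', hv'⟩
        obtain ⟨z, hz⟩ := dv_iff.1 (W.mul h h' i i (dv_iff.2 ⟨y, hy⟩) (dv_iff.2 ⟨y', hy'⟩))
        refine ⟨h * h', mul_mem hh hh', y + y' + (p : ℤ_[p]) ^ (κ + i) • z, ?_, fun a => ?_⟩
        · rw [smul_add, smul_add, smul_smul, ← pow_add, ← hy, ← hy']
          have h2 : W.φ (h * h') = (W.φ (h * h') - W.φ h - W.φ h') + W.φ h + W.φ h' := by abel
          rw [h2, hz, show κ + i + i = i + (κ + i) by omega]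
          abel
        · rw [Pi.add_apply, Pi.add_apply, map_add, map_add, hv, hv', Pi.smul_apply, smul_eq_mul, map_mul, map_pow,
            map_natCast, ZMod.natCast_self, zero_pow (by omega), zero_mul, add_zero]
          rfl
      neg_mem' := by
        rintro v ⟨h, hh, y, hy, hv⟩
        obtain ⟨z, hz⟩ := dv_iff.1 (W.inv_add (dv_iff.2 ⟨y, hy⟩))
        refine ⟨h⁻¹, inv_mem hh, -y + (p : ℤ_[p]) ^ κ • z, ?_, fun a => ?_⟩
        · rw [smul_add, smul_neg, smul_smul, ← pow_add, ← hy, add_comm i κ, ← hz]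
          abel
        · rw [Pi.add_apply, Pi.neg_apply, map_add, map_neg, hv, Pi.smul_apply, smul_eq_mul, map_mul, map_pow,
            map_natCast, ZMod.natCast_self, zero_pow (by omega), zero_mul, add_zero]
          rfl }

lemma mem_cls (hκ : 1 ≤ κ) {H : Subgroup G} {i : ℕ} {v : Fin r → ZMod p} : v ∈ W.cls hκ H i ↔
    ∃ h ∈ H, ∃ y : Fin r → ℤ_[p], W.φ h = (p : ℤ_[p]) ^ i • y ∧ ∀ a, PadicInt.toZMod (y a) = v a :=
  AddSubgroup.mem_toZModSubmodule p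

/-- the `p`-th power shifts the level -/
lemma exists_succ (hκ : 2 ≤ κ) {H : Subgroup G} {h : G} (hh : h ∈ H) {i : ℕ} {y : Fin r → ℤ_[p]}
    (hy : W.φ h = (p : ℤ_[p]) ^ i • y) :
    ∃ h' ∈ H, ∃ y' : Fin r → ℤ_[p], W.φ h' = (p : ℤ_[p]) ^ (i + 1) • y' ∧ Dv (κ + i - 1) (y' - y) := by
  obtain ⟨z, hz⟩ := dv_iff.1 (W.pow_sub (dv_iff.2 ⟨y, hy⟩) p).2
  refine ⟨h ^ p, pow_mem hh p, y + (p : ℤ_[p]) ^ (κ + i - 1) • z, ?_, ?_⟩
  · rw [smul_add, smul_smul, ← pow_add, show i + 1 + (κ + i - 1) = κ + 2 * i by omega, ← hz, hy, smul_smul,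
      pow_succ']
    abel
  · rw [add_sub_cancel_left]
    exact dv_iff.2 ⟨z, rfl⟩

lemma cls_le_succ (hκ : 2 ≤ κ) (H : Subgroup G) (i : ℕ) :
    W.cls (by omega) H i ≤ W.cls (by omega) H (i + 1) := by
  intro v hv
  obtain ⟨h, hh, y, hy, hyv⟩ := (W.mem_cls _).1 hv
  obtain ⟨h', hh', y', hy', hd⟩ := W.exists_succ hκ hh hy
  refine (W.mem_cls _).2 ⟨h', hh', y', hy', fun a => ?_⟩
  rw [← hyv, ← sub_eq_zero, ← map_sub, toZMod_eq_zero]
  exact (dvd_pow_self _ (by omega)).trans (hd a)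

lemma cls_mono (hκ : 2 ≤ κ) (H : Subgroup G) {i j : ℕ} (h : i ≤ j) :
    W.cls (by omega) H i ≤ W.cls (by omega) H j := by
  induction j, h using Nat.le_induction with
  | base => exact le_rfl
  | succ j _ ih => exact ih.trans (W.cls_le_succ hκ H j)

/-- **Frattini.** -/
theorem lev_le_of_cls (hκ : 2 ≤ κ) {H : Subgroup G} (hcl : IsClosed (H : Set G)) {i : ℕ}
    (h : W.cls (by omega) H i = ⊤) : W.lev i ≤ H := by
  intro g hg
  have key : ∀ n, ∃ h ∈ H, Dv (i + n) (W.φ (h⁻¹ * g)) := by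
    intro n
    induction n with
    | zero => exact ⟨1, one_mem _, by rw [inv_one, one_mul]; exact hg⟩
    | succ n ih =>
      obtain ⟨h₁, hh₁, hd⟩ := ih
      obtain ⟨y, hy⟩ := dv_iff.1 hd
      have h1 : (fun a => PadicInt.toZMod (y a)) ∈ W.cls (by omega) H (i + n) := by
        have h2 := W.cls_mono hκ H (Nat.le_add_right i n)
        rw [h, top_le_iff] at h2
        rw [h2]
        exact Submodule.mem_top
      obtain ⟨h₂, hh₂, y', hy', hyy⟩ := (W.mem_cls _).1 h1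
      refine ⟨h₁ * h₂, mul_mem hh₁ hh₂, ?_⟩
      rw [mul_inv_rev, mul_assoc]
      refine W.dv_left (by omega) ?_
      rw [hy, hy', ← smul_sub, ← add_assoc, dv_pow_smul]
      intro a
      rw [pow_one, ← toZMod_eq_zero, Pi.sub_apply, map_sub, hyy, sub_self]
  choose u hu hd using key
  have h1 : Tendsto u atTop (𝓝 g) := by
    rw [W.φ.isInducing.tendsto_nhds_iff, tendsto_iff_dv]
    intro n
    filter_upwards [eventually_ge_atTop n] with k hk
    refine dv_comm.1 ?_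
    exact (W.dv_of_left (hd k)).mono (by omega)
  exact hcl.mem_of_tendsto h1 (Eventually.of_forall hu)

end Lw

end Pool.Agent.PG
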