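import Mathlib

set_option linter.all false

/-!
# MP_45fc25_co, cell A1: maximal plane graphs on a finite point set of the plane (helper27)
-/

namespace Pool.Agent.PG27

/-- twice the signed area of the triangle `a b c`; positive iff `c` is strictly left of `a b` -/
def det (a b c : ℝ × ℝ) : ℝ := (b.1 - a.1) * (c.2 - a.2) - (b.2 - a.2) * (c.1 - a.1)

/-- the open segments `a b` and `c d` cross properly -/
def Cross (a b c d : ℝ × ℝ) : Prop := det a b c * det a b d < 0 ∧ det c d a * det c d b < 0

/-- no point of `P` lies strictly between `a` and `b` -/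
def PFree (P : Finset (ℝ × ℝ)) (a b : ℝ × ℝ) : Prop := ∀ p ∈ P, p ∉ openSegment ℝ a b

/-- a plane graph on `P` with `P`-free edges -/
structure Plane (P : Finset (ℝ × ℝ)) (T : SimpleGraph (ℝ × ℝ)) : Prop where
  mem : ∀ a b, T.Adj a b → a ∈ P
  free : ∀ a b, T.Adj a b → PFree P a b
  nocross : ∀ a b c d, T.Adj a b → T.Adj c d → ¬ Cross a b c d

/-- a maximal plane graph on `P` -/
structure Tri (P : Finset (ℝ × ℝ)) (T : SimpleGraph (ℝ × ℝ)) : Prop extends Plane P T where
  maxi : ∀ a ∈ P, ∀ b ∈ P, a ≠ b → PFree P a b → (∀ c d, T.Adj c d → ¬ Cross a b c d) → T.Adj a b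

/-- no point of `P` in the closed triangle `a b c` except the corners -/
def EmptyTri (P : Finset (ℝ × ℝ)) (a b c : ℝ × ℝ) : Prop :=
  ∀ p ∈ P, 0 ≤ det a b p → 0 ≤ det b c p → 0 ≤ det c a p → p = a ∨ p = b ∨ p = c

/-- a positively oriented triangle of the triangulation -/
structure IsTri (P : Finset (ℝ × ℝ)) (T : SimpleGraph (ℝ × ℝ)) (a b c : ℝ × ℝ) : Prop where
  ab : T.Adj a b
  bc : T.Adj b c
  ca : T.Adj c a
  pos : 0 < det a b c
  empty : EmptyTri P a b c

/-! ## algebra of `det` -/

/-- the point `(1 - t) u + t v` -/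
def cmb (t : ℝ) (u v : ℝ × ℝ) : ℝ × ℝ := ((1 - t) * u.1 + t * v.1, (1 - t) * u.2 + t * v.2)

theorem mem_os {a b p : ℝ × ℝ} : p ∈ openSegment ℝ a b ↔ ∃ t : ℝ, 0 < t ∧ t < 1 ∧ p = cmb t a b := by
  rw [openSegment_eq_image]
  constructor
  · rintro ⟨t, ⟨h0, h1⟩, rfl⟩
    exact ⟨t, h0, h1, by ext <;> simp [cmb]⟩
  · rintro ⟨t, h0, h1, rfl⟩
    exact ⟨t, ⟨h0, h1⟩, by ext <;> simp [cmb]⟩

theorem det_c3 (a b u v : ℝ × ℝ) (t : ℝ) :
    det a b (cmb t u v) = (1 - t) * det a b u + t * det a b v := by
  simp only [det, cmb]; ring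

theorem det_c2 (a u v c : ℝ × ℝ) (t : ℝ) :
    det a (cmb t u v) c = (1 - t) * det a u c + t * det a v c := by
  simp only [det, cmb]; ring

theorem det_c1 (u v b c : ℝ × ℝ) (t : ℝ) :
    det (cmb t u v) b c = (1 - t) * det u b c + t * det v b c := by
  simp only [det, cmb]; ring

theorem det_rot (a b c : ℝ × ℝ) : det b c a = det a b c := by simp only [det]; ring
theorem det_rot' (a b c : ℝ × ℝ) : det c a b = det a b c := by simp only [det]; ring
theorem det_swap (a b c : ℝ × ℝ) : det b a c = - det a b c := by simp only [det]; ring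
theorem det_swap' (a b c : ℝ × ℝ) : det a c b = - det a b c := by simp only [det]; ring
@[simp] theorem det_aab (a b : ℝ × ℝ) : det a a b = 0 := by simp only [det]; ring
@[simp] theorem det_aba (a b : ℝ × ℝ) : det a b a = 0 := by simp only [det]; ring
@[simp] theorem det_abb (a b : ℝ × ℝ) : det a b b = 0 := by simp only [det]; ring

theorem det_diff (a b u v : ℝ × ℝ) : det u v a - det u v b = det a b v - det a b u := by
  simp only [det]; ring

theorem Cross.symm {a b c d : ℝ × ℝ} (h : Cross a b c d) : Cross c d a b := ⟨h.2, h.1⟩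

theorem Cross.swap {a b c d : ℝ × ℝ} (h : Cross a b c d) : Cross a b d c := by
  refine ⟨by linarith [h.1, mul_comm (det a b c) (det a b d)], ?_⟩
  rw [det_swap c d a, det_swap c d b]
  have := h.2
  nlinarith

theorem Cross.swap' {a b c d : ℝ × ℝ} (h : Cross a b c d) : Cross b a c d :=
  h.symm.swap.symm

/-- two points with the same two coordinates with respect to a frame are equal -/
theorem frame_ext {a b c y z : ℝ × ℝ} (hD : det a b c ≠ 0) (h1 : det a y c = det a z c)
    (h2 : det a b y = det a b z) : y = z := by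
  have e1 : (y.1 - z.1) * det a b c = 0 := by
    have : (y.1 - z.1) * det a b c
        = (b.1 - a.1) * (det a y c - det a z c) + (c.1 - a.1) * (det a b y - det a b z) := by
      simp only [det]; ring
    rw [this, h1, h2]; ring
  have e2 : (y.2 - z.2) * det a b c = 0 := by
    have : (y.2 - z.2) * det a b c
        = (b.2 - a.2) * (det a y c - det a z c) + (c.2 - a.2) * (det a b y - det a b z) := by
      simp only [det]; ring
    rw [this, h1, h2]; ring
  have f1 := (mul_eq_zero.1 e1).resolve_right hD
  have f2 := (mul_eq_zero.1 e2).resolve_right hD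
  ext <;> linarith

/-- the crossing point -/
theorem cross_point {a b u v : ℝ × ℝ} (h : Cross a b u v) :
    ∃ s t : ℝ, 0 < s ∧ s < 1 ∧ 0 < t ∧ t < 1 ∧ cmb s u v = cmb t a b ∧
      t = det u v a / (det u v a - det u v b) := by
  obtain ⟨h1, h2⟩ := h
  have hd := det_diff a b u v
  have key1 : ∀ x y : ℝ, x * y < 0 → 0 < x / (x - y) ∧ x / (x - y) < 1 ∧ x - y ≠ 0 := by
    intro x y hxy
    rcases lt_trichotomy x 0 with hx | hx | hx
    · have hy : 0 < y := by nlinarith
      refine ⟨div_pos_of_neg_of_neg hx (by linarith), ?_, by linarith⟩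
      rw [div_lt_one_of_neg (by linarith)]; linarith
    · rw [hx] at hxy; simp at hxy
    · have hy : y < 0 := by nlinarith
      refine ⟨div_pos hx (by linarith), ?_, by linarith⟩
      rw [div_lt_one (by linarith)]; linarith
  obtain ⟨s0, s1, sn⟩ := key1 _ _ h1
  obtain ⟨t0, t1, tn⟩ := key1 _ _ h2
  refine ⟨_, _, s0, s1, t0, t1, ?_, rfl⟩
  have hs : det a b u / (det a b u - det a b v) = - det a b u / (det u v a - det u v b) := by
    rw [hd, div_eq_div_iff sn (by rw [← hd]; exact tn)]; ring
  rw [hs]
  set E := det u v a - det u v b with hE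
  have hE' : E ≠ 0 := tn
  ext
  · simp only [cmb]
    field_simp
    simp only [hE, det]; ring
  · simp only [cmb]
    field_simp
    simp only [hE, det]; ring

/-- two open segments with a common point, not on one line, cross -/
theorem cross_of_mem {a b u v : ℝ × ℝ} {s t : ℝ} (hs0 : 0 < s) (hs1 : s < 1) (ht0 : 0 < t)
    (ht1 : t < 1) (h : cmb s u v = cmb t a b) (hne : det a b u ≠ 0) : Cross a b u v := by
  have e1 : (1 - s) * det a b u + s * det a b v = 0 := by
    rw [← det_c3, h, det_c3]; simp
  have e2 : (1 - t) * det u v a + t * det u v b = 0 := by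
    rw [← det_c3, ← h, det_c3]; simp
  have p1 : det a b u * det a b v < 0 := by
    have : s * (det a b u * det a b v) = - ((1 - s) * (det a b u) ^ 2) := by
      have : det a b u * (s * det a b v) = det a b u * (- ((1 - s) * det a b u)) := by
        congr 1; linarith
      linarith
    have hp : 0 < (1 - s) * (det a b u) ^ 2 := by
      have := sq_pos_of_ne_zero hne
      have h1 : 0 < 1 - s := by linarith
      positivity
    nlinarith
  refine ⟨p1, ?_⟩
  have hne2 : det u v a ≠ 0 := by
    intro h0
    rw [h0] at e2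
    have hb : det u v b = 0 := by
      have : t * det u v b = 0 := by linarith
      exact (mul_eq_zero.1 this).resolve_left ht0.ne'
    have := det_diff a b u v
    rw [h0, hb] at this
    have h3 : det a b u = det a b v := by linarith
    rw [← h3] at p1
    nlinarith [sq_nonneg (det a b u)]
  have : t * (det u v a * det u v b) = - ((1 - t) * (det u v a) ^ 2) := by
    have : det u v a * (t * det u v b) = det u v a * (- ((1 - t) * det u v a)) := by
      congr 1; linarith
    linarith
  have hp : 0 < (1 - t) * (det u v a) ^ 2 := by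
    have := sq_pos_of_ne_zero hne2
    have h1 : 0 < 1 - t := by linarith
    positivity
  nlinarith

/-! ## first exit of a segment -/

theorem first_exit {f1 f2 g1 g2 : ℝ} (h1 : 0 < f1) (h2 : 0 < f2) (hg : ¬ (0 < g1 ∧ 0 < g2)) :
    ∃ r : ℝ, 0 < r ∧ r ≤ 1 ∧ 0 ≤ (1 - r) * f1 + r * g1 ∧ 0 ≤ (1 - r) * f2 + r * g2 ∧
      ((1 - r) * f1 + r * g1 = 0 ∨ (1 - r) * f2 + r * g2 = 0) := by
  have key : ∀ f g : ℝ, 0 < f → g ≤ 0 → 0 < f / (f - g) ∧ f / (f - g) ≤ 1 ∧
      (∀ r, (1 - r) * f + r * g = (f - g) * (f / (f - g) - r)) ∧ 0 < f - g := by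
    intro f g hf hg
    have hd : 0 < f - g := by linarith
    refine ⟨div_pos hf hd, by rw [div_le_one hd]; linarith, fun r => ?_, hd⟩
    field_simp; ring
  by_cases c1 : 0 < g1
  · have c2 : g2 ≤ 0 := by
      by_contra hc; push Not at hc; exact hg ⟨c1, hc⟩
    obtain ⟨a, b, c, d⟩ := key f2 g2 h2 c2
    refine ⟨_, a, b, ?_, by rw [c]; simp, Or.inr (by rw [c]; simp)⟩
    have : 0 ≤ (1 - f2 / (f2 - g2)) * f1 := mul_nonneg (by linarith) h1.le
    have := mul_pos a c1
    linarith
  · push Not at c1
    obtain ⟨a, b, c, d⟩ := key f1 g1 h1 c1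
    by_cases c2 : 0 < g2
    · refine ⟨_, a, b, by rw [c]; simp, ?_, Or.inl (by rw [c]; simp)⟩
      have : 0 ≤ (1 - f1 / (f1 - g1)) * f2 := mul_nonneg (by linarith) h2.le
      have := mul_pos a c2
      linarith
    · push Not at c2
      obtain ⟨a', b', c', d'⟩ := key f2 g2 h2 c2
      rcases le_total (f1 / (f1 - g1)) (f2 / (f2 - g2)) with hle | hle
      · refine ⟨_, a, b, by rw [c]; simp, ?_, Or.inl (by rw [c]; simp)⟩
        rw [c']; exact mul_nonneg d'.le (by linarith)
      · refine ⟨_, a', b', ?_, by rw [c']; simp, Or.inr (by rw [c']; simp)⟩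
        rw [c]; exact mul_nonneg d.le (by linarith)

theorem cmb_cmb (x y : ℝ × ℝ) (s r : ℝ) : cmb r (cmb s x y) x = cmb (s - r * s) x y := by
  ext <;> simp only [cmb] <;> ring

theorem cmb_symm (x y : ℝ × ℝ) (s : ℝ) : cmb s x y = cmb (1 - s) y x := by
  ext <;> simp only [cmb] <;> ring

variable {P : Finset (ℝ × ℝ)} {T : SimpleGraph (ℝ × ℝ)}

theorem Plane.mem' (hT : Plane P T) {a b : ℝ × ℝ} (h : T.Adj a b) : b ∈ P := hT.mem b a h.symm

theorem PFree.symm {a b : ℝ × ℝ} (h : PFree P a b) : PFree P b a := by
  intro p hp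
  rw [openSegment_symm]
  exact h p hp

/-- an edge that comes into the wedge `b a c` below the line `b c` ends inside or starts at `a` -/
theorem exit_wedge (hT : Plane P T) {a b c u v : ℝ × ℝ} (hab : T.Adj a b) (hac : T.Adj a c)
    (hD : 0 < det a b c) (huv : T.Adj u v) {s : ℝ} (hs0 : 0 < s) (hs1 : s < 1)
    (hb : 0 < det a (cmb s u v) c) (hc : 0 < det a b (cmb s u v))
    (hl : det a (cmb s u v) c + det a b (cmb s u v) ≤ det a b c)
    (hlu : det a u c + det a b u ≤ det a (cmb s u v) c + det a b (cmb s u v))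
    (hlu' : det a u c + det a b u < det a b c) (hua : u ≠ a) :
    0 < det a u c ∧ 0 < det a b u := by
  by_contra hcon
  obtain ⟨r, r0, r1, q1, q2, q3⟩ := first_exit hb hc hcon
  rw [← det_c2] at q1 q3
  rw [← det_c3] at q2 q3
  set y := cmb r (cmb s u v) u with hy
  have hyuv : y = cmb (s - r * s) u v := by rw [hy, cmb_cmb]
  have haP : a ∈ P := hT.mem _ _ hab
  have huP : u ∈ P := hT.mem _ _ huv
  -- the level of `y`
  have hly : det a y c + det a b y < det a b c := by
    rw [hy, det_c2, det_c3]
    rcases eq_or_lt_of_le r1 with h | h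
    · rw [h]; linarith
    · nlinarith
  have hy0 : y ∈ P → y = u := by
    intro hyP
    rcases eq_or_lt_of_le r1 with h | h
    · rw [hy, h]; ext <;> simp [cmb]
    · exact absurd (mem_os.2 ⟨s - r * s, by nlinarith, by nlinarith, hyuv⟩)
        (hT.free _ _ huv y hyP)
  have hss : 0 ≤ s - r * s ∧ s - r * s < 1 := ⟨by nlinarith, by nlinarith⟩
  -- `y ≠ a`
  have hya : ¬ (det a y c = 0 ∧ det a b y = 0) := by
    rintro ⟨e1, e2⟩
    have : y = a := frame_ext hD.ne' (by rw [e1]; simp) (by rw [e2]; simp)
    exact hua (by rw [← hy0 (by rw [this]; exact haP), this])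
  rcases q3 with e1 | e2
  · -- `y` on the ray `a c`
    have q2' : 0 < det a b y := lt_of_le_of_ne q2 (fun h => hya ⟨e1, h.symm⟩)
    have ht1 : det a b y / det a b c < 1 := by rw [div_lt_one hD]; linarith
    have ht0 : 0 < det a b y / det a b c := div_pos q2' hD
    have hyt : y = cmb (det a b y / det a b c) a c := by
      refine frame_ext hD.ne' ?_ ?_
      · rw [e1, det_c2 a a c c]; simp
      · rw [det_c3 a b a c, det_aba, mul_zero, zero_add, div_mul_cancel₀ _ hD.ne']
    rcases eq_or_lt_of_le hss.1 with h | h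
    · have : y = u := by rw [hyuv, ← h]; ext <;> simp [cmb]
      exact hT.free _ _ hac u huP (mem_os.2 ⟨_, ht0, ht1, by rw [← this]; exact hyt⟩)
    · refine hT.nocross _ _ _ _ hac huv (cross_of_mem h hss.2 ht0 ht1 (hyuv.symm.trans hyt) ?_)
      intro h0
      have e1' := e1
      rw [hyuv, det_c2] at e1'
      rw [det_c2] at hb
      have h0' : det a u c = 0 := by rw [det_swap', h0, neg_zero]
      rw [h0'] at e1' hb
      have : det a v c = 0 := by
        have : (s - r * s) * det a v c = 0 := by linarith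
        exact (mul_eq_zero.1 this).resolve_left h.ne'
      rw [this] at hb; simp at hb
  · -- `y` on the ray `a b`
    have q1' : 0 < det a y c := lt_of_le_of_ne q1 (fun h => hya ⟨h.symm, e2⟩)
    have ht1 : det a y c / det a b c < 1 := by rw [div_lt_one hD]; linarith
    have ht0 : 0 < det a y c / det a b c := div_pos q1' hD
    have hyt : y = cmb (det a y c / det a b c) a b := by
      refine frame_ext hD.ne' ?_ ?_
      · rw [det_c2 a a b c, det_aab, mul_zero, zero_add, div_mul_cancel₀ _ hD.ne']
      · rw [e2, det_c3 a b a b]; simp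
    rcases eq_or_lt_of_le hss.1 with h | h
    · have : y = u := by rw [hyuv, ← h]; ext <;> simp [cmb]
      exact hT.free _ _ hab u huP (mem_os.2 ⟨_, ht0, ht1, by rw [← this]; exact hyt⟩)
    · refine hT.nocross _ _ _ _ hab huv (cross_of_mem h hss.2 ht0 ht1 (hyuv.symm.trans hyt) ?_)
      intro h0
      have e2' := e2
      rw [hyuv, det_c3] at e2'
      rw [det_c3] at hc
      rw [h0] at e2' hc
      have : det a b v = 0 := by
        have : (s - r * s) * det a b v = 0 := by linarith
        exact (mul_eq_zero.1 this).resolve_left h.ne'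
      rw [this] at hc; simp at hc

/-- the points of the open wedge below the line `b c` -/
theorem wedge_empty (hT : Tri P T) {a b c : ℝ × ℝ} (hab : T.Adj a b) (hac : T.Adj a c)
    (hD : 0 < det a b c) (hno : ∀ q, T.Adj a q → ¬ (0 < det a q c ∧ 0 < det a b q)) :
    ∀ p ∈ P, 0 < det a p c → 0 < det a b p → det a b c < det a p c + det a b p := by
  classical
  by_contra hcon
  push Not at hcon
  obtain ⟨p0, hp0, h01, h02, h03⟩ := hcon
  have haP : a ∈ P := hT.mem _ _ hab
  -- choose the lowest one
  obtain ⟨p, hp, hmin⟩ := (P.filter (fun p => 0 < det a p c ∧ 0 < det a b p)).exists_min_image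
    (fun p => det a p c + det a b p) ⟨p0, by simp [hp0, h01, h02]⟩
  rw [Finset.mem_filter] at hp
  obtain ⟨hpP, hp1, hp2⟩ := hp
  have hpl : det a p c + det a b p ≤ det a b c :=
    le_trans (hmin p0 (by simp [hp0, h01, h02])) h03
  have hlow : ∀ q ∈ P, 0 < det a q c → 0 < det a b q →
      det a p c + det a b p ≤ det a q c + det a b q := by
    intro q hq h1 h2
    exact hmin q (by simp [hq, h1, h2])
  have hap : a ≠ p := by rintro rfl; simp at hp1
  refine hno p (hT.maxi a haP p hpP hap ?_ ?_) ⟨hp1, hp2⟩
  · -- `P`-free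
    intro q hq hmem
    obtain ⟨t, t0, t1, rfl⟩ := mem_os.1 hmem
    have e1 : det a (cmb t a p) c = t * det a p c := by rw [det_c2]; simp
    have e2 : det a b (cmb t a p) = t * det a b p := by rw [det_c3]; simp
    have := hlow _ hq (by rw [e1]; positivity) (by rw [e2]; positivity)
    rw [e1, e2] at this
    nlinarith
  · -- no crossing
    have main : ∀ u v, T.Adj u v → Cross a p u v →
        det a u c + det a b u ≤ det a v c + det a b v → False := by
      intro u v huv hcr hle
      obtain ⟨s, t, s0, s1, t0, t1, hst, -⟩ := cross_point hcr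
      have e1 : det a (cmb s u v) c = t * det a p c := by rw [hst, det_c2]; simp
      have e2 : det a b (cmb s u v) = t * det a b p := by rw [hst, det_c3]; simp
      have e3 : det a u c + det a b u ≤ det a (cmb s u v) c + det a b (cmb s u v) := by
        rw [det_c2, det_c3]; nlinarith
      have e4 : det a (cmb s u v) c + det a b (cmb s u v) < det a p c + det a b p := by
        rw [e1, e2]; nlinarith
      have hua : u ≠ a := by
        rintro rfl
        have := hcr.1
        simp at this
      obtain ⟨g1, g2⟩ := exit_wedge hT.toPlane hab hac hD huv s0 s1 (by rw [e1]; positivity)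
        (by rw [e2]; positivity) (by linarith) e3 (by linarith) hua
      have := hlow u (hT.mem _ _ huv) g1 g2
      linarith
    intro u v huv hcr
    rcases le_total (det a u c + det a b u) (det a v c + det a b v) with h | h
    · exact main u v huv hcr h
    · exact main v u huv.symm hcr.swap h

/-- WEDGE LEMMA -/
theorem wedge (hT : Tri P T) {a b c : ℝ × ℝ} (hab : T.Adj a b) (hac : T.Adj a c)
    (hD : 0 < det a b c) (hno : ∀ q, T.Adj a q → ¬ (0 < det a q c ∧ 0 < det a b q)) :
    IsTri P T a b c := by
  have hw := wedge_empty hT hab hac hD hno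
  have hbP : b ∈ P := hT.toPlane.mem' hab
  have hcP : c ∈ P := hT.toPlane.mem' hac
  have hbc : b ≠ c := by rintro rfl; simp at hD
  have hB : T.Adj b c := by
    refine hT.maxi b hbP c hcP hbc ?_ ?_
    · intro q hq hmem
      obtain ⟨t, t0, t1, rfl⟩ := mem_os.1 hmem
      have e1 : det a (cmb t b c) c = (1 - t) * det a b c := by rw [det_c2]; simp
      have e2 : det a b (cmb t b c) = t * det a b c := by rw [det_c3]; simp
      have := hw _ hq (by rw [e1]; exact mul_pos (by linarith) hD) (by rw [e2]; positivity)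
      rw [e1, e2] at this
      nlinarith
    · have main : ∀ u v, T.Adj u v → Cross b c u v →
          det a u c + det a b u ≤ det a v c + det a b v → False := by
        intro u v huv hcr hle
        obtain ⟨s, t, s0, s1, t0, t1, hst, -⟩ := cross_point hcr
        have e1 : det a (cmb s u v) c = (1 - t) * det a b c := by rw [hst, det_c2]; simp
        have e2 : det a b (cmb s u v) = t * det a b c := by rw [hst, det_c3]; simp
        have e12 : det a (cmb s u v) c + det a b (cmb s u v) = det a b c := by
          rw [e1, e2]; ring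
        have e3 : det a u c + det a b u ≤ det a (cmb s u v) c + det a b (cmb s u v) := by
          rw [det_c2, det_c3]; nlinarith
        have key : ∀ z, det b c z = det a b c - (det a z c + det a b z) := by
          intro z; simp only [det]; ring
        have e4 : det a u c + det a b u < det a b c := by
          rcases lt_or_eq_of_le (e3.trans e12.le) with h | h
          · exact h
          · exfalso
            have h1 := hcr.1
            rw [key u, h] at h1
            simp at h1
        by_cases hua : u = a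
        · subst hua
          refine hno v huv ⟨?_, ?_⟩
          · rw [det_c2] at e1
            simp only [det_aab, mul_zero, zero_add] at e1
            have : 0 < s * det u v c := by rw [e1]; exact mul_pos (by linarith) hD
            exact (pos_iff_pos_of_mul_pos this).1 s0
          · rw [det_c3] at e2
            simp only [det_aba, mul_zero, zero_add] at e2
            have : 0 < s * det u b v := by rw [e2]; positivity
            exact (pos_iff_pos_of_mul_pos this).1 s0
        · obtain ⟨g1, g2⟩ := exit_wedge hT.toPlane hab hac hD huv s0 s1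
            (by rw [e1]; exact mul_pos (by linarith) hD) (by rw [e2]; positivity) e12.le e3 e4 hua
          have := hw u (hT.mem _ _ huv) g1 g2
          linarith
      intro u v huv hcr
      rcases le_total (det a u c + det a b u) (det a v c + det a b v) with h | h
      · exact main u v huv hcr h
      · exact main v u huv.symm hcr.swap h
  refine ⟨hab, hB, hac.symm, hD, ?_⟩
  intro p hp h1 h2 h3
  have h3' : 0 ≤ det a p c := by rw [← det_rot a p c, ← det_rot p c a] ; exact h3
  have hl : det a p c + det a b p ≤ det a b c := by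
    have : det b c p = det a b c - (det a p c + det a b p) := by simp only [det]; ring
    linarith
  rcases eq_or_lt_of_le h1 with g1 | g1
  · -- on the line `a b`
    rcases eq_or_lt_of_le h3' with g3 | g3
    · left; exact frame_ext hD.ne' (by rw [← g3]; simp) (by rw [← g1]; simp)
    rcases eq_or_lt_of_le hl with g4 | g4
    · right; left
      exact frame_ext hD.ne' (by linarith) (by rw [← g1]; simp)
    · exfalso
      refine hT.free _ _ hab p hp (mem_os.2 ⟨det a p c / det a b c, div_pos g3 hD, ?_, ?_⟩)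
      · rw [div_lt_one hD]; linarith
      · refine frame_ext hD.ne' ?_ ?_
        · rw [det_c2, det_aab, mul_zero, zero_add, div_mul_cancel₀ _ hD.ne']
        · rw [← g1, det_c3]; simp
  · rcases eq_or_lt_of_le h3' with g3 | g3
    · -- on the line `a c`
      rcases eq_or_lt_of_le hl with g4 | g4
      · right; right
        exact frame_ext hD.ne' (by rw [← g3]; simp) (by linarith)
      · exfalso
        refine hT.free _ _ hac p hp (mem_os.2 ⟨det a b p / det a b c, div_pos g1 hD, ?_, ?_⟩)
        · rw [div_lt_one hD]; linarith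
        · refine frame_ext hD.ne' ?_ ?_
          · rw [← g3, det_c2]; simp
          · rw [det_c3, det_aba, mul_zero, zero_add, div_mul_cancel₀ _ hD.ne']
    · exfalso
      have := hw p hp g3 g1
      linarith

/-! ## half planes -/

/-- the linear form `w × (q - a)` -/
def hgt (w a q : ℝ × ℝ) : ℝ := w.1 * (q.2 - a.2) - w.2 * (q.1 - a.1)

theorem hgt_c (w a u v : ℝ × ℝ) (t : ℝ) :
    hgt w a (cmb t u v) = (1 - t) * hgt w a u + t * hgt w a v := by
  simp only [hgt, cmb]; ring

@[simp] theorem hgt_a (w a : ℝ × ℝ) : hgt w a a = 0 := by simp only [hgt]; ring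

/-- affine functions -/
def Aff (σ : ℝ × ℝ → ℝ) : Prop := ∀ k r r', σ (cmb k r r') = (1 - k) * σ r + k * σ r'

theorem cmb_left (x y : ℝ × ℝ) (k t : ℝ) : cmb k x (cmb t x y) = cmb (k * t) x y := by
  ext <;> simp only [cmb] <;> ring

theorem cmb_right (x y : ℝ × ℝ) (k s : ℝ) : cmb k (cmb s x y) y = cmb (s + k * (1 - s)) x y := by
  ext <;> simp only [cmb] <;> ring

theorem cmb_one (x y : ℝ × ℝ) : cmb 1 x y = y := by ext <;> simp [cmb]

/-- if the first edge that crosses `a q` is `u v`, at `x`, then the first point of `P` met on the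
way from `a x` to `a v` is joined to `a` -/
theorem first_point_aux (hT : Tri P T) {a q u v x : ℝ × ℝ} (haP : a ∈ P)
    (haq : PFree P a q) (huv : T.Adj u v) {s t : ℝ} (hs0 : 0 < s) (hs1 : s < 1)
    (ht0 : 0 < t) (ht1 : t < 1) (hx : x = cmb s u v) (hst : x = cmb t a q)
    (hfirst : ∀ u' v' s' t', T.Adj u' v' → 0 < s' → s' < 1 → 0 < t' → t' < t →
      cmb s' u' v' = cmb t' a q → det a q u' ≠ 0 → False)
    (σ τ : ℝ × ℝ → ℝ) (σc : Aff σ) (τc : Aff τ) (σa : σ a = 0) (τa : τ a = 0) (σv : σ v = 0)
    (τv : τ v = 1) (σx : σ x = 1) (τx : τ x = 0)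
    (ext' : ∀ r r', σ r = σ r' → τ r = τ r' → r = r')
    (hq : ∀ r, det a q r = 0 → τ r = 0)
    (huv' : ∀ r, det u v r = 0 → σ r + τ r = 1) :
    ∃ p ∈ P, T.Adj a p ∧ 0 ≤ σ p ∧ 0 < τ p := by
  classical
  have hvP : v ∈ P := hT.toPlane.mem' huv
  -- candidates
  obtain ⟨C, hC⟩ : ∃ C : Finset (ℝ × ℝ), ∀ r, r ∈ C ↔
      (r ∈ P ∧ 0 ≤ σ r ∧ 0 ≤ τ r ∧ σ r + τ r ≤ 1 ∧ 0 < σ r + τ r) :=
    ⟨P.filter (fun r => 0 ≤ σ r ∧ 0 ≤ τ r ∧ σ r + τ r ≤ 1 ∧ 0 < σ r + τ r), by
      intro r; rw [Finset.mem_filter]⟩
  have hvC : v ∈ C := by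
    rw [hC]
    exact ⟨hvP, by rw [σv], by rw [τv]; norm_num, by rw [σv, τv]; norm_num,
      by rw [σv, τv]; norm_num⟩
  obtain ⟨p1, hp1, hmin1⟩ := C.exists_min_image (fun r => τ r / (σ r + τ r)) ⟨v, hvC⟩
  obtain ⟨p, hp, hmin2⟩ := (C.filter (fun r => τ r / (σ r + τ r) = τ p1 / (σ p1 + τ p1))).exists_min_image
    (fun r => σ r + τ r) ⟨p1, by simp [hp1]⟩
  rw [Finset.mem_filter] at hp
  obtain ⟨hpC, hpθ⟩ := hp
  have hminθ : ∀ r ∈ C, τ p / (σ p + τ p) ≤ τ r / (σ r + τ r) := by
    intro r hr; rw [hpθ]; exact hmin1 r hr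
  have hmind : ∀ r ∈ C, τ r / (σ r + τ r) = τ p / (σ p + τ p) → σ p + τ p ≤ σ r + τ r := by
    intro r hr h
    exact hmin2 r (by rw [Finset.mem_filter]; exact ⟨hr, by rw [h, hpθ]⟩)
  rw [hC] at hpC
  obtain ⟨hpP, hσ0, hτ0, hle1, hpos⟩ := hpC
  -- `τ p > 0`
  have hτp : 0 < τ p := by
    rcases eq_or_lt_of_le hτ0 with h | h
    · exfalso
      have hσp : 0 < σ p := by linarith
      have hσ1 : σ p ≤ 1 := by linarith
      have : p = cmb (σ p) a x := by
        apply ext'
        · rw [σc, σa, σx]; ring
        · rw [τc, τa, τx, ← h]; ring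
      rw [hst, cmb_left] at this
      exact haq p hpP (mem_os.2 ⟨σ p * t, by positivity, by nlinarith, this⟩)
    · exact h
  refine ⟨p, hpP, ?_, hσ0, hτp⟩
  have hap : a ≠ p := by
    intro h
    rw [← h, τa] at hτp
    exact lt_irrefl _ hτp
  refine hT.maxi a haP p hpP hap ?_ ?_
  · -- `P`-free
    intro r hr hmem
    obtain ⟨k, k0, k1, rfl⟩ := mem_os.1 hmem
    have e1 : σ (cmb k a p) = k * σ p := by rw [σc, σa]; ring
    have e2 : τ (cmb k a p) = k * τ p := by rw [τc, τa]; ring
    have hCk : cmb k a p ∈ C := by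
      rw [hC]
      refine ⟨hr, by rw [e1]; positivity, by rw [e2]; positivity, ?_, ?_⟩
      · rw [e1, e2]; nlinarith
      · rw [e1, e2]; nlinarith
    have := hmind _ hCk (by
      rw [e1, e2, ← mul_add, mul_div_mul_left _ _ k0.ne'])
    rw [e1, e2] at this
    nlinarith
  · -- no crossing
    have main : ∀ u' v', T.Adj u' v' → Cross a p u' v' →
        σ p * τ u' < τ p * σ u' → False := by
      intro u' v' huv2 hcr hG
      obtain ⟨s', t', s0', s1', t0', t1', hst', -⟩ := cross_point hcr
      obtain ⟨z, hz⟩ : ∃ z, z = cmb s' u' v' := ⟨_, rfl⟩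
      have hz' : z = cmb t' a p := hz.trans hst'
      have z1 : σ z = t' * σ p := by rw [hz', σc, σa]; ring
      have z2 : τ z = t' * τ p := by rw [hz', τc, τa]; ring
      have hzτ : 0 < τ z := by rw [z2]; positivity
      have hzF : 0 < 1 - σ z - τ z := by rw [z1, z2]; nlinarith
      have hu'P : u' ∈ P := hT.mem _ _ huv2
      have hcon : ¬ (0 < τ u' ∧ 0 < 1 - σ u' - τ u') := by
        rintro ⟨g1, g2⟩
        have g3 : 0 < τ p * σ u' := lt_of_le_of_lt (mul_nonneg hσ0 g1.le) hG
        have g4 : 0 < σ u' := (pos_iff_pos_of_mul_pos g3).1 hτp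
        have hCu : u' ∈ C := by
          rw [hC]
          exact ⟨hu'P, g4.le, g1.le, by linarith, by linarith⟩
        have := hminθ _ hCu
        rw [div_le_div_iff₀ hpos (by linarith)] at this
        nlinarith
      obtain ⟨r, r0, r1, q1, q2, q3⟩ := first_exit hzτ hzF hcon
      obtain ⟨y, hy⟩ : ∃ y, y = cmb r z u' := ⟨_, rfl⟩
      have yτ : τ y = (1 - r) * τ z + r * τ u' := by rw [hy]; exact τc _ _ _
      have yσ : σ y = (1 - r) * σ z + r * σ u' := by rw [hy]; exact σc _ _ _
      have yF : 1 - σ y - τ y = (1 - r) * (1 - σ z - τ z) + r * (1 - σ u' - τ u') := by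
        rw [yτ, yσ]; ring
      rw [← yτ] at q1 q3
      rw [← yF] at q2 q3
      have hyuv : y = cmb (s' - r * s') u' v' := by rw [hy, hz, cmb_cmb]
      have hyG : σ p * τ y < τ p * σ y := by
        rw [yτ, yσ, z1, z2]
        nlinarith
      have hyσ : 0 < σ y := by
        have : 0 < τ p * σ y := lt_of_le_of_lt (mul_nonneg hσ0 q1) hyG
        exact (pos_iff_pos_of_mul_pos this).1 hτp
      -- where is `y`
      have y1 : τ y = 0 → y = cmb (σ y * t) a q := by
        intro h3
        have : y = cmb (σ y) a x := by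
          apply ext'
          · rw [σc, σa, σx]; ring
          · rw [τc, τa, τx, h3]; ring
        rw [hst, cmb_left] at this
        exact this
      have y2 : 1 - σ y - τ y = 0 → y = cmb (s + τ y * (1 - s)) u v := by
        intro h3
        have : y = cmb (τ y) x v := by
          apply ext'
          · rw [σc, σx, σv]; linarith
          · rw [τc, τx, τv]; ring
        rw [hx, cmb_right] at this
        exact this
      have y2a : 1 - σ y - τ y = 0 → 0 < s + τ y * (1 - s) ∧ s + τ y * (1 - s) < 1 := by
        intro h3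
        have := mul_nonneg q1 (sub_nonneg.2 hs1.le)
        have : τ y < 1 := by linarith
        exact ⟨by linarith, by nlinarith⟩
      -- `r < 1`
      have hr1 : r < 1 := by
        rcases eq_or_lt_of_le r1 with h | h
        · exfalso
          have hyu : y = u' := by rw [hy, h, cmb_one]
          rcases q3 with h3 | h3
          · exact haq u' hu'P (mem_os.2 ⟨σ y * t, by positivity, by nlinarith,
              by rw [← hyu]; exact y1 h3⟩)
          · exact hT.free _ _ huv u' hu'P (mem_os.2 ⟨s + τ y * (1 - s), (y2a h3).1, (y2a h3).2,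
              by rw [← hyu]; exact y2 h3⟩)
        · exact h
      have hs'1 : 0 < s' - r * s' := by nlinarith
      have hs'2 : s' - r * s' < 1 := by nlinarith
      -- exit through `x v`
      have case2 : 1 - σ y - τ y = 0 → False := by
        intro h3
        refine hT.nocross _ _ _ _ huv huv2 (cross_of_mem hs'1 hs'2 (y2a h3).1 (y2a h3).2
          (hyuv.symm.trans (y2 h3)) ?_)
        intro h0
        have a1 := huv' u' h0
        -- then the whole line `u' y` has `σ + τ = 1`
        have : (1 - r) * (1 - σ z - τ z) = 0 := by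
          have := yF
          rw [h3] at this
          have a2 : 1 - σ u' - τ u' = 0 := by linarith
          rw [a2] at this
          linarith
        have hr : 0 < 1 - r := by linarith
        nlinarith [mul_pos hr hzF]
      rcases q3 with h3 | h3
      · -- exit through `a x`
        rcases eq_or_lt_of_le (show σ y ≤ 1 by linarith) with h4 | h4
        · exact case2 (by linarith)
        · refine hfirst u' v' (s' - r * s') (σ y * t) huv2 hs'1 hs'2 (by positivity)
            (by nlinarith) (hyuv.symm.trans (y1 h3)) ?_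
          intro h0
          have a1 := hq u' h0
          have : (1 - r) * τ z = 0 := by
            rw [h3, a1] at yτ
            linarith
          have hr : 0 < 1 - r := by linarith
          nlinarith [mul_pos hr hzτ]
      · exact case2 h3
    intro u' v' huv2 hcr
    have line : ∀ w, σ p * τ w = τ p * σ w → det a p w = 0 := by
      intro w hw
      have : w = cmb (τ w / τ p) a p := by
        apply ext'
        · rw [σc, σa]; field_simp; linarith
        · rw [τc, τa]; field_simp; ring
      rw [this, det_c3]; simp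
    obtain ⟨s', t', s0', s1', t0', t1', hst', -⟩ := cross_point hcr
    have g0 : (1 - s') * (σ p * τ u' - τ p * σ u') + s' * (σ p * τ v' - τ p * σ v') = 0 := by
      have e1 : σ (cmb s' u' v') = t' * σ p := by rw [hst', σc, σa]; ring
      have e2 : τ (cmb s' u' v') = t' * τ p := by rw [hst', τc, τa]; ring
      rw [σc] at e1
      rw [τc] at e2
      have : (1 - s') * (σ p * τ u' - τ p * σ u') + s' * (σ p * τ v' - τ p * σ v')
          = σ p * ((1 - s') * τ u' + s' * τ v') - τ p * ((1 - s') * σ u' + s' * σ v') := by ring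
      rw [this, e1, e2]; ring
    rcases lt_trichotomy (σ p * τ u') (τ p * σ u') with h | h | h
    · exact main u' v' huv2 hcr h
    · have := hcr.1
      rw [line u' h] at this
      simp at this
    · refine main v' u' huv2.symm hcr.swap ?_
      have h1 : 0 < (1 - s') * (σ p * τ u' - τ p * σ u') := mul_pos (by linarith) (by linarith)
      have h2 : s' * (σ p * τ v' - τ p * σ v') < 0 := by linarith
      have h3 : σ p * τ v' - τ p * σ v' < 0 := by
        by_contra hc
        push Not at hc
        have := mul_nonneg s0'.le hc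
        linarith
      linarith

/-- LEMMA H: if some point of `P` has positive height over `a` then `a` has such a neighbour -/
theorem half_plane (hT : Tri P T) {a : ℝ × ℝ} (haP : a ∈ P) (w : ℝ × ℝ)
    (h : ∃ q ∈ P, 0 < hgt w a q) : ∃ c, T.Adj a c ∧ 0 < hgt w a c := by
  classical
  by_contra hcon
  push Not at hcon
  obtain ⟨q0, hq0, h0⟩ := h
  obtain ⟨q, hq, hmin⟩ := (P.filter (fun p => 0 < hgt w a p)).exists_min_image
    (fun p => hgt w a p) ⟨q0, by simp [hq0, h0]⟩
  rw [Finset.mem_filter] at hq
  obtain ⟨hqP, hqh⟩ := hq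
  have haq : PFree P a q := by
    intro r hr hmem
    obtain ⟨k, k0, k1, rfl⟩ := mem_os.1 hmem
    have e : hgt w a (cmb k a q) = k * hgt w a q := by rw [hgt_c]; simp
    have := hmin (cmb k a q) (by rw [Finset.mem_filter]; exact ⟨hr, by rw [e]; positivity⟩)
    rw [e] at this
    nlinarith
  have hne : a ≠ q := by rintro rfl; simp at hqh
  have hnadj : ¬ T.Adj a q := fun h => absurd hqh (not_lt.2 (hcon q h))
  have hex : ∃ c d, T.Adj c d ∧ Cross a q c d := by
    by_contra hc
    push Not at hc
    exact hnadj (hT.maxi a haP q hqP hne haq hc)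
  obtain ⟨c, d, hcd, hcr⟩ := hex
  -- the first crossing
  obtain ⟨⟨u, v⟩, huv, hfirst⟩ := ((P ×ˢ P).filter
    (fun e => T.Adj e.1 e.2 ∧ Cross a q e.1 e.2)).exists_min_image
    (fun e => det e.1 e.2 a / (det e.1 e.2 a - det e.1 e.2 q))
    ⟨(c, d), by simp [hT.mem _ _ hcd, hT.toPlane.mem' hcd, hcd, hcr]⟩
  simp only [Finset.mem_filter, Finset.mem_product] at huv
  obtain ⟨⟨huP, hvP⟩, huvA, huvC⟩ := huv
  have main : ∀ u v, T.Adj u v → Cross a q u v → hgt w a u ≤ hgt w a v →
      (∀ u' v', T.Adj u' v' → Cross a q u' v' → det u v a / (det u v a - det u v q) ≤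
        det u' v' a / (det u' v' a - det u' v' q)) → False := by
    intro u v huv hcr hle hf
    obtain ⟨s, t, s0, s1, t0, t1, hst, ht⟩ := cross_point hcr
    obtain ⟨x, hx⟩ : ∃ x, x = cmb s u v := ⟨_, rfl⟩
    have hx' : x = cmb t a q := hx.trans hst
    have hne : det u v a ≠ 0 := by
      intro h0
      have := hcr.2
      rw [h0] at this
      simp at this
    have hΔ : det a x v ≠ 0 := by
      have : det a x v = (1 - s) * det u v a := by rw [hx, det_c2]; simp [det_rot]
      rw [this]
      exact mul_ne_zero (by linarith) hne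
    have hhx : hgt w a x = t * hgt w a q := by rw [hx', hgt_c]; simp
    have hhx0 : 0 < hgt w a x := by rw [hhx]; positivity
    have hhv : 0 < hgt w a v := by
      have : hgt w a x = (1 - s) * hgt w a u + s * hgt w a v := by rw [hx, hgt_c]
      nlinarith
    obtain ⟨p, hpP, hap, h1, h2⟩ := first_point_aux hT haP haq huv s0 s1 t0 t1 hx hx'
      (by
        intro u' v' s' t' huv' a0 a1 b0 b1 hcm hdet
        have hcr' : Cross a q u' v' := cross_of_mem a0 a1 b0 (by linarith) hcm hdet
        have := hf u' v' huv' hcr'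
        rw [← ht] at this
        obtain ⟨s2, t2, s20, s21, t20, t21, hst2, ht2⟩ := cross_point hcr'
        rw [← ht2] at this
        -- `t2 = t'`
        have e1 : (1 - t') * det u' v' a + t' * det u' v' q = 0 := by
          rw [← det_c3, ← hcm, det_c3]; simp
        have e2 : (1 - t2) * det u' v' a + t2 * det u' v' q = 0 := by
          rw [← det_c3, ← hst2, det_c3]; simp
        have e3 : (t' - t2) * (det u' v' q - det u' v' a) = 0 := by linarith
        have e4 : det u' v' q - det u' v' a ≠ 0 := by
          intro h5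
          have h6 : det u' v' q = det u' v' a := by linarith
          have := hcr'.2
          rw [h6] at this
          nlinarith [sq_nonneg (det u' v' a)]
        have e5 := (mul_eq_zero.1 e3).resolve_right e4
        linarith)
      (fun r => det a r v / det a x v) (fun r => det a x r / det a x v)
      (fun k r r' => by simp only [det_c2]; ring) (fun k r r' => by simp only [det_c3]; ring)
      (by simp) (by simp) (by simp) (div_self hΔ) (div_self hΔ) (by simp)
      (by
        intro r r' g1 g2
        have g1' : det a r v = det a r' v := by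
          have := congrArg (fun z => z * det a x v) g1
          simpa [div_mul_cancel₀ _ hΔ] using this
        have g2' : det a x r = det a x r' := by
          have := congrArg (fun z => z * det a x v) g2
          simpa [div_mul_cancel₀ _ hΔ] using this
        exact frame_ext hΔ g1' g2')
      (by
        intro r hr
        have : det a x r = t * det a q r := by rw [hx', det_c2]; simp
        simp [this, hr])
      (by
        intro r hr
        have e1 : det a r v + det a x r - det a x v = - det x v r := by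
          simp only [det]; ring
        have e2 : det x v r = 0 := by rw [hx, det_c1, hr]; simp
        rw [e2] at e1
        show det a r v / det a x v + det a x r / det a x v = 1
        rw [← add_div, div_eq_one_iff_eq hΔ]
        linarith)
    have hpc : hgt w a p = (det a p v / det a x v) * hgt w a x
        + (det a x p / det a x v) * hgt w a v := by
      have : hgt w a p * det a x v = det a p v * hgt w a x + det a x p * hgt w a v := by
        simp only [hgt, det]; ring
      field_simp
      linarith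
    have := hcon p hap
    rw [hpc] at this
    have g1 := mul_nonneg h1 hhx0.le
    have g2 := mul_pos h2 hhv
    linarith
  have hf : ∀ u' v', T.Adj u' v' → Cross a q u' v' → det u v a / (det u v a - det u v q) ≤
        det u' v' a / (det u' v' a - det u' v' q) := by
    intro u' v' h1 h2
    exact hfirst (u', v') (by simp [hT.mem _ _ h1, hT.toPlane.mem' h1, h1, h2])
  rcases le_total (hgt w a u) (hgt w a v) with h | h
  · exact main u v huvA huvC h hf
  · refine main v u huvA.symm huvC.swap h ?_
    intro u' v' h1 h2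
    have := hf u' v' h1 h2
    rw [det_swap u v a, det_swap u v q]
    have e : (- det u v a) / (- det u v a - - det u v q) = det u v a / (det u v a - det u v q) := by
      rw [show - det u v a - - det u v q = - (det u v a - det u v q) by ring, neg_div_neg_eq]
    rw [e]
    exact this

/-- LEFT TRIANGLE -/
theorem left_triangle (hT : Tri P T) {a b : ℝ × ℝ} (hab : T.Adj a b)
    (h : ∃ q ∈ P, 0 < det a b q) : ∃ c, IsTri P T a b c := by
  classical
  have hh : ∀ q, hgt (b.1 - a.1, b.2 - a.2) a q = det a b q := by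
    intro q; simp only [hgt, det]
  obtain ⟨c0, hc0, hc0'⟩ := half_plane hT (hT.mem _ _ hab) (b.1 - a.1, b.2 - a.2) (by
    obtain ⟨q, hq, h1⟩ := h
    exact ⟨q, hq, by rw [hh]; exact h1⟩)
  rw [hh] at hc0'
  obtain ⟨c, hc, hmax⟩ := (P.filter (fun c => T.Adj a c ∧ 0 < det a b c)).exists_max_image
    (fun q => ((b.1 - a.1) * (q.1 - a.1) + (b.2 - a.2) * (q.2 - a.2)) / det a b q)
    ⟨c0, by simp [hT.toPlane.mem' hc0, hc0, hc0']⟩
  rw [Finset.mem_filter] at hc
  obtain ⟨hcP, hac, hD⟩ := hc
  refine ⟨c, wedge hT hab hac hD ?_⟩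
  rintro q haq ⟨h1, h2⟩
  have := hmax q (by simp [hT.toPlane.mem' haq, haq, h2])
  rw [div_le_div_iff₀ h2 hD] at this
  have key : ((b.1 - a.1) * (q.1 - a.1) + (b.2 - a.2) * (q.2 - a.2)) * det a b c
      - ((b.1 - a.1) * (c.1 - a.1) + (b.2 - a.2) * (c.2 - a.2)) * det a b q
      = ((b.1 - a.1) ^ 2 + (b.2 - a.2) ^ 2) * det a q c := by
    simp only [det]; ring
  have hpos : 0 < (b.1 - a.1) ^ 2 + (b.2 - a.2) ^ 2 := by
    have hne : a ≠ b := hab.ne
    by_contra hc
    push Not at hc
    have h3 : (b.1 - a.1) ^ 2 = 0 := le_antisymm (by nlinarith [sq_nonneg (b.2 - a.2)]) (sq_nonneg _)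
    have h4 : (b.2 - a.2) ^ 2 = 0 := le_antisymm (by nlinarith [sq_nonneg (b.1 - a.1)]) (sq_nonneg _)
    apply hne
    have h5 := pow_eq_zero_iff (two_ne_zero) |>.1 h3
    have h6 := pow_eq_zero_iff (two_ne_zero) |>.1 h4
    ext <;> linarith
  have := mul_pos hpos h1
  linarith

/-- EXISTENCE of a maximal plane graph -/
theorem exists_tri {G : SimpleGraph (ℝ × ℝ)} (hG : Plane P G) : ∃ T, G ≤ T ∧ Tri P T := by
  classical
  have hfin : {T : SimpleGraph (ℝ × ℝ) | Plane P T ∧ G ≤ T}.Finite := by
    refine Set.Finite.of_injOn (f := fun T => {e : (ℝ × ℝ) × (ℝ × ℝ) | T.Adj e.1 e.2})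
      (t := Set.powerset ((P ×ˢ P : Finset ((ℝ × ℝ) × (ℝ × ℝ))) : Set ((ℝ × ℝ) × (ℝ × ℝ)))) ?_ ?_
      ((P ×ˢ P).finite_toSet.powerset)
    · rintro T ⟨hT, -⟩
      rw [Set.mem_powerset_iff]
      rintro ⟨a, b⟩ h
      simp only [Set.mem_setOf_eq] at h
      simp [hT.mem _ _ h, hT.mem' h]
    · rintro T - T' - h
      ext a b
      have := Set.ext_iff.1 h (a, b)
      simpa using this
  obtain ⟨T, hT⟩ := hfin.exists_maximal ⟨G, hG, le_refl _⟩
  obtain ⟨⟨hT1, hT2⟩, hT3⟩ := hT
  refine ⟨T, hT2, hT1, ?_⟩
  intro a ha b hb hab hfree hnc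
  -- add the edge `a b`
  have hle : T ≤ T ⊔ SimpleGraph.edge a b := le_sup_left
  have hadj : ∀ c d, (T ⊔ SimpleGraph.edge a b).Adj c d ↔
      T.Adj c d ∨ ((c = a ∧ d = b ∨ c = b ∧ d = a) ∧ c ≠ d) := by
    intro c d
    rw [SimpleGraph.sup_adj, SimpleGraph.edge_adj]
  have self : ∀ c d : ℝ × ℝ, (c = a ∧ d = b ∨ c = b ∧ d = a) → ¬ Cross c d a b := by
    rintro c d (⟨rfl, rfl⟩ | ⟨rfl, rfl⟩) h
    · have := h.1; simp at this
    · have := h.1; simp at this
  have hpl : Plane P (T ⊔ SimpleGraph.edge a b) := by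
    refine ⟨?_, ?_, ?_⟩
    · intro c d h
      rw [hadj] at h
      rcases h with h | ⟨⟨rfl, rfl⟩ | ⟨rfl, rfl⟩, -⟩
      · exact hT1.mem _ _ h
      · exact ha
      · exact hb
    · intro c d h
      rw [hadj] at h
      rcases h with h | ⟨⟨rfl, rfl⟩ | ⟨rfl, rfl⟩, -⟩
      · exact hT1.free _ _ h
      · exact hfree
      · exact hfree.symm
    · intro c d e f h1 h2
      rw [hadj] at h1 h2
      rcases h1 with h1 | ⟨h1, -⟩
      · rcases h2 with h2 | ⟨⟨rfl, rfl⟩ | ⟨rfl, rfl⟩, -⟩
        · exact hT1.nocross _ _ _ _ h1 h2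
        · exact fun h => hnc _ _ h1 h.symm
        · exact fun h => hnc _ _ h1 h.symm.swap'
      · rcases h2 with h2 | ⟨⟨rfl, rfl⟩ | ⟨rfl, rfl⟩, -⟩
        · rcases h1 with ⟨rfl, rfl⟩ | ⟨rfl, rfl⟩
          · exact hnc _ _ h2
          · exact fun h => hnc _ _ h2 h.swap'
        · exact self c d h1
        · exact fun h => self c d h1 h.swap
  have := hT3 ⟨hpl, hT2.trans hle⟩ hle
  exact this ((hadj a b).2 (Or.inr ⟨Or.inl ⟨rfl, rfl⟩, hab⟩))

end Pool.Agent.PG27
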