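import Mathlib

/-!
# The derivative of a law in the second variable (row L2 of Theorem G)
-/

set_option autoImplicit false

open Filter Topology Asymptotics

namespace Pool.Agent.PG

variable {𝕜 : Type*} [NontriviallyNormedField 𝕜] {E : Type*} [NormedAddCommGroup E] [NormedSpace 𝕜 E]

lemma norm_partial {F : E × E → E} {B : E →L[𝕜] E →L[𝕜] E} {C ρ : ℝ}
    (hB : ∀ x y, ‖x‖ < ρ → ‖y‖ < ρ → ‖F (x, y) - x - y - B x y‖ ≤ C * ‖x‖ * ‖y‖ * (‖x‖ + ‖y‖))
    {x : E} (hx : ‖x‖ < ρ) {L : E →L[𝕜] E} (hL : HasFDerivAt (fun y => F (x, y)) L 0) :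
    ‖L - ContinuousLinearMap.id 𝕜 E - B x‖ ≤ 2 * |C| * ‖x‖ ^ 2 := by
  have hρ : 0 < ρ := (norm_nonneg x).trans_lt hx
  have h1 : HasFDerivAt (fun y => F (x, y) - x - y - B x y) (L - ContinuousLinearMap.id 𝕜 E - B x) 0 :=
    ((hL.sub_const x).sub (hasFDerivAt_id 0)).sub (B x).hasFDerivAt
  have h0 : F (x, 0) - x - 0 - B x 0 = 0 := by
    have := hB x 0 hx (by rwa [norm_zero])
    rw [norm_zero, mul_zero, zero_mul] at this
    exact norm_le_zero_iff.1 this
  refine h1.le_of_lip' (by positivity) ?_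
  rcases eq_or_ne x 0 with rfl | hx0
  · filter_upwards [Metric.ball_mem_nhds (0 : E) hρ] with y hy
    rw [mem_ball_zero_iff] at hy
    rw [h0, sub_zero, norm_zero]
    have := hB 0 y (by rwa [norm_zero]) hy
    rw [norm_zero, mul_zero, zero_mul, zero_mul] at this
    simpa using this
  · have hx1 : 0 < ‖x‖ := norm_pos_iff.2 hx0
    filter_upwards [Metric.ball_mem_nhds (0 : E) hx1] with y hy
    rw [mem_ball_zero_iff] at hy
    rw [h0, sub_zero, sub_zero]
    refine (hB x y hx (hy.trans hx)).trans ?_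
    calc C * ‖x‖ * ‖y‖ * (‖x‖ + ‖y‖) ≤ |C| * ‖x‖ * ‖y‖ * (‖x‖ + ‖x‖) := by
          have h2 : C * ‖x‖ * ‖y‖ ≤ |C| * ‖x‖ * ‖y‖ := by
            gcongr
            exact le_abs_self C
          exact mul_le_mul h2 (by linarith) (by positivity) (by positivity)
      _ = 2 * |C| * ‖x‖ ^ 2 * ‖y‖ := by ring

/-- the derivative of the derivative in the second variable -/
theorem hasFDerivAt_partial {F : E × E → E} {B : E →L[𝕜] E →L[𝕜] E} {C ρ : ℝ} (hρ : 0 < ρ)
    (hB : ∀ x y, ‖x‖ < ρ → ‖y‖ < ρ → ‖F (x, y) - x - y - B x y‖ ≤ C * ‖x‖ * ‖y‖ * (‖x‖ + ‖y‖))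
    {L : E → E →L[𝕜] E} (hL : ∀ᶠ x in 𝓝 0, HasFDerivAt (fun y => F (x, y)) (L x) 0) (v : E) :
    L 0 v = v ∧ HasFDerivAt (fun x => L x v) (B.flip v) 0 := by
  have h1 : ∀ᶠ x in 𝓝 (0 : E), ‖L x - ContinuousLinearMap.id 𝕜 E - B x‖ ≤ 2 * |C| * ‖x‖ ^ 2 := by
    filter_upwards [hL, Metric.ball_mem_nhds (0 : E) hρ] with x hx hx'
    exact norm_partial hB (mem_ball_zero_iff.1 hx') hx
  have h0 : L 0 v = v := by
    have h2 := h1.self_of_nhds
    rw [norm_zero, zero_pow two_ne_zero, mul_zero, map_zero, sub_zero] at h2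
    have h3 := norm_le_zero_iff.1 h2
    rw [sub_eq_zero] at h3
    rw [h3]
    rfl
  refine ⟨h0, ?_⟩
  have h2 : HasFDerivAt (fun x => L x v - v - B x v) (0 : E →L[𝕜] E) 0 := by
    refine IsBigO.hasFDerivAt (n := 2) ?_ one_lt_two
    refine IsBigO.of_bound (2 * |C| * ‖v‖) ?_
    filter_upwards [h1] with x hx
    have h3 : L x v - v - B x v = (L x - ContinuousLinearMap.id 𝕜 E - B x) v := rfl
    rw [h3, sub_zero, Real.norm_eq_abs, abs_of_nonneg (pow_nonneg (norm_nonneg x) 2)]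
    refine (ContinuousLinearMap.le_opNorm _ _).trans ?_
    calc _ ≤ 2 * |C| * ‖x‖ ^ 2 * ‖v‖ := mul_le_mul_of_nonneg_right hx (norm_nonneg v)
      _ = _ := by ring
  have h4 : HasFDerivAt (fun x => B x v) (B.flip v) 0 := (B.flip v).hasFDerivAt
  have h5 := (h2.add h4).add_const v
  rw [zero_add] at h5
  refine h5.congr_of_eventuallyEq (Eventually.of_forall fun x => ?_)
  show L x v = L x v - v - B x v + B x v + v
  abel

end Pool.Agent.PG
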