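import Pool.Agent.PG.Quad
import Pool.Agent.PG.Partial

/-!
# The bracket of the Lie algebra of a Lie group in the chart at `1`: row L2 of Theorem G
-/

set_option autoImplicit false

open Filter Topology Set VectorField
open scoped Manifold ContDiff

namespace Pool.Agent.PG

variable {𝕜 : Type*} [NontriviallyNormedField 𝕜] {H : Type*} [TopologicalSpace H]
  {E : Type*} [NormedAddCommGroup E] [NormedSpace 𝕜 E] {I : ModelWithCorners 𝕜 E H}
  {G : Type*} [TopologicalSpace G] [ChartedSpace H G] [Group G]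

set_option backward.isDefEq.respectTransparency false in
/-- the derivative of the chart at its centre is the identity -/
lemma mfderiv_ext_one [I.Boundaryless] [IsManifold I 1 G] :
    (mfderiv I 𝓘(𝕜, E) (extChartAt I (1 : G)) 1 : E →L[𝕜] E) = ContinuousLinearMap.id 𝕜 E := by
  have h1 : MDifferentiableAt I 𝓘(𝕜, E) (extChartAt I (1 : G)) 1 := mdifferentiableAt_extChartAt (mem_chart_source H 1)
  rw [mfderiv, if_pos h1, I.range_eq_univ, fderivWithin_univ]
  have h2 : writtenInExtChartAt I 𝓘(𝕜, E) (1 : G) (extChartAt I (1 : G)) =ᶠ[𝓝 (extChartAt I (1 : G) 1)] id := by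
    filter_upwards [extChartAt_target_mem_nhds (I := I) (1 : G)] with x hx
    simp only [writtenInExtChartAt, Function.comp_apply, extChartAt_model_space_eq_id, PartialEquiv.refl_coe, id_eq]
    exact (extChartAt I (1 : G)).right_inv hx
  rw [h2.fderiv_eq, fderiv_id]

set_option backward.isDefEq.respectTransparency false in
/-- the derivative of the law in the second variable -/
lemma hasFDerivAt_second [I.Boundaryless] [LieGroup I ω G] {g : G} (hg : g ∈ (extChartAt I (1 : G)).source) :
    HasFDerivAt (fun y => extChartAt I (1 : G) (g * (extChartAt I (1 : G)).symm y))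
      ((mfderiv I 𝓘(𝕜, E) (extChartAt I (1 : G)) g : E →L[𝕜] E) ∘L (mfderiv I I (g * ·) (1 : G) : E →L[𝕜] E))
      (cen I G) := by
  have : IsManifold I 1 G := IsManifold.of_le (n := ω) (by exact le_top)
  have hz : cen I G ∈ (extChartAt I (1 : G)).target := mem_extChartAt_target (1 : G)
  have hs : MDifferentiableAt 𝓘(𝕜, E) I (extChartAt I (1 : G)).symm (cen I G) :=
    ((contMDiffOn_extChartAt_symm (n := 1) (1 : G)).contMDiffAt (extChartAt_target_mem_nhds (I := I) (1 : G))).mdifferentiableAt
      one_ne_zero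
  have h1 : HasMFDerivAt 𝓘(𝕜, E) I (extChartAt I (1 : G)).symm (cen I G) (ContinuousLinearMap.id 𝕜 E) := by
    have e1 := hs.hasMFDerivAt
    have e2 := mfderiv_extChartAt_comp_mfderivWithin_extChartAt_symm (I := I) (x := (1 : G)) hz
    rw [I.range_eq_univ, mfderivWithin_univ] at e2
    have e3 : (mfderiv 𝓘(𝕜, E) I (extChartAt I (1 : G)).symm (cen I G) : E →L[𝕜] E) = ContinuousLinearMap.id 𝕜 E := by
      have e4 : (mfderiv I 𝓘(𝕜, E) (extChartAt I (1 : G)) ((extChartAt I (1 : G)).symm (cen I G)) : E →L[𝕜] E) =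
          ContinuousLinearMap.id 𝕜 E := by
        rw [symm_cen]
        exact mfderiv_ext_one
      have e5 : ((mfderiv I 𝓘(𝕜, E) (extChartAt I (1 : G)) ((extChartAt I (1 : G)).symm (cen I G)) : E →L[𝕜] E) ∘L
          (mfderiv 𝓘(𝕜, E) I (extChartAt I (1 : G)).symm (cen I G) : E →L[𝕜] E)) = ContinuousLinearMap.id 𝕜 E := e2
      rw [e4] at e5
      exact ContinuousLinearMap.ext fun v => congrArg (fun f : E →L[𝕜] E => f v) e5
    rw [← e3]
    exact e1
  have h2 : HasMFDerivAt I I (g * ·) ((extChartAt I (1 : G)).symm (cen I G)) (mfderiv I I (g * ·) (1 : G) : E →L[𝕜] E) := by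
    rw [symm_cen]
    exact ((contMDiff_mul_left (I := I) (n := ω) (a := g)).contMDiffAt.mdifferentiableAt (by decide)).hasMFDerivAt
  have h3 : HasMFDerivAt I 𝓘(𝕜, E) (extChartAt I (1 : G)) (g * (extChartAt I (1 : G)).symm (cen I G))
      (mfderiv I 𝓘(𝕜, E) (extChartAt I (1 : G)) g : E →L[𝕜] E) := by
    rw [symm_cen, mul_one]
    exact (mdifferentiableAt_extChartAt (by rwa [← extChartAt_source I (1 : G)])).hasMFDerivAt
  have h4 := (h3.comp (cen I G) (h2.comp (cen I G) h1)).hasFDerivAt
  exact h4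

lemma shift_aux {k : E → E} {A : E →L[𝕜] E} {c : E} (h : HasFDerivAt k A c) :
    HasFDerivAt (fun y => k (y + c) - c) A 0 := by
  have h2 : HasFDerivAt (fun y : E => y + c) (ContinuousLinearMap.id 𝕜 E) 0 := (hasFDerivAt_id (0 : E)).add_const c
  have h3 : HasFDerivAt k A ((0 : E) + c) := by rwa [zero_add]
  have h4 := (h3.comp (0 : E) h2).sub_const c
  rw [ContinuousLinearMap.comp_id] at h4
  exact h4

lemma shift_aux2 {k : E → E} {A : E →L[𝕜] E} {c : E} (h : HasFDerivAt k A 0) :
    HasFDerivAt (fun y => k (y - c)) A c := by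
  have h2 : HasFDerivAt (fun y : E => y - c) (ContinuousLinearMap.id 𝕜 E) c := (hasFDerivAt_id c).sub_const c
  have h3 : HasFDerivAt k A ((fun y : E => y - c) c) := by
    show HasFDerivAt k A (c - c)
    rwa [sub_self]
  have h4 := HasFDerivAt.comp (f := fun y : E => y - c) c h3 h2
  rw [ContinuousLinearMap.comp_id] at h4
  exact h4

/-- the derivative of `lawAt` in the second variable -/
lemma hasFDerivAt_lawAt [I.Boundaryless] [LieGroup I ω G] {x : E} (hx : x + cen I G ∈ (extChartAt I (1 : G)).target) :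
    HasFDerivAt (fun y => lawAt I G (x, y))
      ((mfderiv I 𝓘(𝕜, E) (extChartAt I (1 : G)) ((extChartAt I (1 : G)).symm (x + cen I G)) : E →L[𝕜] E) ∘L
        (mfderiv I I ((extChartAt I (1 : G)).symm (x + cen I G) * ·) (1 : G) : E →L[𝕜] E)) 0 := by
  exact shift_aux (hasFDerivAt_second (I := I) ((extChartAt I (1 : G)).map_target hx))

set_option backward.isDefEq.respectTransparency false in
/-- an invariant vector field in the chart -/
lemma mpullback_eq [I.Boundaryless] [LieGroup I ω G] (v : GroupLieAlgebra I G) {x : E}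
    (hx : x ∈ (extChartAt I (1 : G)).target) :
    (mpullbackWithin 𝓘(𝕜, E) I (extChartAt I (1 : G)).symm (mulInvariantVectorField v) (range I) x : E) =
      (mfderiv I 𝓘(𝕜, E) (extChartAt I (1 : G)) ((extChartAt I (1 : G)).symm x) : E →L[𝕜] E)
        ((mfderiv I I ((extChartAt I (1 : G)).symm x * ·) (1 : G) : E →L[𝕜] E) v) := by
  have : IsManifold I 1 G := IsManifold.of_le (n := ω) (by exact le_top)
  rw [mpullbackWithin_apply, ContinuousLinearMap.inverse_eq
    (mfderivWithin_extChartAt_symm_comp_mfderiv_extChartAt hx) (mfderiv_extChartAt_comp_mfderivWithin_extChartAt_symm hx)]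
  rfl

set_option backward.isDefEq.respectTransparency false in
/-- **Row L2**: the bracket of the Lie algebra of a Lie group is the antisymmetrisation of the bilinear part of the law
in the chart at `1`. -/
theorem bracket_eq [I.Boundaryless] [LieGroup I ω G] {B : E →L[𝕜] E →L[𝕜] E} (hB : IsQuad I G B)
    (v w : GroupLieAlgebra I G) : (⁅v, w⁆ : GroupLieAlgebra I G) = (B v w - B w v : E) := by
  have : IsManifold I 1 G := IsManifold.of_le (n := ω) (by exact le_top)
  obtain ⟨C, ρ, hρ, hB⟩ := hB
  set L : E → E →L[𝕜] E := fun x =>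
    (mfderiv I 𝓘(𝕜, E) (extChartAt I (1 : G)) ((extChartAt I (1 : G)).symm (x + cen I G)) : E →L[𝕜] E) ∘L
        (mfderiv I I ((extChartAt I (1 : G)).symm (x + cen I G) * ·) (1 : G) : E →L[𝕜] E) with hL
  have hLd : ∀ᶠ x in 𝓝 (0 : E), HasFDerivAt (fun y => lawAt I G (x, y)) (L x) 0 := by
    filter_upwards [eventually_target (I := I) (G := G)] with x hx
    exact hasFDerivAt_lawAt hx
  have hpart := hasFDerivAt_partial hρ hB hLd
  have hfd : ∀ u : E, HasFDerivAt (fun x => L (x - cen I G) u) (B.flip u) (cen I G) := by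
    intro u
    exact shift_aux2 (k := fun x => L x u) (hpart u).2
  have hev : ∀ u : GroupLieAlgebra I G,
      (mpullbackWithin 𝓘(𝕜, E) I (extChartAt I (1 : G)).symm (mulInvariantVectorField u) (range I) : E → E)
        =ᶠ[𝓝 (cen I G)] fun x => L (x - cen I G) u := by
    intro u
    filter_upwards [extChartAt_target_mem_nhds (I := I) (1 : G)] with x hx
    have h1 := mpullback_eq u hx
    have h2 : L (x - cen I G) u = (mfderiv I 𝓘(𝕜, E) (extChartAt I (1 : G)) ((extChartAt I (1 : G)).symm (x - cen I G + cen I G)) : E →L[𝕜] E)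
        ((mfderiv I I ((extChartAt I (1 : G)).symm (x - cen I G + cen I G) * ·) (1 : G) : E →L[𝕜] E) u) := rfl
    rw [sub_add_cancel] at h2
    rw [h2]
    exact h1
  have hbr : lieBracket 𝕜 (fun x => L (x - cen I G) v) (fun x => L (x - cen I G) w) (cen I G) = B v w - B w v := by
    rw [lieBracket, (hfd v).fderiv, (hfd w).fderiv]
    show B.flip w (L (cen I G - cen I G) v) - B.flip v (L (cen I G - cen I G) w) = _
    rw [sub_self, (hpart v).1, (hpart w).1]
    rfl
  rw [GroupLieAlgebra.bracket_def, mlieBracket, mlieBracketWithin_apply]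
  have h5 : (mfderiv I 𝓘(𝕜, E) (extChartAt I (1 : G)) 1 : E →L[𝕜] E).inverse = ContinuousLinearMap.id 𝕜 E := by
    rw [mfderiv_ext_one]
    exact ContinuousLinearMap.inverse_id
  have h6 : lieBracketWithin 𝕜
      (mpullbackWithin 𝓘(𝕜, E) I (extChartAt I (1 : G)).symm (mulInvariantVectorField v) (range I) : E → E)
      (mpullbackWithin 𝓘(𝕜, E) I (extChartAt I (1 : G)).symm (mulInvariantVectorField w) (range I) : E → E)
      ((extChartAt I (1 : G)).symm ⁻¹' univ ∩ range I) (extChartAt I (1 : G) 1) = B v w - B w v := by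
    rw [preimage_univ, univ_inter, I.range_eq_univ, lieBracketWithin_univ, ← hbr]
    rw [← I.range_eq_univ]
    exact (hev v).lieBracket_vectorField_eq (hev w)
  show (mfderiv I 𝓘(𝕜, E) (extChartAt I (1 : G)) 1 : E →L[𝕜] E).inverse _ = _
  rw [h5]
  exact h6

end Pool.Agent.PG
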