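import Mathlib

/-!
# The codimension of subalgebras
-/

set_option autoImplicit false

namespace Pool.Agent.PG

/-- Every linear subspace of the algebra `L` which is closed under the bracket and is not `L` itself has
codimension at least `m`. -/
def SubalgCodim (k L : Type*) [Field k] [AddCommGroup L] [Module k L] [Bracket L L] (m : ℕ) : Prop :=
  ∀ S : Submodule k L, (∀ v ∈ S, ∀ w ∈ S, ⁅v, w⁆ ∈ S) → S ≠ ⊤ →
    Module.finrank k S + m ≤ Module.finrank k L

end Pool.Agent.PG
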