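import Mathlib

/-!
# Standard `p`-adic analytic groups (project MP_afaf30_gt, Theorem G)
-/

set_option autoImplicit false
set_option linter.unusedVariables false

namespace Pool.Agent.PG

/-- all entries are divisible by `p ^ i` -/
def Dv {p : ℕ} [Fact p.Prime] {r : ℕ} (i : ℕ) (v : Fin r → ℤ_[p]) : Prop :=
  ∀ a, (p : ℤ_[p]) ^ i ∣ v a

/-- A standard `p`-adic analytic group of dimension `r` and level `κ`: the coordinates `φ` identify it
with `ℤ_p ^ r`, the identity is `0`, and the coordinates of a product are given by the power series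
`X + Y + ∑ (mixed terms of degree ≥ 2)`, with coefficients in degree `d` divisible by
`p ^ (κ (d - 1))`. Here `Sum.inl j` stands for the variable `X j` and `Sum.inr j` for `Y j`. -/
structure Std (p r κ : ℕ) [Fact p.Prime] (G : Type*) [Group G] [TopologicalSpace G] where
  φ : G ≃ₜ (Fin r → ℤ_[p])
  one : φ 1 = 0
  coef : Fin r → ((Fin r ⊕ Fin r) →₀ ℕ) → ℤ_[p]
  coef_zero : ∀ i, coef i 0 = 0
  coef_inl : ∀ i j, coef i (Finsupp.single (Sum.inl j) 1) = if i = j then 1 else 0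
  coef_inr : ∀ i j, coef i (Finsupp.single (Sum.inr j) 1) = if i = j then 1 else 0
  coef_left : ∀ i s, 2 ≤ s.degree → (∀ j, s (Sum.inr j) = 0) → coef i s = 0
  coef_right : ∀ i s, 2 ≤ s.degree → (∀ j, s (Sum.inl j) = 0) → coef i s = 0
  coef_dvd : ∀ i s, (p : ℤ_[p]) ^ (κ * (s.degree - 1)) ∣ coef i s
  law : ∀ (x y : G) (i : Fin r),
    HasSum (fun s : (Fin r ⊕ Fin r) →₀ ℕ => coef i s * s.prod fun v n => (Sum.elim (φ x) (φ y) v) ^ n)
      (φ (x * y) i)

/-- the bracket of the Lie algebra `ℚ_p ^ r` of a standard group -/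
noncomputable def Std.br {p r κ : ℕ} [Fact p.Prime] {G : Type*} [Group G] [TopologicalSpace G]
    (W : Std p r κ G) (x y : Fin r → ℚ_[p]) (i : Fin r) : ℚ_[p] :=
  ∑ j, ∑ l, (W.coef i (Finsupp.single (Sum.inl j) 1 + Finsupp.single (Sum.inr l) 1) : ℚ_[p]) *
    (x j * y l - x l * y j)

/-- every proper subalgebra of the Lie algebra has codimension at least `m` -/
def Std.Big {p r κ : ℕ} [Fact p.Prime] {G : Type*} [Group G] [TopologicalSpace G]
    (W : Std p r κ G) (m : ℕ) : Prop :=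
  ∀ S : Submodule ℚ_[p] (Fin r → ℚ_[p]), (∀ x ∈ S, ∀ y ∈ S, W.br x y ∈ S) → S ≠ ⊤ →
    Module.finrank ℚ_[p] S + m ≤ r

/-- the consequences of `Std` which are used on the group side -/
structure Lw (p r κ : ℕ) [Fact p.Prime] (G : Type*) [Group G] [TopologicalSpace G] where
  φ : G ≃ₜ (Fin r → ℤ_[p])
  B : (Fin r → ℤ_[p]) →ₗ[ℤ_[p]] (Fin r → ℤ_[p]) →ₗ[ℤ_[p]] (Fin r → ℤ_[p])
  one : φ 1 = 0
  mul : ∀ x y i j, Dv i (φ x) → Dv j (φ y) → Dv (κ + i + j) (φ (x * y) - φ x - φ y)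
  mul2 : ∀ x y i j, Dv i (φ x) → Dv j (φ y) →
    Dv (2 * κ + i + j + min i j) (φ (x * y) - φ x - φ y - (p : ℤ_[p]) ^ κ • B (φ x) (φ y))

/-- every proper pure subalgebra over `ℤ_p` has corank at least `m` -/
def Lw.Big {p r κ : ℕ} [Fact p.Prime] {G : Type*} [Group G] [TopologicalSpace G]
    (W : Lw p r κ G) (m : ℕ) : Prop :=
  ∀ S : Submodule ℤ_[p] (Fin r → ℤ_[p]), (∀ x ∈ S, ∀ y ∈ S, W.B x y - W.B y x ∈ S) →
    (∀ x, (p : ℤ_[p]) • x ∈ S → x ∈ S) → S ≠ ⊤ → Module.finrank ℤ_[p] S + m ≤ r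

end Pool.Agent.PG
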