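import Mathlib

/-!
# The law of a Lie group in the chart at `1` (Theorem G)
-/

set_option autoImplicit false

open scoped Manifold ContDiff

namespace Pool.Agent.PG

variable {𝕜 : Type*} [NontriviallyNormedField 𝕜] {H : Type*} [TopologicalSpace H]
  {E : Type*} [NormedAddCommGroup E] [NormedSpace 𝕜 E] (I : ModelWithCorners 𝕜 E H)
  (G : Type*) [TopologicalSpace G] [ChartedSpace H G] [Group G]

/-- the coordinates of `1` -/
noncomputable def cen : E := extChartAt I (1 : G) 1

/-- the law in the chart at `1`, centred at `0` -/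
noncomputable def lawAt (z : E × E) : E :=
  extChartAt I (1 : G) ((extChartAt I (1 : G)).symm (z.1 + cen I G) * (extChartAt I (1 : G)).symm (z.2 + cen I G)) -
    cen I G

/-- `B` is the bilinear part of the law in the chart at `1` -/
def IsQuad (B : E →L[𝕜] E →L[𝕜] E) : Prop :=
  ∃ C ρ : ℝ, 0 < ρ ∧ ∀ x y : E, ‖x‖ < ρ → ‖y‖ < ρ →
    ‖lawAt I G (x, y) - x - y - B x y‖ ≤ C * ‖x‖ * ‖y‖ * (‖x‖ + ‖y‖)

end Pool.Agent.PG
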