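import Pool.Agent.PG.Lev
import Pool.Agent.PG.LieDefs

/-!
# Standard subgroups of a group with a chart over `ℚ_[p]`
-/

set_option autoImplicit false

open Topology Filter Module

namespace Pool.Agent.PG

variable {p r : ℕ} [hp : Fact p.Prime]

section iota

/-- the inclusion of `ℤ_[p] ^ r` in `ℚ_[p] ^ r` -/
def io (v : Fin r → ℤ_[p]) : Fin r → ℚ_[p] := fun a => (v a : ℚ_[p])

lemma io_apply (v : Fin r → ℤ_[p]) (a : Fin r) : io v a = (v a : ℚ_[p]) := rfl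

lemma io_add (v w : Fin r → ℤ_[p]) : io (v + w) = io v + io w :=
  funext fun a => PadicInt.coe_add (v a) (w a)

lemma io_sub (v w : Fin r → ℤ_[p]) : io (v - w) = io v - io w :=
  funext fun a => PadicInt.coe_sub (v a) (w a)

lemma io_smul (c : ℤ_[p]) (v : Fin r → ℤ_[p]) : io (c • v) = (c : ℚ_[p]) • io v :=
  funext fun a => PadicInt.coe_mul c (v a)

lemma io_smul_pow (n : ℕ) (v : Fin r → ℤ_[p]) : io ((p : ℤ_[p]) ^ n • v) = (p : ℚ_[p]) ^ n • io v := by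
  funext a
  show (((p : ℤ_[p]) ^ n * v a : ℤ_[p]) : ℚ_[p]) = (p : ℚ_[p]) ^ n * (v a : ℚ_[p])
  push_cast
  rfl

lemma io_zero : io (0 : Fin r → ℤ_[p]) = 0 := funext fun _ => PadicInt.coe_zero

lemma io_injective : Function.Injective (io : (Fin r → ℤ_[p]) → (Fin r → ℚ_[p])) := by
  intro v w h
  funext a
  exact Subtype.ext (congrFun h a)

lemma io_norm_le (v : Fin r → ℤ_[p]) : ‖io v‖ ≤ 1 := by
  rw [pi_norm_le_iff_of_nonneg zero_le_one]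
  exact fun a => (v a).2

lemma p_pos : (0 : ℝ) < p := by exact_mod_cast hp.out.pos

lemma one_lt_p : (1 : ℝ) < p := by exact_mod_cast hp.out.one_lt

lemma norm_pow_p (n : ℕ) : ‖(p : ℚ_[p]) ^ n‖ = (p : ℝ) ^ (-(n : ℤ)) := by
  rw [norm_pow, Padic.norm_p, zpow_neg, zpow_natCast, inv_pow]

lemma dv_iff_norm {i : ℕ} {v : Fin r → ℤ_[p]} : Dv i v ↔ ‖io v‖ ≤ (p : ℝ) ^ (-(i : ℤ)) := by
  have := p_pos (p := p)
  rw [pi_norm_le_iff_of_nonneg (by positivity)]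
  exact forall_congr' fun a => norm_le_iff_dvd.symm

/-- the vectors of norm at most one -/
noncomputable def oi (x : Fin r → ℚ_[p]) (h : ‖x‖ ≤ 1) : Fin r → ℤ_[p] :=
  fun a => ⟨x a, (norm_le_pi_norm x a).trans h⟩

lemma io_oi (x : Fin r → ℚ_[p]) (h : ‖x‖ ≤ 1) : io (oi x h) = x := rfl

lemma oi_io (v : Fin r → ℤ_[p]) (h : ‖io v‖ ≤ 1) : oi (io v) h = v := rfl

end iota

lemma norm_smul_pow (n : ℕ) (x : Fin r → ℚ_[p]) : ‖(p : ℚ_[p]) ^ n • x‖ = (p : ℝ) ^ (-(n : ℤ)) * ‖x‖ := by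
  rw [norm_smul, norm_pow_p]

/-- the sum of two small vectors -/
lemma norm_add_le_of {x y : Fin r → ℚ_[p]} {c : ℝ} (hx : ‖x‖ ≤ c) (hy : ‖y‖ ≤ c) : ‖x + y‖ ≤ c := by
  have hc : 0 ≤ c := (norm_nonneg x).trans hx
  rw [pi_norm_le_iff_of_nonneg hc]
  intro a
  exact (Padic.nonarchimedean _ _).trans (max_le ((norm_le_pi_norm x a).trans hx) ((norm_le_pi_norm y a).trans hy))

lemma norm_sub_le_of {x y : Fin r → ℚ_[p]} {c : ℝ} (hx : ‖x‖ ≤ c) (hy : ‖y‖ ≤ c) : ‖x - y‖ ≤ c := by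
  rw [sub_eq_add_neg]
  exact norm_add_le_of hx (by rwa [norm_neg])

variable {G : Type*} [Group G] [TopologicalSpace G]

/-- the analytic input: a chart of a topological group in which the law is `x + y + b x y` up to third order -/
structure Cht (p r : ℕ) [Fact p.Prime] (G : Type*) [Group G] [TopologicalSpace G] where
  e : OpenPartialHomeomorph G (Fin r → ℚ_[p])
  one_mem : (1 : G) ∈ e.source
  one : e 1 = 0
  b : (Fin r → ℚ_[p]) →ₗ[ℚ_[p]] (Fin r → ℚ_[p]) →ₗ[ℚ_[p]] (Fin r → ℚ_[p])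
  c : ℕ
  hb : ∀ x y, ‖b x y‖ ≤ (p : ℝ) ^ c * ‖x‖ * ‖y‖
  ρ : ℝ
  hρ : 0 < ρ
  law : ∀ x y, ‖x‖ < ρ → ‖y‖ < ρ →
    ‖e (e.symm x * e.symm y) - x - y - b x y‖ ≤ (p : ℝ) ^ c * ‖x‖ * ‖y‖ * max ‖x‖ ‖y‖

namespace Cht

variable (T : Cht p r G)

/-- `N` is large: the estimates hold in the ball of radius `p ^ (-N)` -/
structure Lg (V : Set G) (N : ℕ) : Prop where
  tgt : ∀ x, ‖x‖ ≤ (p : ℝ) ^ (-(N : ℤ)) → x ∈ T.e.target
  rho : (p : ℝ) ^ (-(N : ℤ)) < T.ρ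
  mul : ∀ x y, ‖x‖ ≤ (p : ℝ) ^ (-(N : ℤ)) → ‖y‖ ≤ (p : ℝ) ^ (-(N : ℤ)) → T.e.symm x * T.e.symm y ∈ T.e.source
  le : T.c ≤ N
  sub : ∀ x, ‖x‖ ≤ (p : ℝ) ^ (-(N : ℤ)) → T.e.symm x ∈ V

lemma zpow_anti {M N : ℕ} (h : M ≤ N) : (p : ℝ) ^ (-(N : ℤ)) ≤ (p : ℝ) ^ (-(M : ℤ)) :=
  zpow_le_zpow_right₀ one_lt_p.le (by omega)

lemma exists_zpow_lt {ε : ℝ} (hε : 0 < ε) : ∃ N : ℕ, (p : ℝ) ^ (-(N : ℤ)) < ε := by
  have h3 := tendsto_pow_atTop_nhds_zero_of_lt_one (r := (p : ℝ)⁻¹) (by positivity)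
    (inv_lt_one_of_one_lt₀ one_lt_p)
  obtain ⟨n, hn⟩ := (h3.eventually (gt_mem_nhds hε)).exists
  exact ⟨n, by rw [zpow_neg, zpow_natCast, ← inv_pow]; exact hn⟩

variable {T}

lemma Lg.mono {V : Set G} {M N : ℕ} (h : T.Lg V M) (hMN : M ≤ N) : T.Lg V N where
  tgt x hx := h.tgt x (hx.trans (zpow_anti hMN))
  rho := (zpow_anti hMN).trans_lt h.rho
  mul x y hx hy := h.mul x y (hx.trans (zpow_anti hMN)) (hy.trans (zpow_anti hMN))
  le := h.le.trans hMN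
  sub x hx := h.sub x (hx.trans (zpow_anti hMN))

/-- eventually in the balls -/
lemma exists_of_nhds {P : (Fin r → ℚ_[p]) → Prop} (h : ∀ᶠ x in 𝓝 (0 : Fin r → ℚ_[p]), P x) :
    ∃ N : ℕ, ∀ x, ‖x‖ ≤ (p : ℝ) ^ (-(N : ℤ)) → P x := by
  obtain ⟨ε, hε, h1⟩ := Metric.eventually_nhds_iff.1 h
  obtain ⟨N, hN⟩ := exists_zpow_lt (p := p) hε
  exact ⟨N, fun x hx => h1 (by rw [dist_zero_right]; exact hx.trans_lt hN)⟩

variable (T)

lemma zero_mem : (0 : Fin r → ℚ_[p]) ∈ T.e.target := by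
  rw [← T.one]
  exact T.e.map_source T.one_mem

lemma symm_zero : T.e.symm 0 = 1 := by
  rw [← T.one]
  exact T.e.left_inv T.one_mem

lemma tendsto_symm : Tendsto T.e.symm (𝓝 0) (𝓝 1) := by
  have h1 := (T.e.symm.continuousAt T.zero_mem).tendsto
  rwa [T.symm_zero] at h1

lemma exists_Lg [IsTopologicalGroup G] {V : Set G} (hV : V ∈ 𝓝 (1 : G)) : ∃ N, T.Lg V N := by
  obtain ⟨N1, h1⟩ := exists_of_nhds (T.e.open_target.mem_nhds T.zero_mem)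
  obtain ⟨N2, h2⟩ := exists_zpow_lt (p := p) T.hρ
  have h3 : ∀ᶠ z : (Fin r → ℚ_[p]) × (Fin r → ℚ_[p]) in 𝓝 (0, 0), T.e.symm z.1 * T.e.symm z.2 ∈ T.e.source := by
    have h4 : Tendsto (fun z : (Fin r → ℚ_[p]) × (Fin r → ℚ_[p]) => T.e.symm z.1 * T.e.symm z.2) (𝓝 (0, 0)) (𝓝 (1 * 1)) := by
      rw [nhds_prod_eq]
      exact (T.tendsto_symm.comp tendsto_fst).mul (T.tendsto_symm.comp tendsto_snd)
    rw [mul_one] at h4
    exact h4.eventually (T.e.open_source.mem_nhds T.one_mem)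
  obtain ⟨ε, hε, h4⟩ := Metric.eventually_nhds_iff.1 h3
  obtain ⟨N3, h5⟩ := exists_zpow_lt (p := p) hε
  obtain ⟨N4, h6⟩ := exists_of_nhds (T.tendsto_symm.eventually hV)
  refine ⟨N1 + N2 + N3 + N4 + T.c, fun x hx => h1 x (hx.trans (zpow_anti (by omega))),
    (zpow_anti (by omega)).trans_lt h2, fun x y hx hy => h4 (y := (x, y)) ?_, by omega,
    fun x hx => h6 x (hx.trans (zpow_anti (by omega)))⟩
  rw [Prod.dist_eq, max_lt_iff, dist_zero_right, dist_zero_right]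
  exact ⟨(hx.trans (zpow_anti (by omega))).trans_lt h5, (hy.trans (zpow_anti (by omega))).trans_lt h5⟩

variable {T}

lemma pow_pos' (n : ℤ) : (0 : ℝ) < (p : ℝ) ^ n := zpow_pos p_pos n

/-- the product of two elements of the ball -/
lemma Lg.law {V : Set G} {N : ℕ} (h : T.Lg V N) {g k : G} (hg : g ∈ T.e.source)
    (hgN : ‖T.e g‖ ≤ (p : ℝ) ^ (-(N : ℤ))) (hk : k ∈ T.e.source) (hkN : ‖T.e k‖ ≤ (p : ℝ) ^ (-(N : ℤ))) :
    g * k ∈ T.e.source ∧ ‖T.e (g * k) - T.e g - T.e k - T.b (T.e g) (T.e k)‖ ≤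
      (p : ℝ) ^ T.c * ‖T.e g‖ * ‖T.e k‖ * max ‖T.e g‖ ‖T.e k‖ := by
  have h1 := h.mul _ _ hgN hkN
  have h2 := T.law _ _ (hgN.trans_lt h.rho) (hkN.trans_lt h.rho)
  rw [T.e.left_inv hg, T.e.left_inv hk] at h1 h2
  exact ⟨h1, h2⟩

/-- the quadratic terms -/
lemma Lg.law1 {V : Set G} {N : ℕ} (h : T.Lg V N) {g k : G} (hg : g ∈ T.e.source)
    (hgN : ‖T.e g‖ ≤ (p : ℝ) ^ (-(N : ℤ))) (hk : k ∈ T.e.source) (hkN : ‖T.e k‖ ≤ (p : ℝ) ^ (-(N : ℤ))) :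
    ‖T.e (g * k) - T.e g - T.e k‖ ≤ (p : ℝ) ^ T.c * ‖T.e g‖ * ‖T.e k‖ := by
  have h1 := (h.law hg hgN hk hkN).2
  have hN : (p : ℝ) ^ (-(N : ℤ)) ≤ 1 := by
    have := zpow_anti (p := p) (Nat.zero_le N)
    simpa using this
  have h2 : T.e (g * k) - T.e g - T.e k =
      (T.e (g * k) - T.e g - T.e k - T.b (T.e g) (T.e k)) + T.b (T.e g) (T.e k) := by abel
  rw [h2]
  have h3 : 0 ≤ (p : ℝ) ^ T.c * ‖T.e g‖ * ‖T.e k‖ := by
    have := p_pos (p := p)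
    positivity
  refine norm_add_le_of (h1.trans ?_) (T.hb _ _)
  refine mul_le_of_le_one_right h3 (max_le (hgN.trans hN) (hkN.trans hN))

/-- `N` is large enough for the ball to be closed under inverses -/
structure Lg2 (T : Cht p r G) (V : Set G) (N : ℕ) : Prop where
  M : ∃ M, M ≤ N ∧ T.Lg V M ∧ ∀ x, ‖x‖ ≤ (p : ℝ) ^ (-(N : ℤ)) →
    (T.e.symm x)⁻¹ ∈ T.e.source ∧ ‖T.e (T.e.symm x)⁻¹‖ ≤ (p : ℝ) ^ (-(M : ℤ))
  lg : T.Lg V N

lemma exists_Lg2 [IsTopologicalGroup G] {V : Set G} (hV : V ∈ 𝓝 (1 : G)) (N₀ : ℕ) : ∃ N, N₀ ≤ N ∧ T.Lg2 V N := by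
  obtain ⟨M, hM⟩ := T.exists_Lg hV
  have h1 : Tendsto (fun x => (T.e.symm x)⁻¹) (𝓝 0) (𝓝 1) := by
    have h2 := T.tendsto_symm.inv
    rwa [inv_one] at h2
  have h2 : Tendsto (fun x => T.e (T.e.symm x)⁻¹) (𝓝 0) (𝓝 0) := by
    have h3 := (T.e.continuousAt T.one_mem).tendsto
    rw [T.one] at h3
    exact h3.comp h1
  have h3 : ∀ᶠ x in 𝓝 (0 : Fin r → ℚ_[p]), ‖T.e (T.e.symm x)⁻¹‖ ≤ (p : ℝ) ^ (-(M : ℤ)) := by
    have h4 := h2.eventually (Metric.closedBall_mem_nhds _ (pow_pos' (p := p) (-(M : ℤ))))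
    refine h4.mono fun x hx => ?_
    rwa [dist_zero_right] at hx
  obtain ⟨N1, h4⟩ := exists_of_nhds ((h1.eventually (T.e.open_source.mem_nhds T.one_mem)).and h3)
  exact ⟨N₀ + N1 + M, by omega, ⟨M, by omega, hM, fun x hx => h4 x (hx.trans (zpow_anti (by omega)))⟩, hM.mono (by omega)⟩

/-- the ball, as a subgroup -/
def ballU {V : Set G} {N : ℕ} (h : T.Lg2 V N) : Subgroup G where
  carrier := {g | g ∈ T.e.source ∧ ‖T.e g‖ ≤ (p : ℝ) ^ (-(N : ℤ))}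
  one_mem' := ⟨T.one_mem, by rw [T.one, norm_zero]; exact (pow_pos' _).le⟩
  mul_mem' := by
    rintro g k ⟨hg, hgN⟩ ⟨hk, hkN⟩
    refine ⟨(h.lg.law hg hgN hk hkN).1, ?_⟩
    have h1 := h.lg.law1 hg hgN hk hkN
    have h2 : T.e (g * k) = (T.e (g * k) - T.e g - T.e k) + T.e g + T.e k := by abel
    rw [h2]
    refine norm_add_le_of (norm_add_le_of (h1.trans ?_) hgN) hkN
    have h3 : (p : ℝ) ^ T.c * ‖T.e g‖ ≤ 1 := by
      calc (p : ℝ) ^ T.c * ‖T.e g‖ ≤ (p : ℝ) ^ T.c * (p : ℝ) ^ (-(N : ℤ)) := by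
            have := p_pos (p := p)
            gcongr
        _ = (p : ℝ) ^ ((T.c : ℤ) - N) := by
            rw [← zpow_natCast, ← zpow_add₀ (ne_of_gt p_pos)]
            rfl
        _ ≤ (p : ℝ) ^ (0 : ℤ) := zpow_le_zpow_right₀ one_lt_p.le (by have := h.lg.le; omega)
        _ = 1 := zpow_zero _
    exact (mul_le_of_le_one_left (norm_nonneg _) h3).trans hkN
  inv_mem' := by
    rintro g ⟨hg, hgN⟩
    obtain ⟨M, hMN, hM, h1⟩ := h.M
    have h2 := h1 _ hgN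
    rw [T.e.left_inv hg] at h2
    refine ⟨h2.1, le_trans ?_ hgN⟩
    have h3 := hM.law1 hg (hgN.trans (zpow_anti hMN)) h2.1 h2.2
    rw [mul_inv_cancel, T.one] at h3
    have h4 : T.e g⁻¹ = -(0 - T.e g - T.e g⁻¹) - T.e g := by abel
    have h5 : (p : ℝ) ^ T.c * ‖T.e g‖ * ‖T.e g⁻¹‖ ≤ ‖T.e g‖ := by
      calc (p : ℝ) ^ T.c * ‖T.e g‖ * ‖T.e g⁻¹‖ ≤ (p : ℝ) ^ T.c * ‖T.e g‖ * (p : ℝ) ^ (-(M : ℤ)) := by
            have := p_pos (p := p)
            gcongr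
            exact h2.2
        _ = (p : ℝ) ^ ((T.c : ℤ) - M) * ‖T.e g‖ := by
            rw [sub_eq_add_neg, zpow_add₀ (ne_of_gt p_pos), zpow_natCast]
            ring
        _ ≤ (p : ℝ) ^ (0 : ℤ) * ‖T.e g‖ :=
            mul_le_mul_of_nonneg_right (zpow_le_zpow_right₀ one_lt_p.le (by have := hM.le; omega)) (norm_nonneg _)
        _ = ‖T.e g‖ := by rw [zpow_zero, one_mul]
    rw [h4]
    refine norm_sub_le_of ?_ le_rfl
    rw [norm_neg]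
    exact h3.trans h5

lemma mem_ballU {V : Set G} {N : ℕ} (h : T.Lg2 V N) {g : G} :
    g ∈ ballU h ↔ g ∈ T.e.source ∧ ‖T.e g‖ ≤ (p : ℝ) ^ (-(N : ℤ)) := Iff.rfl

lemma isOpen_ballU {V : Set G} {N : ℕ} (h : T.Lg2 V N) : IsOpen (ballU h : Set G) := by
  have h1 : (ballU h : Set G) = T.e.source ∩ T.e ⁻¹' Metric.closedBall 0 ((p : ℝ) ^ (-(N : ℤ))) := by
    ext g
    rw [Set.mem_inter_iff, Set.mem_preimage, Metric.mem_closedBall, dist_zero_right]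
    exact mem_ballU h
  rw [h1]
  refine T.e.isOpen_inter_preimage ?_
  have h2 : Metric.closedBall (0 : Fin r → ℚ_[p]) ((p : ℝ) ^ (-(N : ℤ))) =
      {x | ∀ a, x a ∈ Metric.closedBall (0 : ℚ_[p]) ((p : ℝ) ^ (-(N : ℤ)))} := by
    ext x
    rw [Metric.mem_closedBall, dist_zero_right, pi_norm_le_iff_of_nonneg (pow_pos' _).le]
    refine forall_congr' fun a => ?_
    rw [Metric.mem_closedBall, dist_zero_right]
  rw [h2, Set.ofPred_forall]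
  exact isOpen_iInter_of_finite fun a =>
    (IsUltrametricDist.isOpen_closedBall _ (ne_of_gt (pow_pos' _))).preimage (continuous_apply a)

lemma norm_scale {N : ℕ} {x : Fin r → ℚ_[p]} (hx : ‖x‖ ≤ (p : ℝ) ^ (-(N : ℤ))) :
    ‖(p : ℚ_[p]) ^ (-(N : ℤ)) • x‖ ≤ 1 := by
  rw [norm_smul, norm_zpow, Padic.norm_p, inv_zpow', neg_neg]
  calc (p : ℝ) ^ (N : ℤ) * ‖x‖ ≤ (p : ℝ) ^ (N : ℤ) * (p : ℝ) ^ (-(N : ℤ)) :=
        mul_le_mul_of_nonneg_left hx (pow_pos' _).le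
    _ = 1 := by rw [← zpow_add₀ (ne_of_gt p_pos), add_neg_cancel, zpow_zero]

lemma norm_scale' (N : ℕ) (v : Fin r → ℤ_[p]) : ‖(p : ℚ_[p]) ^ (N : ℤ) • io v‖ ≤ (p : ℝ) ^ (-(N : ℤ)) := by
  rw [norm_smul, norm_zpow, Padic.norm_p, inv_zpow']
  exact mul_le_of_le_one_right (pow_pos' _).le (io_norm_le v)

lemma pQ_ne : (p : ℚ_[p]) ≠ 0 := by exact_mod_cast hp.out.ne_zero

lemma scale_scale (N : ℕ) (x : Fin r → ℚ_[p]) : (p : ℚ_[p]) ^ (N : ℤ) • (p : ℚ_[p]) ^ (-(N : ℤ)) • x = x := by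
  rw [smul_smul, ← zpow_add₀ pQ_ne, add_neg_cancel, zpow_zero, one_smul]

lemma scale_scale' (N : ℕ) (x : Fin r → ℚ_[p]) : (p : ℚ_[p]) ^ (-(N : ℤ)) • (p : ℚ_[p]) ^ (N : ℤ) • x = x := by
  rw [smul_smul, ← zpow_add₀ pQ_ne, neg_add_cancel, zpow_zero, one_smul]

lemma continuous_io : Continuous (io : (Fin r → ℤ_[p]) → (Fin r → ℚ_[p])) :=
  continuous_pi fun a => continuous_subtype_val.comp (continuous_apply a)

/-- the ball in coordinates -/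
noncomputable def ballH {V : Set G} {N : ℕ} (h : T.Lg2 V N) : ballU h ≃ₜ (Fin r → ℤ_[p]) where
  toFun g := oi ((p : ℚ_[p]) ^ (-(N : ℤ)) • T.e g.1) (norm_scale g.2.2)
  invFun v := ⟨T.e.symm ((p : ℚ_[p]) ^ (N : ℤ) • io v), T.e.map_target (h.lg.tgt _ (norm_scale' N v)), by
    rw [T.e.right_inv (h.lg.tgt _ (norm_scale' N v))]
    exact norm_scale' N v⟩
  left_inv g := by
    apply Subtype.ext
    show T.e.symm ((p : ℚ_[p]) ^ (N : ℤ) • io (oi ((p : ℚ_[p]) ^ (-(N : ℤ)) • T.e g.1) (norm_scale g.2.2))) = g.1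
    rw [io_oi, scale_scale, T.e.left_inv g.2.1]
  right_inv v := by
    apply io_injective
    show (p : ℚ_[p]) ^ (-(N : ℤ)) • T.e (T.e.symm ((p : ℚ_[p]) ^ (N : ℤ) • io v)) = io v
    rw [T.e.right_inv (h.lg.tgt _ (norm_scale' N v)), scale_scale']
  continuous_toFun := by
    refine continuous_pi fun a => Continuous.subtype_mk ?_ _
    have h1 : Continuous fun g : ballU h => T.e g.1 :=
      T.e.continuousOn.comp_continuous continuous_subtype_val fun g => g.2.1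
    exact (continuous_apply a).comp ((continuous_const_smul _).comp h1)
  continuous_invFun := by
    refine Continuous.subtype_mk ?_ _
    exact T.e.continuousOn_symm.comp_continuous ((continuous_const_smul _).comp continuous_io) fun v =>
      h.lg.tgt _ (norm_scale' N v)

lemma io_ballH {V : Set G} {N : ℕ} (h : T.Lg2 V N) (g : ballU h) :
    io (ballH h g) = (p : ℚ_[p]) ^ (-(N : ℤ)) • T.e g.1 := rfl

lemma e_ball {V : Set G} {N : ℕ} (h : T.Lg2 V N) (g : ballU h) :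
    T.e g.1 = (p : ℚ_[p]) ^ (N : ℤ) • io (ballH h g) := by
  rw [io_ballH, scale_scale]

lemma isCompact_ballU {V : Set G} {N : ℕ} (h : T.Lg2 V N) : IsCompact (ballU h : Set G) := by
  rw [isCompact_iff_compactSpace]
  exact (ballH h).symm.compactSpace

lemma ballU_subset {V : Set G} {N : ℕ} (h : T.Lg2 V N) : (ballU h : Set G) ⊆ V := by
  intro g hg
  have h1 := h.lg.sub (T.e g) hg.2
  rwa [T.e.left_inv hg.1] at h1

variable (T)

lemma norm_Bf (x y : Fin r → ℤ_[p]) : ‖(p : ℚ_[p]) ^ T.c • T.b (io x) (io y)‖ ≤ 1 := by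
  rw [norm_smul_pow]
  have h2 := T.hb (io x) (io y)
  have h3 : (p : ℝ) ^ T.c * ‖io x‖ * ‖io y‖ ≤ (p : ℝ) ^ T.c := by
    have h4 : 0 ≤ (p : ℝ) ^ T.c := by
      have := p_pos (p := p)
      positivity
    rw [mul_assoc]
    exact mul_le_of_le_one_right h4 (mul_le_one₀ (io_norm_le x) (norm_nonneg _) (io_norm_le y))
  calc (p : ℝ) ^ (-(T.c : ℤ)) * ‖T.b (io x) (io y)‖ ≤ (p : ℝ) ^ (-(T.c : ℤ)) * (p : ℝ) ^ T.c :=
        mul_le_mul_of_nonneg_left (h2.trans h3) (pow_pos' _).le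
    _ = 1 := by rw [← zpow_natCast, ← zpow_add₀ (ne_of_gt p_pos), neg_add_cancel, zpow_zero]

/-- the bilinear part, integral version -/
noncomputable def Bf (x y : Fin r → ℤ_[p]) : Fin r → ℤ_[p] :=
  oi ((p : ℚ_[p]) ^ T.c • T.b (io x) (io y)) (T.norm_Bf x y)

lemma io_Bf (x y : Fin r → ℤ_[p]) : io (T.Bf x y) = (p : ℚ_[p]) ^ T.c • T.b (io x) (io y) := rfl

/-- the bilinear part, integral version -/
noncomputable def Bint : (Fin r → ℤ_[p]) →ₗ[ℤ_[p]] (Fin r → ℤ_[p]) →ₗ[ℤ_[p]] (Fin r → ℤ_[p]) :=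
  LinearMap.mk₂ ℤ_[p] T.Bf
    (fun x x' y => io_injective (by
      rw [io_add, io_Bf, io_Bf, io_Bf, io_add, map_add, LinearMap.add_apply, smul_add]))
    (fun a x y => io_injective (by
      rw [io_smul, io_Bf, io_Bf, io_smul, map_smul, LinearMap.smul_apply, smul_comm]))
    (fun x y y' => io_injective (by
      rw [io_add, io_Bf, io_Bf, io_Bf, io_add, map_add, smul_add]))
    (fun a x y => io_injective (by
      rw [io_smul, io_Bf, io_Bf, io_smul, map_smul, smul_comm]))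

lemma io_Bint (x y : Fin r → ℤ_[p]) : io (T.Bint x y) = (p : ℚ_[p]) ^ T.c • T.b (io x) (io y) := rfl

variable {T}

lemma law2 {V : Set G} {N : ℕ} (h : T.Lg2 V N) (hc : T.c ≤ N) (x y : ballU h) (i j : ℕ)
    (hx : Dv i (ballH h x)) (hy : Dv j (ballH h y)) :
    Dv (2 * (N - T.c) + i + j + min i j)
      (ballH h (x * y) - ballH h x - ballH h y - (p : ℤ_[p]) ^ (N - T.c) • T.Bint (ballH h x) (ballH h y)) := by
  have h1 := (h.lg.law x.2.1 x.2.2 y.2.1 y.2.2).2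
  have h2 : io (ballH h (x * y) - ballH h x - ballH h y -
      (p : ℤ_[p]) ^ (N - T.c) • T.Bint (ballH h x) (ballH h y)) =
      (p : ℚ_[p]) ^ (-(N : ℤ)) • (T.e (x.1 * y.1) - T.e x.1 - T.e y.1 - T.b (T.e x.1) (T.e y.1)) := by
    rw [io_sub, io_sub, io_sub, io_smul_pow, io_Bint, smul_sub, smul_sub, smul_sub]
    have h3 : (p : ℚ_[p]) ^ (-(N : ℤ)) • T.b (T.e x.1) (T.e y.1) =
        (p : ℚ_[p]) ^ (N - T.c) • (p : ℚ_[p]) ^ T.c • T.b (io (ballH h x)) (io (ballH h y)) := by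
      rw [e_ball h x, e_ball h y, LinearMap.map_smul₂, map_smul, scale_scale', smul_smul, ← pow_add,
        Nat.sub_add_cancel hc, zpow_natCast]
    rw [h3]
    rfl
  rw [dv_iff_norm, h2, norm_smul, norm_zpow, Padic.norm_p, inv_zpow', neg_neg]
  have hxe : ‖T.e x.1‖ ≤ (p : ℝ) ^ (-(N : ℤ) + -(i : ℤ)) := by
    rw [e_ball h x, norm_smul, norm_zpow, Padic.norm_p, inv_zpow', zpow_add₀ (ne_of_gt p_pos)]
    exact mul_le_mul_of_nonneg_left (dv_iff_norm.1 hx) (pow_pos' _).le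
  have hye : ‖T.e y.1‖ ≤ (p : ℝ) ^ (-(N : ℤ) + -(j : ℤ)) := by
    rw [e_ball h y, norm_smul, norm_zpow, Padic.norm_p, inv_zpow', zpow_add₀ (ne_of_gt p_pos)]
    exact mul_le_mul_of_nonneg_left (dv_iff_norm.1 hy) (pow_pos' _).le
  have hm : max ‖T.e x.1‖ ‖T.e y.1‖ ≤ (p : ℝ) ^ (-(N : ℤ) + -((min i j : ℕ) : ℤ)) := by
    refine max_le (hxe.trans ?_) (hye.trans ?_)
    · exact zpow_le_zpow_right₀ one_lt_p.le (by have := min_le_left i j; omega)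
    · exact zpow_le_zpow_right₀ one_lt_p.le (by have := min_le_right i j; omega)
  calc (p : ℝ) ^ (N : ℤ) * ‖T.e (x.1 * y.1) - T.e x.1 - T.e y.1 - T.b (T.e x.1) (T.e y.1)‖
      ≤ (p : ℝ) ^ (N : ℤ) * ((p : ℝ) ^ (T.c : ℤ) * (p : ℝ) ^ (-(N : ℤ) + -(i : ℤ)) *
        (p : ℝ) ^ (-(N : ℤ) + -(j : ℤ)) * (p : ℝ) ^ (-(N : ℤ) + -((min i j : ℕ) : ℤ))) := by
        refine mul_le_mul_of_nonneg_left (h1.trans ?_) (pow_pos' _).le
        rw [zpow_natCast]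
        have := p_pos (p := p)
        gcongr
    _ = (p : ℝ) ^ ((N : ℤ) + (((T.c : ℤ) + (-(N : ℤ) + -(i : ℤ))) + (-(N : ℤ) + -(j : ℤ)) +
          (-(N : ℤ) + -((min i j : ℕ) : ℤ)))) := by
        rw [← zpow_add₀ (ne_of_gt p_pos), ← zpow_add₀ (ne_of_gt p_pos), ← zpow_add₀ (ne_of_gt p_pos),
          ← zpow_add₀ (ne_of_gt p_pos)]
    _ ≤ (p : ℝ) ^ (-((2 * (N - T.c) + i + j + min i j : ℕ) : ℤ)) := by
        refine zpow_le_zpow_right₀ one_lt_p.le ?_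
        omega

/-- **Standard subgroups.** -/
theorem exists_Lw_of_chart [IsTopologicalGroup G] (T : Cht p r G) (κ₀ : ℕ) {V : Set G} (hV : V ∈ 𝓝 (1 : G)) :
    ∃ κ, κ₀ ≤ κ ∧ ∃ U : Subgroup G, IsOpen (U : Set G) ∧ IsCompact (U : Set G) ∧ (U : Set G) ⊆ V ∧
      ∃ W : Lw p r κ U, ∀ x y, io (W.B x y) = (p : ℚ_[p]) ^ T.c • T.b (io x) (io y) := by
  obtain ⟨N, hN, h⟩ := exists_Lg2 (T := T) hV (κ₀ + T.c)
  refine ⟨N - T.c, by omega, ballU h, isOpen_ballU h, isCompact_ballU h, ballU_subset h,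
    ⟨ballH h, T.Bint, ?_, ?_, ?_⟩, fun x y => io_Bint T x y⟩
  · apply io_injective
    rw [io_ballH, io_zero]
    show (p : ℚ_[p]) ^ (-(N : ℤ)) • T.e 1 = 0
    rw [T.one, smul_zero]
  · intro x y i j hx hy
    have h1 := law2 h (by omega) x y i j hx hy
    have h2 : ballH h (x * y) - ballH h x - ballH h y =
        (ballH h (x * y) - ballH h x - ballH h y - (p : ℤ_[p]) ^ (N - T.c) • T.Bint (ballH h x) (ballH h y)) +
        (p : ℤ_[p]) ^ (N - T.c) • T.Bint (ballH h x) (ballH h y) := by abel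
    rw [h2]
    refine (h1.mono (by omega)).add ?_
    rw [add_assoc, dv_pow_smul]
    obtain ⟨x', hx'⟩ := dv_iff.1 hx
    obtain ⟨y', hy'⟩ := dv_iff.1 hy
    rw [hx', hy', LinearMap.map_smul₂, map_smul, dv_pow_smul]
    exact dv_iff.2 ⟨_, rfl⟩
  · intro x y i j hx hy
    exact law2 h (by omega) x y i j hx hy

end Cht

end Pool.Agent.PG
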