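import Pool.Agent.PG.ExLw

/-!
# Standard subgroups of a `p`-adic Lie group
-/

set_option autoImplicit false

open Topology Filter Module
open scoped Manifold ContDiff

namespace Pool.Agent.PG

variable {p : ℕ} [hp : Fact p.Prime] {E : Type*} [NormedAddCommGroup E] [NormedSpace ℚ_[p] E]

lemma exists_pow_ge (C : ℝ) : ∃ c : ℕ, C ≤ (p : ℝ) ^ c :=
  (pow_unbounded_of_one_lt C one_lt_p).imp fun _ h => h.le

section chart

variable {H : Type*} [TopologicalSpace H] (I : ModelWithCorners ℚ_[p] E H) [I.Boundaryless]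
  (G : Type*) [TopologicalSpace G] [ChartedSpace H G] [Group G]

/-- the chart at `1`, as an open partial homeomorphism with values in `ℚ_[p] ^ r` -/
noncomputable def chA {r : ℕ} (A : E ≃L[ℚ_[p]] (Fin r → ℚ_[p])) : OpenPartialHomeomorph G (Fin r → ℚ_[p]) :=
  (chartAt H (1 : G)).transHomeomorph ((I.toHomeomorph.trans (Homeomorph.subRight (cen I G))).trans A.toHomeomorph)

lemma chA_apply {r : ℕ} (A : E ≃L[ℚ_[p]] (Fin r → ℚ_[p])) (g : G) :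
    chA I G A g = A (extChartAt I (1 : G) g - cen I G) := rfl

lemma chA_symm_apply {r : ℕ} (A : E ≃L[ℚ_[p]] (Fin r → ℚ_[p])) (x : Fin r → ℚ_[p]) :
    (chA I G A).symm x = (extChartAt I (1 : G)).symm (A.symm x + cen I G) := rfl

variable {I G}

/-- the chart data from `IsQuad` -/
theorem exists_Cht {r : ℕ} (A : E ≃L[ℚ_[p]] (Fin r → ℚ_[p])) {B : E →L[ℚ_[p]] E →L[ℚ_[p]] E} (hB : IsQuad I G B) :
    ∃ T : Cht p r G, T.e = chA I G A ∧ ∀ x y, T.b x y = A (B (A.symm x) (A.symm y)) := by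
  obtain ⟨C, ρ, hρ, hC⟩ := hB
  set α : ℝ := ‖(A : E →L[ℚ_[p]] (Fin r → ℚ_[p]))‖ with hα
  set a : ℝ := ‖(A.symm : (Fin r → ℚ_[p]) →L[ℚ_[p]] E)‖ with ha
  have hA : ∀ v, ‖A v‖ ≤ α * ‖v‖ := fun v => (A : E →L[ℚ_[p]] (Fin r → ℚ_[p])).le_opNorm v
  have hS : ∀ x, ‖A.symm x‖ ≤ a * ‖x‖ := fun x => (A.symm : (Fin r → ℚ_[p]) →L[ℚ_[p]] E).le_opNorm x
  have hα0 : 0 ≤ α := norm_nonneg _
  have ha0 : 0 ≤ a := norm_nonneg _
  obtain ⟨c, hc⟩ := exists_pow_ge (p := p) (α * ‖B‖ * a ^ 2 + 2 * (α * |C| * a ^ 3))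
  have hc1 : α * ‖B‖ * a ^ 2 ≤ (p : ℝ) ^ c := le_trans (by
    have : 0 ≤ 2 * (α * |C| * a ^ 3) := by positivity
    linarith) hc
  have hc2 : 2 * (α * |C| * a ^ 3) ≤ (p : ℝ) ^ c := le_trans (by
    have : 0 ≤ α * ‖B‖ * a ^ 2 := by positivity
    linarith) hc
  let b : (Fin r → ℚ_[p]) →ₗ[ℚ_[p]] (Fin r → ℚ_[p]) →ₗ[ℚ_[p]] (Fin r → ℚ_[p]) :=
    LinearMap.mk₂ ℚ_[p] (fun x y => A (B (A.symm x) (A.symm y)))
      (fun x x' y => by rw [map_add, map_add, add_apply, map_add])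
      (fun t x y => by rw [map_smul, map_smul, smul_apply, map_smul])
      (fun x y y' => by rw [map_add, map_add, map_add])
      (fun t x y => by rw [map_smul, map_smul, map_smul])
  have hρ' : 0 < ρ / (a + 1) := by positivity
  refine ⟨{ e := chA I G A, one_mem := ?_, one := ?_, b := b, c := c, hb := ?_, ρ := ρ / (a + 1), hρ := hρ',
            law := ?_ }, rfl, fun x y => rfl⟩
  · exact mem_chart_source H (1 : G)
  · rw [chA_apply]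
    show A (cen I G - cen I G) = 0
    rw [sub_self, map_zero]
  · intro x y
    show ‖A (B (A.symm x) (A.symm y))‖ ≤ _
    calc ‖A (B (A.symm x) (A.symm y))‖ ≤ α * ‖B (A.symm x) (A.symm y)‖ := hA _
      _ ≤ α * (‖B‖ * ‖A.symm x‖ * ‖A.symm y‖) := mul_le_mul_of_nonneg_left (B.le_opNorm₂ _ _) hα0
      _ ≤ α * (‖B‖ * (a * ‖x‖) * (a * ‖y‖)) := by gcongr <;> exact hS _
      _ = α * ‖B‖ * a ^ 2 * ‖x‖ * ‖y‖ := by ring
      _ ≤ (p : ℝ) ^ c * ‖x‖ * ‖y‖ := by gcongr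
  · intro x y hx hy
    have hsm : ∀ x : Fin r → ℚ_[p], ‖x‖ < ρ / (a + 1) → ‖A.symm x‖ < ρ := by
      intro x hx
      rw [lt_div_iff₀ (by positivity)] at hx
      calc ‖A.symm x‖ ≤ a * ‖x‖ := hS x
        _ ≤ ‖x‖ * (a + 1) := by nlinarith [norm_nonneg x]
        _ < ρ := hx
    have h1 := hC _ _ (hsm x hx) (hsm y hy)
    have h2 : chA I G A ((chA I G A).symm x * (chA I G A).symm y) - x - y - b x y =
        A (lawAt I G (A.symm x, A.symm y) - A.symm x - A.symm y - B (A.symm x) (A.symm y)) := by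
      rw [map_sub, map_sub, map_sub, A.apply_symm_apply, A.apply_symm_apply]
      rfl
    rw [h2]
    have h3 : ‖A.symm x‖ + ‖A.symm y‖ ≤ 2 * (a * max ‖x‖ ‖y‖) := by
      have h4 := hS x
      have h5 := hS y
      have h6 : a * ‖x‖ ≤ a * max ‖x‖ ‖y‖ := mul_le_mul_of_nonneg_left (le_max_left _ _) ha0
      have h7 : a * ‖y‖ ≤ a * max ‖x‖ ‖y‖ := mul_le_mul_of_nonneg_left (le_max_right _ _) ha0
      linarith
    have hm : 0 ≤ max ‖x‖ ‖y‖ := (norm_nonneg x).trans (le_max_left _ _)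
    calc ‖A (lawAt I G (A.symm x, A.symm y) - A.symm x - A.symm y - B (A.symm x) (A.symm y))‖
        ≤ α * ‖lawAt I G (A.symm x, A.symm y) - A.symm x - A.symm y - B (A.symm x) (A.symm y)‖ := hA _
      _ ≤ α * (C * ‖A.symm x‖ * ‖A.symm y‖ * (‖A.symm x‖ + ‖A.symm y‖)) := mul_le_mul_of_nonneg_left h1 hα0
      _ ≤ α * (|C| * ‖A.symm x‖ * ‖A.symm y‖ * (‖A.symm x‖ + ‖A.symm y‖)) := by
          gcongr
          exact le_abs_self C
      _ ≤ α * (|C| * (a * ‖x‖) * (a * ‖y‖) * (2 * (a * max ‖x‖ ‖y‖))) := by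
          gcongr <;> exact hS _
      _ = 2 * (α * |C| * a ^ 3) * ‖x‖ * ‖y‖ * max ‖x‖ ‖y‖ := by ring
      _ ≤ (p : ℝ) ^ c * ‖x‖ * ‖y‖ * max ‖x‖ ‖y‖ := by gcongr

end chart

/-- **Standard subgroups of a `p`-adic Lie group.** -/
theorem exists_Lw [FiniteDimensional ℚ_[p] E] {H : Type*} [TopologicalSpace H] (I : ModelWithCorners ℚ_[p] E H)
    [I.Boundaryless] {G : Type*} [TopologicalSpace G] [ChartedSpace H G] [Group G] [LieGroup I ω G]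
    {B : E →L[ℚ_[p]] E →L[ℚ_[p]] E} (hB : IsQuad I G B) :
    ∃ (A : E ≃L[ℚ_[p]] (Fin (finrank ℚ_[p] E) → ℚ_[p])) (c : ℕ), ∀ (κ₀ : ℕ), ∀ V ∈ 𝓝 (1 : G), ∃ κ, κ₀ ≤ κ ∧
      ∃ U : Subgroup G, IsOpen (U : Set G) ∧ IsCompact (U : Set G) ∧ (U : Set G) ⊆ V ∧
        ∃ W : Lw p (finrank ℚ_[p] E) κ U, ∀ x y, io (W.B x y) =
          (p : ℚ_[p]) ^ c • A (B (A.symm (io x)) (A.symm (io y))) := by
  have : IsTopologicalGroup G := topologicalGroup_of_lieGroup I ω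
  let A : E ≃L[ℚ_[p]] (Fin (finrank ℚ_[p] E) → ℚ_[p]) := (finBasis ℚ_[p] E).equivFun.toContinuousLinearEquiv
  obtain ⟨T, -, hT⟩ := exists_Cht A hB
  refine ⟨A, T.c, fun κ₀ V hV => ?_⟩
  obtain ⟨κ, hκ, U, h1, h2, h3, W, hW⟩ := Cht.exists_Lw_of_chart T κ₀ hV
  exact ⟨κ, hκ, U, h1, h2, h3, W, fun x y => by rw [hW, hT]⟩

end Pool.Agent.PG
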