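import Pool.Agent.PG.ExLw2

/-!
# Standard subgroups of a `p`-adic Lie group, with the relation to the chart
-/

set_option autoImplicit false

open Topology Filter Module
open scoped Manifold ContDiff

namespace Pool.Agent.PG

variable {p : ℕ} [hp : Fact p.Prime]

namespace Cht

variable {r : ℕ} {G : Type*} [Group G] [TopologicalSpace G]

/-- **Standard subgroups**, with the relation to the chart. -/
theorem exists_Lw_of_chart' [IsTopologicalGroup G] (T : Cht p r G) (κ₀ : ℕ) {V : Set G} (hV : V ∈ 𝓝 (1 : G)) :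
    ∃ κ, κ₀ ≤ κ ∧ ∃ U : Subgroup G, IsOpen (U : Set G) ∧ IsCompact (U : Set G) ∧ (U : Set G) ⊆ V ∧
      (∀ g, g ∈ U ↔ g ∈ T.e.source ∧ ‖T.e g‖ ≤ (p : ℝ) ^ (-((κ + T.c : ℕ) : ℤ))) ∧
      ∃ W : Lw p r κ U, (∀ x y, io (W.B x y) = (p : ℚ_[p]) ^ T.c • T.b (io x) (io y)) ∧
        ∀ u : U, io (W.φ u) = (p : ℚ_[p]) ^ (-((κ + T.c : ℕ) : ℤ)) • T.e u.1 := by
  obtain ⟨N, hN, h⟩ := exists_Lg2 (T := T) hV (κ₀ + T.c)
  have hNc : N - T.c + T.c = N := by omega
  refine ⟨N - T.c, by omega, ballU h, isOpen_ballU h, isCompact_ballU h, ballU_subset h, ?_,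
    ⟨ballH h, T.Bint, ?_, ?_, ?_⟩, fun x y => io_Bint T x y, ?_⟩
  · intro g
    rw [hNc]
    exact mem_ballU h
  · apply io_injective
    rw [io_ballH, io_zero]
    show (p : ℚ_[p]) ^ (-(N : ℤ)) • T.e 1 = 0
    rw [T.one, smul_zero]
  · intro x y i j hx hy
    have h1 := law2 h (by omega) x y i j hx hy
    have h2 : ballH h (x * y) - ballH h x - ballH h y =
        (ballH h (x * y) - ballH h x - ballH h y - (p : ℤ_[p]) ^ (N - T.c) • T.Bint (ballH h x) (ballH h y)) +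
        (p : ℤ_[p]) ^ (N - T.c) • T.Bint (ballH h x) (ballH h y) := by abel
    rw [h2]
    refine (h1.mono (by omega)).add ?_
    rw [add_assoc, dv_pow_smul]
    obtain ⟨x', hx'⟩ := dv_iff.1 hx
    obtain ⟨y', hy'⟩ := dv_iff.1 hy
    rw [hx', hy', LinearMap.map_smul₂, map_smul, dv_pow_smul]
    exact dv_iff.2 ⟨_, rfl⟩
  · intro x y i j hx hy
    exact law2 h (by omega) x y i j hx hy
  · intro u
    rw [hNc]
    exact io_ballH h u

end Cht

variable {E : Type*} [NormedAddCommGroup E] [NormedSpace ℚ_[p] E]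

/-- **Standard subgroups of a `p`-adic Lie group**, with the relation to the chart at `1`. -/
theorem exists_Lw' [FiniteDimensional ℚ_[p] E] {H : Type*} [TopologicalSpace H] (I : ModelWithCorners ℚ_[p] E H)
    [I.Boundaryless] {G : Type*} [TopologicalSpace G] [ChartedSpace H G] [Group G] [LieGroup I ω G]
    {B : E →L[ℚ_[p]] E →L[ℚ_[p]] E} (hB : IsQuad I G B) :
    ∃ (A : E ≃L[ℚ_[p]] (Fin (finrank ℚ_[p] E) → ℚ_[p])) (c : ℕ), ∀ (κ₀ : ℕ), ∀ V ∈ 𝓝 (1 : G), ∃ κ, κ₀ ≤ κ ∧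
      ∃ U : Subgroup G, IsOpen (U : Set G) ∧ IsCompact (U : Set G) ∧ (U : Set G) ⊆ V ∧
        (U : Set G) ⊆ (extChartAt I (1 : G)).source ∧
        ∃ W : Lw p (finrank ℚ_[p] E) κ U,
          (∀ x y, io (W.B x y) = (p : ℚ_[p]) ^ c • A (B (A.symm (io x)) (A.symm (io y)))) ∧
          ∀ u : U, io (W.φ u) = (p : ℚ_[p]) ^ (-((κ + c : ℕ) : ℤ)) •
            A (extChartAt I (1 : G) u.1 - extChartAt I (1 : G) 1) := by
  have : IsTopologicalGroup G := topologicalGroup_of_lieGroup I ω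
  let A : E ≃L[ℚ_[p]] (Fin (finrank ℚ_[p] E) → ℚ_[p]) := (finBasis ℚ_[p] E).equivFun.toContinuousLinearEquiv
  obtain ⟨T, hTe, hT⟩ := exists_Cht A hB
  refine ⟨A, T.c, fun κ₀ V hV => ?_⟩
  obtain ⟨κ, hκ, U, h1, h2, h3, h4, W, hW, hu⟩ := Cht.exists_Lw_of_chart' T κ₀ hV
  refine ⟨κ, hκ, U, h1, h2, h3, ?_, W, fun x y => by rw [hW, hT], fun u => ?_⟩
  · intro g hg
    have h5 := ((h4 g).1 hg).1
    rw [hTe] at h5
    rw [extChartAt_source]
    exact h5
  · rw [hu, hTe]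
    rfl

end Pool.Agent.PG
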