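import Pool.Agent.PG.GR1
import Pool.Agent.HSF.FinAbs
import Pool.Agent.HSF.Trans2

/-!
# The final argument for groups with an open subgroup that satisfies `Lw`
-/

set_option autoImplicit false
set_option linter.unusedVariables false

open Set Topology Metric

namespace Pool.Agent.PG

open Pool.Agent.HSF Pool.Agent.Helper3.HS

universe u

variable {p r : ℕ} [hp : Fact p.Prime]

/-- the statement of `exists_GR` for all groups with `Lw` -/
def AllGR (p r D : ℕ) [Fact p.Prime] : Prop :=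
  ∃ (j₀ : ℕ) (k : Type) (_ : CommRing k) (w : Fin (D + 1) → (Fin r → k)),
    ∀ {κ : ℕ} {G : Type u} [Group G] [TopologicalSpace G] (W : Lw p r κ G), W.Big (D + 1) →
      ∀ j, j₀ ≤ κ + j → ∀ U : Subgroup G, (∀ g, g ∈ U ↔ Dv j (W.φ g)) → Nonempty (GR U p r D k w)

section pow
variable {κ : ℕ} {G : Type*} [Group G] [TopologicalSpace G] (W : Lw p r κ G)

theorem Lw.pow_prime (hκ : 1 ≤ κ) {x : G} {i : ℕ} (hx : Dv i (W.φ x)) :
    Dv (i + 1) (W.φ (x ^ p)) := by
  have h1 := (W.pow_sub hx p).2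
  have h2 : W.φ (x ^ p) = (W.φ (x ^ p) - ((p : ℕ) : ℤ_[p]) • W.φ x) +
      ((p : ℕ) : ℤ_[p]) • W.φ x := by abel
  rw [h2]
  refine (h1.mono (by omega)).add ?_
  intro a
  rw [Pi.smul_apply, smul_eq_mul, pow_succ, mul_comm]
  exact mul_dvd_mul_left _ (hx a)

theorem Lw.pow_prime_pow (hκ : 1 ≤ κ) (x : G) (m : ℕ) : Dv m (W.φ (x ^ p ^ m)) := by
  induction m with
  | zero => exact dv_zero _
  | succ m ih =>
    rw [pow_succ, pow_mul]
    exact W.pow_prime hκ ih

end pow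

section gamma
variable {κ : ℕ} {Γ : Type u} [Group Γ] [TopologicalSpace Γ] [IsTopologicalGroup Γ]
  {U : Subgroup Γ} (hU : IsOpen (U : Set Γ)) (W : Lw p r κ U)
include hU W

theorem smallGR_of_Lw {D : ℕ} (hGR : AllGR.{u} p r D) (hB : W.Big (D + 1)) (hr : 1 ≤ r) :
    SmallGR Γ p D := by
  obtain ⟨j₀, k, i, w, hall⟩ := hGR
  intro V hV
  have hV' : U.subtype ⁻¹' V ∈ 𝓝 (1 : U) := by
    apply continuous_subtype_val.continuousAt.preimage_mem_nhds
    exact hV
  obtain ⟨l, hl⟩ := W.exists_lev_subset hV'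
  set H' : Subgroup U := W.lev (max l j₀) with hH'
  obtain ⟨E⟩ := hall W hB (max l j₀) (by omega) H' (fun g => Iff.rfl)
  have hUc : CompactSpace U := W.φ.symm.compactSpace
  have hH'c : CompactSpace H' :=
    isCompact_iff_compactSpace.1 (W.isClopen_lev _).isClosed.isCompact
  set e := H'.equivMapOfInjective U.subtype (Subtype.val_injective) with he
  have hev : ∀ x : H', ((e x : H'.map U.subtype) : Γ) = ((x : U) : Γ) := fun x => rfl
  have hec : Continuous e := by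
    rw [continuous_induced_rng]
    change Continuous fun x : H' => ((x : U) : Γ)
    exact continuous_subtype_val.comp continuous_subtype_val
  have hec' : Continuous e.symm := by
    rw [continuous_induced_rng, continuous_induced_rng]
    have h1 : (Subtype.val ∘ Subtype.val ∘ e.symm : H'.map U.subtype → Γ) = Subtype.val := by
      funext x
      have h2 := hev (e.symm x)
      rw [e.apply_symm_apply] at h2
      exact h2.symm
    rw [h1]
    exact continuous_subtype_val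
  refine ⟨H'.map U.subtype, ?_, ?_, ?_, r, k, i, w, hr, ⟨E.trans e hec hec'⟩⟩
  · rw [Subgroup.coe_map]
    exact hU.isOpenMap_subtype_val _ (W.isClopen_lev _).isOpen
  · exact (Homeomorph.mk e.toEquiv hec hec').compactSpace
  · rintro _ ⟨x, hx, rfl⟩
    exact hl (W.lev_anti (le_max_left _ _) hx)

theorem pro_of_Lw (hκ : 1 ≤ κ) : ∃ V₀ ∈ 𝓝 (1 : Γ), ∀ g ∈ V₀, ∀ V ∈ 𝓝 (1 : Γ),
    ∃ m : ℕ, g ^ p ^ m ∈ V := by
  refine ⟨U, hU.mem_nhds U.one_mem, fun g hg V hV => ?_⟩
  have hV' : U.subtype ⁻¹' V ∈ 𝓝 (1 : U) := by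
    apply continuous_subtype_val.continuousAt.preimage_mem_nhds
    exact hV
  obtain ⟨l, hl⟩ := W.exists_lev_subset hV'
  exact ⟨l, hl (W.pow_prime_pow hκ ⟨g, hg⟩ l)⟩

/-- **The global statement.** -/
theorem final_Lw {d D : ℕ} (hGR : AllGR.{u} p r D) (hB : W.Big (D + 1)) (hr : 1 ≤ r) (hκ : 1 ≤ κ)
    {X : Type*} [MetricSpace X] {G : Type*} [Group G]
    [TopologicalSpace G] [IsTopologicalGroup G] [MulAction G X] [ContinuousSMul G X]
    {R : Set X} (hRo : IsOpen R) (hRd : Dense R) (hRc : IsPreconnected R)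
    (hR : R ⊆ regPts (d + 1) X)
    (hH : ∀ x₀ ∈ R, ¬ IsMeagre {g : G | ∃ V ∈ 𝓝 x₀, ∃ b C : ℝ,
      (d + 1 : ℝ) < b * (d + 1 + D + 1) ∧ ∀ x ∈ V, ∀ y ∈ V, dist (g • x) (g • y) ≤ C * dist x y ^ b})
    (θ : Γ →* G) (hθ : Continuous θ) :
    ∃ H : Subgroup Γ, IsOpen (H : Set Γ) ∧ ∀ a ∈ H, ∀ x : X, θ a • x = x :=
  final_abs hRo hRd hRc hR (pro_of_Lw hU W hκ) (smallGR_of_Lw hU W hGR hB hr) hH θ hθ

end gamma

end Pool.Agent.PG
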