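import Pool.Agent.PG.Fin
import Pool.Agent.HSF.FinAbsC

/-!
# The final argument for groups with an open subgroup that satisfies `Lw`, improved threshold
-/

set_option autoImplicit false
set_option linter.unusedVariables false

open Set Topology Metric

namespace Pool.Agent.PG

open Pool.Agent.HSF Pool.Agent.Helper3.HS

universe u

variable {p r : ℕ} [hp : Fact p.Prime]

section gamma
variable {κ : ℕ} {Γ : Type u} [Group Γ] [TopologicalSpace Γ] [IsTopologicalGroup Γ]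
  {U : Subgroup Γ} (hU : IsOpen (U : Set Γ)) (W : Lw p r κ U)
include hU W

/-- **The global statement.** -/
theorem final_LwC {d D : ℕ} (hGR : AllGR.{u} p r D) (hB : W.Big (D + 1)) (hr : 1 ≤ r) (hκ : 1 ≤ κ)
    {X : Type*} [MetricSpace X] {G : Type*} [Group G]
    [TopologicalSpace G] [IsTopologicalGroup G] [MulAction G X] [ContinuousSMul G X]
    {R : Set X} (hRo : IsOpen R) (hRd : Dense R) (hRc : IsPreconnected R)
    (hR : R ⊆ regPts (d + 1) X)
    (hH : ∀ x₀ ∈ R, ¬ IsMeagre {g : G | ∃ V ∈ 𝓝 x₀, ∃ b C : ℝ,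
      (d : ℝ) < b * (d + 1 + D) ∧ ∀ x ∈ V, ∀ y ∈ V, dist (g • x) (g • y) ≤ C * dist x y ^ b})
    (θ : Γ →* G) (hθ : Continuous θ) :
    ∃ H : Subgroup Γ, IsOpen (H : Set Γ) ∧ ∀ a ∈ H, ∀ x : X, θ a • x = x :=
  final_absC hRo hRd hRc hR (pro_of_Lw hU W hκ) (smallGR_of_Lw hU W hGR hB hr) hH θ hθ

end gamma

end Pool.Agent.PG
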