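import Pool.Agent.PG.Lev

/-!
# The levels of a standard group are standard groups
-/

set_option autoImplicit false

open Topology Filter

namespace Pool.Agent.PG

variable {p r κ : ℕ} [hp : Fact p.Prime] {G : Type*} [Group G] [TopologicalSpace G]

section

variable (φ : G ≃ₜ (Fin r → ℤ_[p])) (j : ℕ) (U : Subgroup G) (hU : ∀ g, g ∈ U ↔ Dv j (φ g))

/-- The parametrization of the level `j`. -/
noncomputable def lvlEquiv : (Fin r → ℤ_[p]) ≃ U where
  toFun v := ⟨φ.symm ((p : ℤ_[p]) ^ j • v), (hU _).2 (by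
    rw [Homeomorph.apply_symm_apply]
    exact dv_iff.2 ⟨v, rfl⟩)⟩
  invFun g := (dv_iff.1 ((hU g.1).1 g.2)).choose
  left_inv v := by
    generalize_proofs h1 h2
    have h := (h1 ⟨_, h2 v⟩).choose_spec
    refine (pow_smul_inj (h.symm.trans ?_))
    exact φ.apply_symm_apply _
  right_inv g := by
    apply Subtype.ext
    have h := (dv_iff.1 ((hU g.1).1 g.2)).choose_spec
    change φ.symm ((p : ℤ_[p]) ^ j • (dv_iff.1 ((hU g.1).1 g.2)).choose) = g.1
    rw [← h, Homeomorph.symm_apply_apply]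

/-- The coordinates of the level `j`. -/
noncomputable def lvlHomeo : (Fin r → ℤ_[p]) ≃ₜ U := by
  have hT : T2Space G := φ.symm.t2Space
  refine Continuous.homeoOfEquivCompactToT2 (f := lvlEquiv φ j U hU) ?_
  refine Continuous.subtype_mk ?_ _
  exact φ.symm.continuous.comp (continuous_const_smul _)

theorem lvlHomeo_apply (v : Fin r → ℤ_[p]) :
    ((lvlHomeo φ j U hU v : U) : G) = φ.symm ((p : ℤ_[p]) ^ j • v) := rfl

theorem phi_lvl (g : U) : φ g = (p : ℤ_[p]) ^ j • (lvlHomeo φ j U hU).symm g := by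
  have h := lvlHomeo_apply φ j U hU ((lvlHomeo φ j U hU).symm g)
  rw [Homeomorph.apply_symm_apply] at h
  rw [h, Homeomorph.apply_symm_apply]

end

section Lw

variable (W : Lw p r κ G) (j : ℕ) (U : Subgroup G) (hU : ∀ g, g ∈ U ↔ Dv j (W.φ g))

/-- The level `j`. -/
noncomputable def Lw.lvl : Lw p r (κ + j) U where
  φ := (lvlHomeo W.φ j U hU).symm
  B := W.B
  one := by
    have h := phi_lvl W.φ j U hU 1
    rw [Subgroup.coe_one, W.one] at h
    exact (pow_smul_inj (i := j) (by rw [smul_zero]; exact h)).symm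
  mul x y i l hx hy := by
    have e1 := phi_lvl W.φ j U hU x
    have e2 := phi_lvl W.φ j U hU y
    have e3 := phi_lvl W.φ j U hU (x * y)
    have h1 := W.mul x.1 y.1 (j + i) (j + l) (by rw [e1]; exact dv_pow_smul.2 hx)
      (by rw [e2]; exact dv_pow_smul.2 hy)
    rw [← Subgroup.coe_mul, e1, e2, e3, ← smul_sub, ← smul_sub] at h1
    exact (dv_pow_smul (i := j)).1 (h1.mono (by omega))
  mul2 x y i l hx hy := by
    have e1 := phi_lvl W.φ j U hU x
    have e2 := phi_lvl W.φ j U hU y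
    have e3 := phi_lvl W.φ j U hU (x * y)
    have h1 := W.mul2 x.1 y.1 (j + i) (j + l) (by rw [e1]; exact dv_pow_smul.2 hx)
      (by rw [e2]; exact dv_pow_smul.2 hy)
    rw [← Subgroup.coe_mul, e1, e2, e3, ← smul_sub, ← smul_sub, map_smul, map_smul,
      LinearMap.smul_apply, smul_smul, smul_smul] at h1
    have h2 : (p : ℤ_[p]) ^ κ * ((p : ℤ_[p]) ^ j * (p : ℤ_[p]) ^ j) =
        (p : ℤ_[p]) ^ j * (p : ℤ_[p]) ^ (κ + j) := by
      rw [pow_add]
      ring
    rw [mul_assoc] at h1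
    rw [h2, mul_smul, ← smul_sub] at h1
    exact (dv_pow_smul (i := j)).1 (h1.mono (by omega))

include hU in
/-- The levels of `Lw`. -/
theorem Lw.exists_level : ∃ W' : Lw p r (κ + j) U,
    W'.B = W.B ∧ ∀ g : U, W.φ g = (p : ℤ_[p]) ^ j • W'.φ g :=
  ⟨W.lvl j U hU, rfl, phi_lvl W.φ j U hU⟩

end Lw

section

variable (W : Std p r κ G) (j : ℕ) (U : Subgroup G) (hU : ∀ g, g ∈ U ↔ Dv j (W.φ g))

/-- The product of the scaled variables. -/
theorem prod_scale (c : ℤ_[p]) (x y : Fin r → ℤ_[p]) (s : (Fin r ⊕ Fin r) →₀ ℕ) :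
    (s.prod fun v n => (Sum.elim (c • x) (c • y) v) ^ n) =
      c ^ s.degree * s.prod fun v n => (Sum.elim x y v) ^ n := by
  rw [Finsupp.degree_apply, Finsupp.prod, Finsupp.prod, ← Finset.prod_pow_eq_pow_sum,
    ← Finset.prod_mul_distrib]
  refine Finset.prod_congr rfl fun v _ => ?_
  rcases v with v | v
  · simp [mul_pow]
  · simp [mul_pow]

theorem mulLeft_closedEmbedding {c : ℤ_[p]} (hc : c ≠ 0) :
    IsClosedEmbedding (AddMonoidHom.mulLeft c) := by
  refine Continuous.isClosedEmbedding ?_ ?_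
  · exact continuous_const.mul continuous_id
  · intro x y h
    exact mul_left_cancel₀ hc h

/-- The level `j` as a standard group. -/
noncomputable def Std.lvl : Std p r (κ + j) U where
  φ := (lvlHomeo W.φ j U hU).symm
  one := by
    have h := phi_lvl W.φ j U hU 1
    rw [Subgroup.coe_one, W.one] at h
    exact (pow_smul_inj (i := j) (by rw [smul_zero]; exact h)).symm
  coef i s := (p : ℤ_[p]) ^ (j * (s.degree - 1)) * W.coef i s
  coef_zero i := by rw [W.coef_zero, mul_zero]
  coef_inl i l := by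
    rw [W.coef_inl, Finsupp.degree_single, Nat.sub_self, mul_zero, pow_zero, one_mul]
  coef_inr i l := by
    rw [W.coef_inr, Finsupp.degree_single, Nat.sub_self, mul_zero, pow_zero, one_mul]
  coef_left i s h1 h2 := by rw [W.coef_left i s h1 h2, mul_zero]
  coef_right i s h1 h2 := by rw [W.coef_right i s h1 h2, mul_zero]
  coef_dvd i s := by
    rw [add_mul, pow_add, mul_comm]
    exact mul_dvd_mul_left _ (W.coef_dvd i s)
  law x y i := by
    have h1 := W.law x.1 y.1 i
    have hx := phi_lvl W.φ j U hU x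
    have hy := phi_lvl W.φ j U hU y
    have hxy := congrFun (phi_lvl W.φ j U hU (x * y)) i
    rw [Subgroup.coe_mul] at hxy
    rw [hx, hy, hxy] at h1
    have hc : (p : ℤ_[p]) ^ j ≠ 0 := pow_ne_zero _ p_ne
    rw [← (mulLeft_closedEmbedding hc).isInducing.hasSum_iff]
    refine HasSum.congr_fun h1 fun s => ?_
    rw [prod_scale, Function.comp_apply, AddMonoidHom.coe_mulLeft]
    rcases Nat.eq_zero_or_pos s.degree with h0 | h0
    · have hs : s = 0 := (Finsupp.degree_eq_zero_iff s).1 h0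
      rw [hs, W.coef_zero]
      ring
    · obtain ⟨d, hd⟩ : ∃ d, s.degree = d + 1 := ⟨s.degree - 1, by omega⟩
      rw [hd, Nat.add_sub_cancel, ← pow_mul, mul_add, pow_add, mul_one]
      ring

theorem Std.lvl_br (x y : Fin r → ℚ_[p]) :
    (W.lvl j U hU).br x y = (p : ℚ_[p]) ^ j • W.br x y := by
  funext i
  rw [Pi.smul_apply, smul_eq_mul, Std.br, Std.br, Finset.mul_sum]
  refine Finset.sum_congr rfl fun a _ => ?_
  rw [Finset.mul_sum]
  refine Finset.sum_congr rfl fun b _ => ?_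
  have h1 : ((W.lvl j U hU).coef i (Finsupp.single (Sum.inl a) 1 + Finsupp.single (Sum.inr b) 1)) =
      (p : ℤ_[p]) ^ j * W.coef i (Finsupp.single (Sum.inl a) 1 + Finsupp.single (Sum.inr b) 1) := by
    change (p : ℤ_[p]) ^ (j * (Finsupp.degree (Finsupp.single (Sum.inl a) 1 +
      Finsupp.single (Sum.inr b) 1) - 1)) * _ = _
    rw [map_add, Finsupp.degree_single, Finsupp.degree_single, Nat.add_sub_cancel, mul_one]
  rw [h1]
  push_cast
  ring

theorem Std.lvl_big {m : ℕ} (h : W.Big m) : (W.lvl j U hU).Big m := by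
  intro S hS hT
  refine h S (fun x hx y hy => ?_) hT
  have h1 := hS x hx y hy
  rw [W.lvl_br] at h1
  have hp0 : (p : ℚ_[p]) ^ j ≠ 0 := pow_ne_zero _ (by exact_mod_cast hp.out.ne_zero)
  exact (Submodule.smul_mem_iff _ hp0).1 h1

include hU in
/-- The levels of a standard group are standard groups. -/
theorem Std.exists_level : ∃ W' : Std p r (κ + j) U,
    (∀ g : U, W.φ g = (p : ℤ_[p]) ^ j • W'.φ g) ∧ ∀ m, W.Big m → W'.Big m :=
  ⟨W.lvl j U hU, phi_lvl W.φ j U hU, fun _ => W.lvl_big j U hU⟩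

end

end Pool.Agent.PG
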