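import Pool.Agent.PG.Defs

/-!
# Subalgebras over `ℤ_p` and over `ℚ_p`
-/

set_option autoImplicit false

namespace Pool.Agent.PG

variable {p r κ : ℕ} [hp : Fact p.Prime]

/-- the inclusion of `ℤ_p ^ r` in `ℚ_p ^ r` -/
noncomputable def inc (p r : ℕ) [Fact p.Prime] : (Fin r → ℤ_[p]) →ₗ[ℤ_[p]] (Fin r → ℚ_[p]) :=
  (Algebra.linearMap ℤ_[p] ℚ_[p]).compLeft (Fin r)

theorem inc_apply (x : Fin r → ℤ_[p]) (i : Fin r) : inc p r x i = (x i : ℚ_[p]) := rfl

theorem inc_injective : Function.Injective (inc p r) := by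
  intro x y h
  funext i
  exact Subtype.ext (congrFun h i)

/-- the rank of a submodule of `ℤ_p ^ r` is at most the dimension of its span -/
theorem finrank_le_span (S : Submodule ℤ_[p] (Fin r → ℤ_[p])) :
    Module.finrank ℤ_[p] S ≤
      Module.finrank ℚ_[p] (Submodule.span ℚ_[p] (inc p r '' (S : Set (Fin r → ℤ_[p])))) := by
  obtain ⟨b⟩ : Nonempty (Module.Basis (Fin (Module.finrank ℤ_[p] S)) ℤ_[p] S) :=
    ⟨Module.finBasis ℤ_[p] S⟩
  have h1 : LinearIndependent ℤ_[p] (fun i => inc p r (b i : Fin r → ℤ_[p])) := by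
    have h2 := b.linearIndependent.map' ((inc p r).comp S.subtype) (by
      rw [LinearMap.ker_eq_bot]
      exact inc_injective.comp Subtype.val_injective)
    exact h2
  have h2 : LinearIndependent ℚ_[p] (fun i => inc p r (b i : Fin r → ℤ_[p])) :=
    (LinearIndependent.iff_fractionRing ℤ_[p] ℚ_[p]).1 h1
  have h3 : LinearIndependent ℚ_[p] (fun i => (⟨inc p r (b i : Fin r → ℤ_[p]),
      Submodule.subset_span ⟨_, (b i).2, rfl⟩⟩ :
        Submodule.span ℚ_[p] (inc p r '' (S : Set (Fin r → ℤ_[p]))))) :=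
    LinearIndependent.of_comp (Submodule.subtype _) h2
  simpa using h3.fintype_card_le_finrank

theorem exists_int (a : ℚ_[p]) : ∃ (k : ℕ) (z : ℤ_[p]), (p : ℚ_[p]) ^ k * a = z := by
  have hp1 : (1 : ℝ) < p := by exact_mod_cast hp.out.one_lt
  obtain ⟨k, hk⟩ := pow_unbounded_of_one_lt ‖a‖ hp1
  refine ⟨k, ⟨(p : ℚ_[p]) ^ k * a, ?_⟩, rfl⟩
  rw [norm_mul, norm_pow, Padic.norm_p, inv_pow]
  have h0 : (0 : ℝ) < (p : ℝ) ^ k := by positivity
  rw [inv_mul_le_iff₀ h0, mul_one]
  exact hk.le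

/-- elements of the span have multiples in the submodule -/
theorem exists_pow_smul_mem {S : Submodule ℤ_[p] (Fin r → ℤ_[p])} {v : Fin r → ℚ_[p]}
    (hv : v ∈ Submodule.span ℚ_[p] (inc p r '' (S : Set (Fin r → ℤ_[p])))) :
    ∃ (n : ℕ) (s : Fin r → ℤ_[p]), s ∈ S ∧ (p : ℚ_[p]) ^ n • v = inc p r s := by
  induction hv using Submodule.span_induction with
  | mem v hv =>
    obtain ⟨s, hs, rfl⟩ := hv
    exact ⟨0, s, hs, by rw [pow_zero, one_smul]⟩
  | zero => exact ⟨0, 0, S.zero_mem, by rw [smul_zero, map_zero]⟩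
  | add v w _ _ ihv ihw =>
    obtain ⟨n, s, hs, hs'⟩ := ihv
    obtain ⟨m, t, ht, ht'⟩ := ihw
    refine ⟨n + m, (p : ℤ_[p]) ^ m • s + (p : ℤ_[p]) ^ n • t,
      S.add_mem (S.smul_mem _ hs) (S.smul_mem _ ht), ?_⟩
    rw [map_add, map_smul, map_smul, ← hs', ← ht', smul_add]
    congr 1
    · rw [pow_add, mul_comm, mul_smul]
      funext i
      simp [Algebra.smul_def]
    · rw [pow_add, mul_smul]
      funext i
      simp [Algebra.smul_def]
  | smul a v _ ih =>
    obtain ⟨n, s, hs, hs'⟩ := ih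
    obtain ⟨k, z, hz⟩ := exists_int (p := p) a
    refine ⟨k + n, z • s, S.smul_mem _ hs, ?_⟩
    rw [map_smul, ← hs']
    funext i
    have h1 : (z • (p : ℚ_[p]) ^ n • v) i = (z : ℚ_[p]) * ((p : ℚ_[p]) ^ n * v i) := rfl
    have h2 : ((p : ℚ_[p]) ^ (k + n) • a • v) i = (p : ℚ_[p]) ^ (k + n) * (a * v i) := rfl
    rw [h1, h2, ← hz, pow_add]
    ring

variable {G : Type*} [Group G] [TopologicalSpace G]

/-- The condition on the subalgebras over `ℤ_p` follows from the one over `ℚ_p`. -/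
theorem Lw.big_of_lie (W : Lw p r κ G) {L : Type*} [LieRing L] [LieAlgebra ℚ_[p] L]
    (A : L ≃ₗ[ℚ_[p]] (Fin r → ℚ_[p])) (c : ℕ)
    (hB : ∀ x y, inc p r (W.B x y - W.B y x) =
      (p : ℚ_[p]) ^ c • A ⁅A.symm (inc p r x), A.symm (inc p r y)⁆) {m : ℕ}
    (hL : ∀ S : LieSubalgebra ℚ_[p] L, S ≠ ⊤ → Module.finrank ℚ_[p] S + m ≤ r) : W.Big m := by
  intro S hS hpure hT
  have hp0 : (p : ℚ_[p]) ≠ 0 := by exact_mod_cast hp.out.ne_zero
  have key : ∀ x ∈ Submodule.span ℚ_[p] (inc p r '' (S : Set (Fin r → ℤ_[p]))),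
      ∀ y ∈ Submodule.span ℚ_[p] (inc p r '' (S : Set (Fin r → ℤ_[p]))),
      A ⁅A.symm x, A.symm y⁆ ∈ Submodule.span ℚ_[p] (inc p r '' (S : Set (Fin r → ℤ_[p]))) := by
    intro x hx y hy
    induction hx using Submodule.span_induction with
    | mem x hx =>
      induction hy using Submodule.span_induction with
      | mem y hy =>
        obtain ⟨s, hs, rfl⟩ := hx
        obtain ⟨t, ht, rfl⟩ := hy
        have h1 : (p : ℚ_[p]) ^ c • A ⁅A.symm (inc p r s), A.symm (inc p r t)⁆ ∈
            Submodule.span ℚ_[p] (inc p r '' (S : Set (Fin r → ℤ_[p]))) := by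
          rw [← hB]
          exact Submodule.subset_span ⟨_, hS s hs t ht, rfl⟩
        exact (Submodule.smul_mem_iff _ (pow_ne_zero _ hp0)).1 h1
      | zero => simp
      | add y z _ _ ih1 ih2 =>
        rw [map_add, lie_add, map_add]
        exact Submodule.add_mem _ ih1 ih2
      | smul a y _ ih =>
        rw [map_smul, lie_smul, map_smul]
        exact Submodule.smul_mem _ _ ih
    | zero => simp
    | add x z _ _ ih1 ih2 =>
      rw [map_add, add_lie, map_add]
      exact Submodule.add_mem _ ih1 ih2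
    | smul a x _ ih =>
      rw [map_smul, smul_lie, map_smul]
      exact Submodule.smul_mem _ _ ih
  let T : LieSubalgebra ℚ_[p] L :=
    { (Submodule.span ℚ_[p] (inc p r '' (S : Set (Fin r → ℤ_[p])))).comap A.toLinearMap with
      lie_mem' := by
        intro x y hx hy
        have := key (A x) hx (A y) hy
        rw [A.symm_apply_apply, A.symm_apply_apply] at this
        exact this }
  have hT1 : Module.finrank ℚ_[p] T = Module.finrank ℚ_[p]
      (Submodule.span ℚ_[p] (inc p r '' (S : Set (Fin r → ℤ_[p])))) := by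
    have e : (Submodule.span ℚ_[p] (inc p r '' (S : Set (Fin r → ℤ_[p])))).comap A.toLinearMap =
        (Submodule.span ℚ_[p] (inc p r '' (S : Set (Fin r → ℤ_[p])))).map A.symm.toLinearMap := by
      ext x
      constructor
      · intro hx
        exact ⟨A x, hx, A.symm_apply_apply x⟩
      · rintro ⟨y, hy, rfl⟩
        have h1 : A (A.symm y) ∈ Submodule.span ℚ_[p] (inc p r '' (S : Set (Fin r → ℤ_[p]))) := by
          rw [A.apply_symm_apply]
          exact hy
        exact h1
    change Module.finrank ℚ_[p] ((Submodule.span ℚ_[p]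
      (inc p r '' (S : Set (Fin r → ℤ_[p])))).comap A.toLinearMap) = _
    rw [e]
    exact LinearEquiv.finrank_map_eq A.symm _
  have hT2 : T ≠ ⊤ := by
    intro h
    apply hT
    rw [eq_top_iff]
    intro x _
    have h1 : A.symm (inc p r x) ∈ T := by
      rw [h]
      exact LieSubalgebra.mem_top _
    have h2 : A (A.symm (inc p r x)) ∈ Submodule.span ℚ_[p]
      (inc p r '' (S : Set (Fin r → ℤ_[p]))) := h1
    rw [A.apply_symm_apply] at h2
    obtain ⟨n, s, hs, hs'⟩ := exists_pow_smul_mem h2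
    have h3 : (p : ℤ_[p]) ^ n • x ∈ S := by
      have : inc p r ((p : ℤ_[p]) ^ n • x) = inc p r s := by
        rw [← hs', map_smul]
        funext i
        simp [Algebra.smul_def]
      rw [inc_injective this]
      exact hs
    clear hs hs' h2 h1
    induction n with
    | zero => simpa using h3
    | succ n ih =>
      apply ih
      apply hpure
      rw [smul_smul, ← pow_succ']
      exact h3
  have h1 := hL T hT2
  rw [hT1] at h1
  exact (Nat.add_le_add_right (finrank_le_span S) m).trans h1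

end Pool.Agent.PG
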