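import Mathlib
import Pool.Agent.Helper34.PA.LwSide

/-!
# Nonvanishing of the top class for standard `p`-adic analytic groups
-/

set_option autoImplicit false
set_option linter.unusedSectionVars false

namespace Pool.Agent.PG

open Pool.Agent.Helper34.PA Pool.Agent.Helper34.TF

variable {p r κ : ℕ} [hp : Fact p.Prime] {G : Type*} [Group G] [TopologicalSpace G] (W : Lw p r κ G)

section lists
variable {F : Type*} [AddCommGroup F] {V V' : Type*}

lemma pp_hom [Group V] [Group V'] (ψ : V →* V') (a : V) (l : List V) :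
    (pp (· * ·) a l).map ψ = pp (· * ·) (ψ a) (l.map ψ) := by
  induction l generalizing a with
  | nil => rfl
  | cons x l ih => rw [pp_cons, List.map_cons, List.map_cons, pp_cons, ih, map_mul]

lemma forall₂_pp_mul [Group V] (R : V → V → Prop)
    (hR : ∀ u v u' v', R u v → R u' v' → R (u * u') (v * v')) {m m' : List V}
    (h : List.Forall₂ R m m') {a a' : V} (ha : R a a') :
    List.Forall₂ R (pp (· * ·) a m) (pp (· * ·) a' m') := by
  induction h generalizing a a' with
  | nil => exact List.Forall₂.nil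
  | cons h _ ih =>
    rw [pp_cons, pp_cons]
    exact List.Forall₂.cons (hR _ _ _ _ ha h) (ih (hR _ _ _ _ ha h))

end lists

variable {W}

lemma pow_level_all (hκ : 1 ≤ κ) (l : ℕ) (x : G) : x ^ p ^ l ∈ W.lev l :=
  (pow_level (W := W) hκ rfl l).1

lemma isPGroup_quot (hκ : 1 ≤ κ) (l : ℕ) [(W.lev l).Normal] : IsPGroup p (G ⧸ W.lev l) := by
  intro a
  induction a using QuotientGroup.induction_on with
  | H x =>
    refine ⟨l, ?_⟩
    rw [← QuotientGroup.mk_pow, QuotientGroup.eq_one_iff]
    exact pow_level_all hκ l x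

lemma mk_eq_iff {l : ℕ} (hκ : 1 ≤ κ) [(W.lev l).Normal] {x y : G} :
    (QuotientGroup.mk' (W.lev l) x = QuotientGroup.mk' (W.lev l) y) ↔ Dv l (W.φ x - W.φ y) := by
  rw [QuotientGroup.mk'_apply, QuotientGroup.mk'_apply, QuotientGroup.eq]
  constructor
  · intro h
    exact dv_comm.1 (W.dv_of_left h)
  · intro h
    exact W.dv_left hκ (dv_comm.1 h)

lemma finite_quot (hκ : 2 ≤ κ) (l : ℕ) [(W.lev l).Normal] : Finite (G ⧸ W.lev l) := by
  have h1 : Function.Surjective (fun x : Fin r → Fin (p ^ l) =>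
      QuotientGroup.mk' (W.lev l) (psi (gg W) (Finsupp.equivFunOnFinite.symm fun i => (x i : ℕ)))) := by
    intro a
    obtain ⟨h, rfl⟩ := QuotientGroup.mk'_surjective _ a
    obtain ⟨x, hx⟩ := psi_surj (W := W) hκ l h
    refine ⟨fun i => ⟨x i % p ^ l, Nat.mod_lt _ (pow_pos hp.out.pos l)⟩, ?_⟩
    simp only
    rw [mk_eq_iff (by omega)]
    have h2 := psi_cong (W := W) hκ l (Finsupp.equivFunOnFinite.symm fun i => x i % p ^ l) x
      (fun i => Nat.mod_modEq _ _)
    have h3 := h2.add hx
    rwa [sub_add_sub_cancel] at h3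
  exact Finite.of_surjective _ h1

/-- **Nonvanishing of the top class**, on the level of cochains. -/
theorem Lw.nv (W : Lw p r κ G) {k : Type*} [CommRing k] {s : ℕ} (hk : (p : k) ^ s = 0)
    (hκ : s + 1 ≤ κ) (hr : 1 ≤ r) (ρ : ℤ_[p] →+* k) (c : List G → k) (lam : k) (M : ℕ)
    (hper : ∀ l l', List.Forall₂ (fun g h => Dv M (W.φ g - W.φ h)) l l' → c l = c l')
    (hinv : ∀ g l, l.length = r → c (l.map (g * ·)) = c l)
    (hd : ∀ l, l.length = r + 1 → HSF.dl c l = lam * HSF.vol r (l.map fun g i => ρ (W.φ g i))) :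
    (r.factorial : k) * lam = 0 := by
  classical
  rcases Nat.eq_zero_or_pos s with hs | hs
  · subst hs
    rw [pow_zero] at hk
    have h1 : (r.factorial : k) * lam = (r.factorial : k) * lam * 1 := by rw [mul_one]
    rw [h1, hk, mul_zero]
  have hκ2 : 2 ≤ κ := by omega
  have hκ1 : 1 ≤ κ := by omega
  set n₀ : ℕ := r + (r - 1) * (r * (p ^ M * s)) with hn₀
  set L : ℕ := max M (max (s * (n₀ + 1)) κ) with hL
  have hLM : M ≤ L := le_max_left _ _
  have hLn : s * (n₀ + 1) ≤ L := (le_max_left _ _).trans (le_max_right _ _)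
  have hLκ : κ ≤ L := (le_max_right _ _).trans (le_max_right _ _)
  have hnorm : (W.lev L).Normal := W.lev_normal hκ1 L
  have hfin : Finite (G ⧸ W.lev L) := finite_quot hκ2 L
  set π : G →* G ⧸ W.lev L := QuotientGroup.mk' (W.lev L) with hπ
  have hπsurj : Function.Surjective π := QuotientGroup.mk'_surjective _
  have hπeq : ∀ x y : G, π x = π y ↔ Dv L (W.φ x - W.φ y) := fun x y => mk_eq_iff hκ1
  -- `q`
  have hq1 : ((p ^ κ : ℕ) : k) = 0 := by
    push_cast
    obtain ⟨t, ht⟩ := Nat.exists_eq_add_of_le (show s ≤ κ by omega)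
    rw [ht, pow_add, hk, zero_mul]
  have hq2 : (((p ^ κ).choose 2 : ℕ) : k) = 0 := by
    have hdvd : p ^ s ∣ (p ^ κ).choose 2 := by
      have h3 : p ^ κ * (p ^ κ - 1) = (p ^ κ).choose 2 * 2 := by
        have h4 := Nat.add_one_mul_choose_eq (p ^ κ - 1) 1
        rw [Nat.sub_add_cancel (Nat.pos_of_ne_zero (pow_ne_zero κ hp.out.ne_zero)),
          Nat.choose_one_right] at h4
        exact h4
      rcases hp.out.eq_two_or_odd' with h | h
      · subst h
        have h4 : 2 ^ s * 2 ∣ (2 ^ κ).choose 2 * 2 := by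
          rw [← pow_succ, ← h3]
          exact Dvd.dvd.mul_right (pow_dvd_pow 2 hκ) _
        exact Nat.dvd_of_mul_dvd_mul_right (by norm_num) h4
      · have h4 : p ^ s ∣ (p ^ κ).choose 2 * 2 := by
          rw [← h3]
          exact Dvd.dvd.mul_right (pow_dvd_pow p (by omega)) _
        exact Nat.Coprime.dvd_of_dvd_mul_right
          (Nat.Coprime.pow_left s (Nat.coprime_two_right.mpr h)) h4
    obtain ⟨t, ht⟩ := hdvd
    rw [ht]
    push_cast
    rw [hk, zero_mul]
  -- the sections
  set σ : G ⧸ W.lev L → G := Function.surjInv hπsurj with hσ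
  have hσπ : ∀ a, π (σ a) = a := Function.surjInv_eq hπsurj
  have hσ2 : ∀ x, Dv L (W.φ (σ (π x)) - W.φ x) := fun x => (hπeq _ _).1 (hσπ _)
  -- the character
  have hρ : ∀ x y : G, Dv L (W.φ x - W.φ y) → ∀ i, ρ (W.φ x i) = ρ (W.φ y i) := by
    intro x y h i
    obtain ⟨z, hz⟩ := (h.mono hLκ) i
    rw [← sub_eq_zero, ← map_sub]
    rw [Pi.sub_apply] at hz
    rw [hz, map_mul, map_pow, map_natCast]
    rw [← Nat.cast_pow, hq1, zero_mul]
  set χ : G ⧸ W.lev L → Fin r → k := fun a i => ρ (W.φ (σ a) i) with hχ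
  have hχπ : ∀ x, χ (π x) = fun i => ρ (W.φ x i) := fun x => funext fun i => hρ _ _ (hσ2 x) i
  have hχadd : ∀ a b, χ (a * b) = χ a + χ b := by
    intro a b
    obtain ⟨x, rfl⟩ := hπsurj a
    obtain ⟨y, rfl⟩ := hπsurj b
    rw [← map_mul, hχπ, hχπ, hχπ]
    funext i
    rw [Pi.add_apply, ← sub_eq_zero]
    obtain ⟨z, hz⟩ := (W.mul x y 0 0 (dv_zero _) (dv_zero _)) i
    rw [← map_add, ← map_sub]
    have h1 : W.φ (x * y) i - (W.φ x i + W.φ y i) = (p : ℤ_[p]) ^ (κ + 0 + 0) * z := by
      rw [← hz]; simp only [Pi.sub_apply]; ring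
    rw [h1, map_mul, map_pow, map_natCast, add_zero, add_zero, ← Nat.cast_pow, hq1, zero_mul]
  have hχg : ∀ i j, χ (π (gg W i)) j = if i = j then 1 else 0 := by
    intro i j
    rw [hχπ]
    simp only
    rw [phi_gg, Pi.single_apply]
    by_cases h : i = j
    · rw [if_pos h, if_pos h.symm, map_one]
    · rw [if_neg h, if_neg (fun h' => h h'.symm), map_zero]
  -- the cochain
  set c' : List (G ⧸ W.lev L) → k := fun l => c (l.map σ) with hc'
  have hcc : ∀ l : List G, c' (l.map π) = c l := by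
    intro l
    show c ((l.map π).map σ) = c l
    apply hper
    rw [List.map_map, List.forall₂_map_left_iff]
    exact List.forall₂_same.2 fun x _ => (hσ2 x).mono hLM
  have hlift : ∀ l : List (G ⧸ W.lev L), ∃ l' : List G, l = l'.map π := by
    intro l
    refine ⟨l.map σ, ?_⟩
    rw [List.map_map]
    have : π ∘ σ = id := funext hσπ
    rw [this, List.map_id]
  have hdl : ∀ (F : List (G ⧸ W.lev L) → k) (l : List G),
      dl (fun m : List G => F (m.map π)) l = dl F (l.map π) := by
    intro F l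
    induction l generalizing F with
    | nil => rfl
    | cons a l ih =>
      rw [dl_cons, List.map_cons, dl_cons]
      congr 1
      exact ih (fun m => F (π a :: m))
  have hpsi : ∀ x, psi (fun i => π (gg W i)) x = π (psi (gg W) x) := fun x => (map_psi π (gg W) x).symm
  refine nv_chart (p := p) (s := s) (q := p ^ κ) (t := M) (n₀ := n₀) hk hq1 hq2 hr
    (isPGroup_quot (W := W) hκ1 L) (fun i => π (gg W i)) ?_ ?_ ?_ χ hχadd hχg c' lam ?_ ?_ ?_ le_rfl
  · intro a
    obtain ⟨x, hx⟩ := psi_surj (W := W) hκ2 L (σ a)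
    refine ⟨x, ?_⟩
    rw [hpsi, (hπeq _ _).2 hx, hσπ]
  · intro i j
    obtain ⟨y, hy⟩ := comm_psi (W := W) hκ2 L hLκ i j
    refine ⟨y, ?_⟩
    have h1 := (hπeq _ _).2 hy
    rw [map_mul, map_mul, map_mul, map_psi] at h1
    rw [h1]
    congr 2
  · intro x y hxy i
    rw [hpsi, hpsi, hπeq] at hxy
    exact (psi_inj (W := W) hκ2 L x y hxy i).of_dvd (pow_dvd_pow p hLn)
  · intro a l hl
    obtain ⟨g, rfl⟩ := hπsurj a
    obtain ⟨l', rfl⟩ := hlift l
    have h1 : (l'.map π).map (π g * ·) = (l'.map (g * ·)).map π := by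
      rw [List.map_map, List.map_map]
      apply List.map_congr_left
      intro x _
      simp only [Function.comp, map_mul]
    rw [h1, hcc, hcc]
    exact hinv g l' (by simpa using hl)
  · intro l hl
    obtain ⟨l', rfl⟩ := hlift l
    rw [dl_eq_dl, ← hdl c' l']
    have h1 : (fun m : List G => c' (m.map π)) = c := funext hcc
    rw [h1, ← dl_eq_dl, hd l' (by simpa using hl), List.map_map]
    have h2 : χ ∘ π = fun g i => ρ (W.φ g i) := funext hχπ
    rw [h2]
  · intro pre x i l
    have h1 : ∀ m : List (Fin r →₀ ℕ),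
        c' (1 :: pp (· * ·) 1 (m.map (psi fun i => π (gg W i)))) =
        c (1 :: pp (· * ·) 1 (m.map (psi (gg W)))) := by
      intro m
      rw [← hcc, List.map_cons, map_one, pp_hom, map_one, List.map_map]
      congr 3
      apply List.map_congr_left
      intro x _
      exact hpsi x
    simp only
    rw [h1, h1]
    apply hper
    refine List.Forall₂.cons (by rw [sub_self]; exact Dv.zero' _) ?_
    refine forall₂_pp_mul (fun u v => Dv M (W.φ u - W.φ v)) (fun u v u' v' h h' => cong_mul hκ1 h h')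
      ?_ (by rw [sub_self]; exact Dv.zero' _)
    rw [List.forall₂_map_left_iff, List.forall₂_map_right_iff]
    refine List.rel_append ?_ (List.Forall₂.cons ?_ ?_)
    · exact List.forall₂_same.2 fun x _ => by rw [sub_self]; exact Dv.zero' _
    · apply psi_cong hκ2
      intro j
      rw [Finsupp.add_apply, Finsupp.single_apply]
      split_ifs
      · exact Nat.add_modEq_right
      · rw [add_zero]
    · exact List.forall₂_same.2 fun x _ => by rw [sub_self]; exact Dv.zero' _

end Pool.Agent.PG
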