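import Pool.Agent.PG.Lie

/-!
# Limits of closed subgroups, and large closed subgroups
-/

set_option autoImplicit false

open Topology Filter

namespace Pool.Agent.PG

variable {p r κ : ℕ} [hp : Fact p.Prime] {G : Type*} [Group G] [TopologicalSpace G] (W : Lw p r κ G)

namespace Lw

/-- the limit of a sequence of subgroups along an ultrafilter -/
def lim (hκ : 1 ≤ κ) (U : Ultrafilter ℕ) (Hs : ℕ → Subgroup G) : Subgroup G where
  carrier := {g | ∀ l, ∀ᶠ J in (U : Filter ℕ), ∃ h ∈ Hs J, Dv l (W.φ g - W.φ h)}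
  one_mem' := fun l => Eventually.of_forall fun J => ⟨1, one_mem _, by rw [sub_self]; exact Dv.zero' _⟩
  mul_mem' := by
    intro g g' hg hg' l
    filter_upwards [hg l, hg' l] with J h1 h2
    obtain ⟨h, hh, hd⟩ := h1
    obtain ⟨h', hh', hd'⟩ := h2
    refine ⟨h * h', mul_mem hh hh', W.dv_of_left ?_⟩
    have h3 : h⁻¹ * g ∈ W.lev l := W.dv_left hκ hd
    have h4 : h'⁻¹ * g' ∈ W.lev l := W.dv_left hκ hd'
    have h5 := (W.lev_normal hκ l).conj_mem _ h3 h'⁻¹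
    have h6 : (h * h')⁻¹ * (g * g') = h'⁻¹ * (h⁻¹ * g) * h'⁻¹⁻¹ * (h'⁻¹ * g') := by group
    have h7 : (h * h')⁻¹ * (g * g') ∈ W.lev l := by
      rw [h6]
      exact mul_mem h5 h4
    exact h7
  inv_mem' := by
    intro g hg l
    filter_upwards [hg l] with J h1
    obtain ⟨h, hh, hd⟩ := h1
    refine ⟨h⁻¹, inv_mem hh, W.dv_of_left ?_⟩
    have h3 : g * h⁻¹ ∈ W.lev l := W.dv_right hκ hd
    have h4 : h⁻¹⁻¹ * g⁻¹ = (g * h⁻¹)⁻¹ := by group
    have h7 : h⁻¹⁻¹ * g⁻¹ ∈ W.lev l := by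
      rw [h4]
      exact inv_mem h3
    exact h7

lemma mem_lim {hκ : 1 ≤ κ} {U : Ultrafilter ℕ} {Hs : ℕ → Subgroup G} {g : G} :
    g ∈ W.lim hκ U Hs ↔ ∀ l, ∀ᶠ J in (U : Filter ℕ), ∃ h ∈ Hs J, Dv l (W.φ g - W.φ h) := Iff.rfl

/-- a close element has the same class -/
lemma cls_of_close {g h : G} {i : ℕ} (hd : Dv (i + 1) (W.φ g - W.φ h)) {y : Fin r → ℤ_[p]}
    (hy : W.φ g = (p : ℤ_[p]) ^ i • y) : ∃ y' : Fin r → ℤ_[p], W.φ h = (p : ℤ_[p]) ^ i • y' ∧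
      ∀ a, PadicInt.toZMod (y' a) = PadicInt.toZMod (y a) := by
  obtain ⟨z, hz⟩ := dv_iff.1 hd
  refine ⟨y - (p : ℤ_[p]) • z, ?_, fun a => ?_⟩
  · rw [smul_sub, smul_smul, ← pow_succ, ← hz, ← hy]
    abel
  · rw [← sub_eq_zero, ← map_sub, toZMod_eq_zero, Pi.sub_apply, Pi.smul_apply, smul_eq_mul]
    exact ⟨-z a, by ring⟩

lemma cls_lim (hκ : 1 ≤ κ) {U : Ultrafilter ℕ} {Hs : ℕ → Subgroup G} {i : ℕ} {v : Fin r → ZMod p}
    (hv : v ∈ W.cls hκ (W.lim hκ U Hs) i) : ∀ᶠ J in (U : Filter ℕ), v ∈ W.cls hκ (Hs J) i := by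
  obtain ⟨g, hg, y, hy, hv⟩ := (W.mem_cls _).1 hv
  filter_upwards [hg (i + 1)] with J hJ
  obtain ⟨h, hh, hd⟩ := hJ
  obtain ⟨y', hy', h1⟩ := W.cls_of_close hd hy
  exact (W.mem_cls _).2 ⟨h, hh, y', hy', fun a => by rw [h1 a, hv a]⟩

lemma lim_cls (hκ : 1 ≤ κ) {U : Ultrafilter ℕ} {Hs : ℕ → Subgroup G} {i : ℕ} {v : Fin r → ZMod p}
    (hv : ∀ᶠ J in (U : Filter ℕ), v ∈ W.cls hκ (Hs J) i) : v ∈ W.cls hκ (W.lim hκ U Hs) i := by
  classical
  have hv' : ∀ᶠ J in (U : Filter ℕ), ∃ h : G, h ∈ Hs J ∧ ∃ y : Fin r → ℤ_[p], W.φ h = (p : ℤ_[p]) ^ i • y ∧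
      ∀ a, PadicInt.toZMod (y a) = v a := by
    filter_upwards [hv] with J hJ
    obtain ⟨h, hh, y, hy, h1⟩ := (W.mem_cls _).1 hJ
    exact ⟨h, hh, y, hy, h1⟩
  have h0 : ∀ J, ∃ h : G, (∃ h' : G, h' ∈ Hs J ∧ ∃ y : Fin r → ℤ_[p], W.φ h' = (p : ℤ_[p]) ^ i • y ∧
      ∀ a, PadicInt.toZMod (y a) = v a) → (h ∈ Hs J ∧ ∃ y : Fin r → ℤ_[p], W.φ h = (p : ℤ_[p]) ^ i • y ∧
      ∀ a, PadicInt.toZMod (y a) = v a) := by
    intro J
    by_cases h1 : ∃ h' : G, h' ∈ Hs J ∧ ∃ y : Fin r → ℤ_[p], W.φ h' = (p : ℤ_[p]) ^ i • y ∧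
      ∀ a, PadicInt.toZMod (y a) = v a
    · obtain ⟨h', h2⟩ := h1
      exact ⟨h', fun _ => h2⟩
    · exact ⟨1, fun h2 => absurd h2 h1⟩
  choose h hh using h0
  have : CompactSpace G := W.φ.symm.compactSpace
  obtain ⟨g, -, hg⟩ := isCompact_univ.ultrafilter_le_nhds (U.map h) (by simp)
  have hlim : ∀ l, ∀ᶠ J in (U : Filter ℕ), Dv l (W.φ (h J) - W.φ g) := by
    intro l
    have h1 : {g' : G | Dv l (W.φ g' - W.φ g)} ∈ 𝓝 g :=
      (W.isClopen_dv l (W.φ g)).isOpen.mem_nhds (by rw [Set.mem_ofPred_eq, sub_self]; exact Dv.zero' _)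
    exact hg h1
  have hgm : g ∈ W.lim hκ U Hs := by
    intro l
    filter_upwards [hlim l, hv'] with J h1 h2
    exact ⟨h J, (hh J h2).1, dv_comm.1 h1⟩
  obtain ⟨J, h1, h2⟩ := ((hlim (i + 1)).and hv').exists
  obtain ⟨-, y, hy, hv1⟩ := hh J h2
  obtain ⟨y', hy', h3⟩ := W.cls_of_close h1 hy
  exact (W.mem_cls _).2 ⟨g, hgm, y', hy', fun a => by rw [h3 a, hv1 a]⟩

/-- **Perfectness.** If every proper subalgebra has corank at least `m`, then the closed subgroups with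
at least `p ^ (r - m + 1)` classes on level `j` contain a fixed open subgroup. -/
theorem perf {m : ℕ} (hκ : 2 ≤ κ) (hB : W.Big m) (j : ℕ) : ∃ J, ∀ H : Subgroup G, IsClosed (H : Set G) →
    r < Module.finrank (ZMod p) (W.cls (by omega) H j) + m → W.lev J ≤ H := by
  classical
  by_contra hcon
  push Not at hcon
  choose Hs hcl hr hle using hcon
  have hκ' : 1 ≤ κ := by omega
  set U : Ultrafilter ℕ := hyperfilter ℕ with hU
  set L := W.lim hκ' U Hs with hL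
  have h1 : ∀ᶠ J in (U : Filter ℕ), ∀ v : Fin r → ZMod p, v ∈ W.cls hκ' (Hs J) j → v ∈ W.cls hκ' L j := by
    rw [eventually_all]
    intro v
    by_cases hv : ∀ᶠ J in (U : Filter ℕ), v ∈ W.cls hκ' (Hs J) j
    · exact Eventually.of_forall fun _ _ => W.lim_cls hκ' hv
    · rw [← Ultrafilter.eventually_not] at hv
      filter_upwards [hv] with J hJ hJ'
      exact absurd hJ' hJ
  have h2 : r < Module.finrank (ZMod p) (W.cls hκ' L j) + m := by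
    obtain ⟨J, hJ⟩ := h1.exists
    have h3 := hr J
    have h4 : Module.finrank (ZMod p) (W.cls hκ' (Hs J) j) ≤ Module.finrank (ZMod p) (W.cls hκ' L j) :=
      Submodule.finrank_mono fun v hv => hJ v hv
    omega
  have h3 : W.lie hκ L = ⊤ := by
    by_contra h4
    have h5 := hB (W.lie hκ L) (fun x hx y hy => W.lie_bracket hκ L x hx y hy)
      (fun x hx => W.lie_pure hκ L x hx) h4
    have h6 := W.finrank_cls_le hκ L j
    omega
  obtain ⟨i, hi⟩ := W.exists_cls_top hκ h3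
  have h4 : ∀ᶠ J in (U : Filter ℕ), ∀ v : Fin r → ZMod p, v ∈ W.cls hκ' (Hs J) i := by
    rw [eventually_all]
    intro v
    exact W.cls_lim hκ' (by rw [hi]; exact Submodule.mem_top)
  have h5 : ∀ᶠ J in (U : Filter ℕ), i ≤ J := by
    have h6 : (U : Filter ℕ) ≤ atTop := Nat.hyperfilter_le_atTop
    exact h6 (eventually_ge_atTop i)
  obtain ⟨J, h6, h7⟩ := (h4.and h5).exists
  exact hle J ((W.lev_anti h7).trans (W.lev_le_of_cls hκ (hcl J) (eq_top_iff.2 fun v _ => h6 v)))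

end Lw

end Pool.Agent.PG
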