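import Mathlib

/-!
# The mixed second difference of an analytic function of two variables (Theorem G)
-/

set_option autoImplicit false

open Filter Topology

namespace Pool.Agent.PG

variable {𝕜 : Type*} [NontriviallyNormedField 𝕜] {E E' F : Type*} [NormedAddCommGroup E] [NormedSpace 𝕜 E]
  [NormedAddCommGroup E'] [NormedSpace 𝕜 E'] [NormedAddCommGroup F] [NormedSpace 𝕜 F]

lemma prod_piecewise_norm {n : ℕ} (s : Finset (Fin n)) (u v : E) :
    ∏ i, ‖s.piecewise (fun _ => u) (fun _ => v) i‖ = ‖u‖ ^ s.card * ‖v‖ ^ (n - s.card) := by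
  have h1 : ∀ i, ‖s.piecewise (fun _ => u) (fun _ => v) i‖ = s.piecewise (fun _ => ‖u‖) (fun _ => ‖v‖) i := by
    intro i
    by_cases h : i ∈ s
    · rw [Finset.piecewise_eq_of_mem _ _ _ h, Finset.piecewise_eq_of_mem _ _ _ h]
    · rw [Finset.piecewise_eq_of_notMem _ _ _ h, Finset.piecewise_eq_of_notMem _ _ _ h]
  rw [Finset.prod_congr rfl fun i _ => h1 i, Finset.prod_piecewise, Finset.univ_inter, Finset.prod_const,
    Finset.prod_const, ← Finset.compl_eq_univ_sdiff, Finset.card_compl, Fintype.card_fin]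

lemma pow_bound {a b : ℝ} (ha : 0 ≤ a) (hb : 0 ≤ b) {i k n : ℕ} (hi : 1 ≤ i) (hk : 1 ≤ k) (hik : i + k = n + 3) :
    a ^ i * b ^ k ≤ a * b * (a + b) * (max a b) ^ n := by
  have hM : 0 ≤ max a b := ha.trans (le_max_left _ _)
  rcases Nat.lt_or_ge 1 i with h | h
  · obtain ⟨i', rfl⟩ : ∃ i', i = i' + 2 := ⟨i - 2, by omega⟩
    obtain ⟨k', rfl⟩ : ∃ k', k = k' + 1 := ⟨k - 1, by omega⟩
    have hn : n = i' + k' := by omega
    have e1 : a ^ (i' + 2) * b ^ (k' + 1) = a * b * a * (a ^ i' * b ^ k') := by ring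
    rw [e1, hn, pow_add (max a b)]
    have e2 : a ^ i' * b ^ k' ≤ (max a b) ^ i' * (max a b) ^ k' :=
      mul_le_mul (pow_le_pow_left₀ ha (le_max_left _ _) _) (pow_le_pow_left₀ hb (le_max_right _ _) _)
        (pow_nonneg hb _) (pow_nonneg hM _)
    refine mul_le_mul (mul_le_mul_of_nonneg_left (le_add_of_nonneg_right hb) (mul_nonneg ha hb)) e2
      (mul_nonneg (pow_nonneg ha _) (pow_nonneg hb _)) (mul_nonneg (mul_nonneg ha hb) (add_nonneg ha hb))
  · obtain ⟨i', rfl⟩ : ∃ i', i = i' + 1 := ⟨i - 1, by omega⟩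
    obtain ⟨k', rfl⟩ : ∃ k', k = k' + 2 := ⟨k - 2, by omega⟩
    have hn : n = i' + k' := by omega
    have e1 : a ^ (i' + 1) * b ^ (k' + 2) = a * b * b * (a ^ i' * b ^ k') := by ring
    rw [e1, hn, pow_add (max a b)]
    have e2 : a ^ i' * b ^ k' ≤ (max a b) ^ i' * (max a b) ^ k' :=
      mul_le_mul (pow_le_pow_left₀ ha (le_max_left _ _) _) (pow_le_pow_left₀ hb (le_max_right _ _) _)
        (pow_nonneg hb _) (pow_nonneg hM _)
    refine mul_le_mul (mul_le_mul_of_nonneg_left (le_add_of_nonneg_left ha) (mul_nonneg ha hb)) e2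
      (mul_nonneg (pow_nonneg ha _) (pow_nonneg hb _)) (mul_nonneg (mul_nonneg ha hb) (add_nonneg ha hb))

/-- the mixed terms of a multilinear map of degree `n + 3` on the diagonal -/
lemma mixed_bound {n : ℕ} (q : ContinuousMultilinearMap 𝕜 (fun _ : Fin (n + 3) => E) F) (u v : E) :
    ‖q (fun _ => u + v) - q (fun _ => u) - q (fun _ => v)‖ ≤
      ‖q‖ * 2 ^ (n + 3) * (‖u‖ * ‖v‖ * (‖u‖ + ‖v‖) * (max ‖u‖ ‖v‖) ^ n) := by
  classical
  set t : Finset (Fin (n + 3)) → F := fun s => q (s.piecewise (fun _ => u) (fun _ => v)) with ht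
  have h1 : q (fun _ => u + v) = ∑ s, t s := q.toMultilinearMap.map_add_univ (fun _ => u) (fun _ => v)
  have h2 : t Finset.univ = q (fun _ => u) := by
    rw [ht]
    show q (Finset.univ.piecewise _ _) = _
    rw [Finset.piecewise_univ]
  have h3 : t ∅ = q (fun _ => v) := by
    rw [ht]
    show q ((∅ : Finset (Fin (n + 3))).piecewise _ _) = _
    rw [Finset.piecewise_empty]
  have hne : (∅ : Finset (Fin (n + 3))) ∈ Finset.univ.erase Finset.univ :=
    Finset.mem_erase.2 ⟨fun h => by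
      have := congrArg Finset.card h
      rw [Finset.card_empty, Finset.card_univ, Fintype.card_fin] at this
      omega, Finset.mem_univ _⟩
  have h4 : q (fun _ => u + v) - q (fun _ => u) - q (fun _ => v) =
      ∑ s ∈ (Finset.univ.erase Finset.univ).erase ∅, t s := by
    rw [h1, ← Finset.add_sum_erase _ _ (Finset.mem_univ Finset.univ), ← Finset.add_sum_erase _ _ hne, h2, h3]
    abel
  rw [h4]
  have hB : 0 ≤ ‖q‖ * (‖u‖ * ‖v‖ * (‖u‖ + ‖v‖) * (max ‖u‖ ‖v‖) ^ n) := by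
    have : 0 ≤ max ‖u‖ ‖v‖ := (norm_nonneg u).trans (le_max_left _ _)
    positivity
  calc ‖∑ s ∈ (Finset.univ.erase Finset.univ).erase ∅, t s‖
      ≤ ∑ s ∈ (Finset.univ.erase Finset.univ).erase ∅, ‖q‖ * (‖u‖ * ‖v‖ * (‖u‖ + ‖v‖) * (max ‖u‖ ‖v‖) ^ n) := by
        refine norm_sum_le_of_le _ fun s hs => ?_
        obtain ⟨hs0, hs1⟩ := Finset.mem_erase.1 hs
        obtain ⟨hs1, -⟩ := Finset.mem_erase.1 hs1
        refine (q.le_opNorm _).trans (mul_le_mul_of_nonneg_left ?_ (norm_nonneg _))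
        rw [prod_piecewise_norm]
        have hc0 : 1 ≤ s.card := Finset.card_pos.2 (Finset.nonempty_iff_ne_empty.2 hs0)
        have hc1 : s.card < n + 3 := by
          have h5 := Finset.card_lt_univ_of_notMem (s := s) (x := (Finset.ssubset_univ_iff.2 hs1 |> Finset.exists_of_ssubset).choose)
            (Finset.ssubset_univ_iff.2 hs1 |> Finset.exists_of_ssubset).choose_spec.2
          rwa [Fintype.card_fin] at h5
        exact pow_bound (norm_nonneg _) (norm_nonneg _) hc0 (by omega) (by omega)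
    _ = ((Finset.univ.erase Finset.univ).erase (∅ : Finset (Fin (n + 3)))).card •
          (‖q‖ * (‖u‖ * ‖v‖ * (‖u‖ + ‖v‖) * (max ‖u‖ ‖v‖) ^ n)) := Finset.sum_const _
    _ ≤ (2 ^ (n + 3) : ℕ) • (‖q‖ * (‖u‖ * ‖v‖ * (‖u‖ + ‖v‖) * (max ‖u‖ ‖v‖) ^ n)) := by
        refine nsmul_le_nsmul_left hB ?_
        have h6 : (Finset.univ : Finset (Finset (Fin (n + 3)))).card = 2 ^ (n + 3) := by
          rw [Finset.card_univ, Fintype.card_finset, Fintype.card_fin]
        rw [← h6]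
        exact Finset.card_le_card ((Finset.erase_subset _ _).trans (Finset.erase_subset _ _))
    _ = ‖q‖ * 2 ^ (n + 3) * (‖u‖ * ‖v‖ * (‖u‖ + ‖v‖) * (max ‖u‖ ‖v‖) ^ n) := by
        rw [nsmul_eq_mul]
        push_cast
        ring

lemma upd0 {α : Type*} (a b c : α) : Function.update ![a, b] 0 c = ![c, b] := by
  funext i
  fin_cases i <;> rfl

lemma upd1 {α : Type*} (a b c : α) : Function.update ![a, b] 1 c = ![a, c] := by
  funext i
  fin_cases i <;> rfl

/-- the mixed part of a quadratic map -/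
noncomputable def mixB (q : ContinuousMultilinearMap 𝕜 (fun _ : Fin 2 => E × E') F) : E →L[𝕜] E' →L[𝕜] F :=
  LinearMap.mkContinuous₂ (LinearMap.mk₂ 𝕜
    (fun (x : E) (y : E') => q ![(x, 0), (0, y)] + q ![(0, y), (x, 0)])
    (fun x x' y => by
      have h1 := q.toMultilinearMap.map_update_add ![(x, 0), (0, y)] 0 (x, 0) (x', 0)
      have h2 := q.toMultilinearMap.map_update_add ![(0, y), (x, 0)] 1 (x, 0) (x', 0)
      simp only [upd0, upd1, ContinuousMultilinearMap.coe_coe, Prod.mk_add_mk,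
        add_zero] at h1 h2
      rw [h1, h2]
      abel)
    (fun c x y => by
      have h1 := q.toMultilinearMap.map_update_smul ![(x, 0), (0, y)] 0 c (x, 0)
      have h2 := q.toMultilinearMap.map_update_smul ![(0, y), (x, 0)] 1 c (x, 0)
      simp only [upd0, upd1, ContinuousMultilinearMap.coe_coe, Prod.smul_mk,
        smul_zero] at h1 h2
      rw [h1, h2, smul_add])
    (fun x y y' => by
      have h1 := q.toMultilinearMap.map_update_add ![(x, 0), (0, y)] 1 (0, y) (0, y')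
      have h2 := q.toMultilinearMap.map_update_add ![(0, y), (x, 0)] 0 (0, y) (0, y')
      simp only [upd0, upd1, ContinuousMultilinearMap.coe_coe, Prod.mk_add_mk,
        add_zero] at h1 h2
      rw [h1, h2]
      abel)
    (fun c x y => by
      have h1 := q.toMultilinearMap.map_update_smul ![(x, 0), (0, y)] 1 c (0, y)
      have h2 := q.toMultilinearMap.map_update_smul ![(0, y), (x, 0)] 0 c (0, y)
      simp only [upd0, upd1, ContinuousMultilinearMap.coe_coe, Prod.smul_mk,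
        smul_zero] at h1 h2
      rw [h1, h2, smul_add]))
    (2 * ‖q‖) (fun x y => by
      have e1 : ‖((x, 0) : E × E')‖ = ‖x‖ := by simp [Prod.norm_def]
      have e2 : ‖((0, y) : E × E')‖ = ‖y‖ := by simp [Prod.norm_def]
      have h1 := q.le_opNorm ![(x, 0), (0, y)]
      have h2 := q.le_opNorm ![(0, y), (x, 0)]
      rw [Fin.prod_univ_two] at h1 h2
      simp only [Matrix.cons_val_zero, Matrix.cons_val_one, e1, e2] at h1 h2
      rw [LinearMap.mk₂_apply]
      refine (norm_add_le _ _).trans ?_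
      nlinarith)

lemma mixB_apply (q : ContinuousMultilinearMap 𝕜 (fun _ : Fin 2 => E × E') F) (x : E) (y : E') :
    mixB q x y = q ![(x, 0), (0, y)] + q ![(0, y), (x, 0)] := rfl

lemma mixB_eq (q : ContinuousMultilinearMap 𝕜 (fun _ : Fin 2 => E × E') F) (x : E) (y : E') :
    q (fun _ => (x, y)) - q (fun _ => (x, 0)) - q (fun _ => (0, y)) = mixB q x y := by
  rw [mixB_apply]
  have h0 : (fun _ : Fin 2 => ((x, y) : E × E')) = ![(x, 0) + (0, y), (x, y)] := by
    funext i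
    fin_cases i <;> simp
  have h1 := q.toMultilinearMap.map_update_add ![(x, 0), (x, y)] 0 (x, 0) (0, y)
  have h2 := q.toMultilinearMap.map_update_add ![(x, 0), (x, 0)] 1 (x, 0) (0, y)
  have h3 := q.toMultilinearMap.map_update_add ![(0, y), (x, 0)] 1 (x, 0) (0, y)
  simp only [upd0, upd1, ContinuousMultilinearMap.coe_coe] at h1 h2 h3
  have e1 : ((x, 0) : E × E') + (0, y) = (x, y) := by simp
  have e2 : (fun _ : Fin 2 => ((x, 0) : E × E')) = ![(x, 0), (x, 0)] := by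
    funext i
    fin_cases i <;> rfl
  have e3 : (fun _ : Fin 2 => ((0, y) : E × E')) = ![(0, y), (0, y)] := by
    funext i
    fin_cases i <;> rfl
  rw [h0, h1]
  rw [e1] at h2 h3
  rw [h2, h3, e2, e3]
  abel

/-- **The mixed second difference of an analytic function is bilinear up to third order.** -/
theorem exists_mixed {f : E × E' → F} (hf : AnalyticAt 𝕜 f 0) : ∃ (B : E →L[𝕜] E' →L[𝕜] F) (C ρ : ℝ), 0 < ρ ∧
    ∀ x y, ‖x‖ < ρ → ‖y‖ < ρ →
      ‖f (x, y) - f (x, 0) - f (0, y) + f (0, 0) - B x y‖ ≤ C * ‖x‖ * ‖y‖ * (‖x‖ + ‖y‖) := by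
  obtain ⟨q, R, hq⟩ := hf
  obtain ⟨r', hr0, hrR⟩ := ENNReal.lt_iff_exists_nnreal_btwn.1 hq.r_pos
  have hr0' : (0 : ℝ) < r' := by exact_mod_cast (ENNReal.coe_pos.1 hr0)
  obtain ⟨a, ha, K, hK, hqK⟩ := q.norm_mul_pow_le_mul_pow_of_lt_radius (hrR.trans_le hq.r_le)
  have hgeo : HasSum (fun m : ℕ => 8 * K * (r' : ℝ)⁻¹ ^ 3 * a ^ m) (8 * K * (r' : ℝ)⁻¹ ^ 3 * (1 - a)⁻¹) :=
    (hasSum_geometric_of_lt_one ha.1.le ha.2).mul_left _
  refine ⟨mixB (q 2), 8 * K * (r' : ℝ)⁻¹ ^ 3 * (1 - a)⁻¹, r' / 2, by positivity, fun x y hx hy => ?_⟩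
  have hball : ∀ z : E × E', ‖z‖ < r' → HasSum (fun n => q n fun _ => z) (f z) := by
    intro z hz
    have h1 := hq.hasSum (y := z) (by
      rw [mem_eball_zero_iff]
      refine lt_trans ?_ hrR
      rw [enorm_lt_coe]
      exact_mod_cast hz)
    rwa [zero_add] at h1
  have hn : ∀ (u : E) (v : E'), ‖((u, v) : E × E')‖ = max ‖u‖ ‖v‖ := fun u v => Prod.norm_mk u v
  have hx' : ‖x‖ < r' := by linarith
  have hy' : ‖y‖ < r' := by linarith
  have s1 := hball (x, y) (by rw [hn]; exact max_lt hx' hy')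
  have s2 := hball (x, 0) (by rw [hn, norm_zero]; exact max_lt hx' hr0')
  have s3 := hball (0, y) (by rw [hn, norm_zero]; exact max_lt hr0' hy')
  have s4 := hball (0, 0) (by rw [hn, norm_zero, norm_zero, max_self]; exact hr0')
  have s5 := ((s1.sub s2).sub s3).add s4
  rw [← hasSum_nat_add_iff' 3] at s5
  have e0 : ∀ w w' : Fin 0 → E × E', q 0 w = q 0 w' := fun w w' => congrArg _ (Subsingleton.elim _ _)
  have e1 : (q 1 fun _ => ((x, y) : E × E')) = (q 1 fun _ => (x, 0)) + q 1 fun _ => (0, y) := by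
    have h1 := (q 1).toMultilinearMap.map_update_add (fun _ => ((x, y) : E × E')) 0 (x, 0) (0, y)
    have h2 : ∀ z w : E × E', Function.update (fun _ : Fin 1 => z) 0 w = fun _ => w := by
      intro z w
      funext i
      rw [Subsingleton.elim i 0, Function.update_self]
    rw [h2, h2, h2] at h1
    have h3 : ((x, 0) : E × E') + (0, y) = (x, y) := by simp
    rw [h3] at h1
    exact h1
  have e2 := mixB_eq (q 2) x y
  have ez : ∀ n, (q (n + 1) fun _ => ((0, 0) : E × E')) = 0 := fun n => (q (n + 1)).map_coord_zero 0 rfl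
  have hsum : f (x, y) - f (x, 0) - f (0, y) + f (0, 0) - ∑ i ∈ Finset.range 3, ((((q i fun _ => ((x, y) : E × E')) -
      q i fun _ => (x, 0)) - q i fun _ => (0, y)) + q i fun _ => (0, 0)) =
      f (x, y) - f (x, 0) - f (0, y) + f (0, 0) - mixB (q 2) x y := by
    rw [Finset.sum_range_succ, Finset.sum_range_succ, Finset.sum_range_one, e2, ez 0, ez 1, e1,
      e0 (fun _ => (x, y)) (fun _ => (x, 0)), e0 (fun _ => (0, y)) (fun _ => (x, 0)),
      e0 (fun _ => (0, 0)) (fun _ => (x, 0))]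
    abel
  rw [hsum] at s5
  have hbound : ∀ m, ‖(((q (m + 3) fun _ => ((x, y) : E × E')) - q (m + 3) fun _ => (x, 0)) - q (m + 3) fun _ => (0, y)) +
      q (m + 3) fun _ => (0, 0)‖ ≤ 8 * K * (r' : ℝ)⁻¹ ^ 3 * a ^ m * (‖x‖ * ‖y‖ * (‖x‖ + ‖y‖)) := by
    intro m
    rw [ez (m + 2), add_zero]
    have h1 := mixed_bound (q (m + 3)) ((x, 0) : E × E') (0, y)
    have h3 : ((x, 0) : E × E') + (0, y) = (x, y) := by simp
    have e4 : ‖((x, 0) : E × E')‖ = ‖x‖ := by rw [hn, norm_zero, max_eq_left (norm_nonneg x)]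
    have e5 : ‖((0, y) : E × E')‖ = ‖y‖ := by rw [hn, norm_zero, max_eq_right (norm_nonneg y)]
    rw [h3, e4, e5] at h1
    refine h1.trans ?_
    have hM : max ‖x‖ ‖y‖ ≤ r' / 2 := (max_lt hx hy).le
    have hM0 : 0 ≤ max ‖x‖ ‖y‖ := (norm_nonneg x).trans (le_max_left _ _)
    have h6 : ‖q (m + 3)‖ * 2 ^ (m + 3) * (max ‖x‖ ‖y‖) ^ m ≤ 8 * K * (r' : ℝ)⁻¹ ^ 3 * a ^ m := by
      have h7 : (max ‖x‖ ‖y‖) ^ m ≤ (r' / 2 : ℝ) ^ m := pow_le_pow_left₀ hM0 hM m
      have h8 := hqK (m + 3)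
      calc ‖q (m + 3)‖ * 2 ^ (m + 3) * (max ‖x‖ ‖y‖) ^ m ≤ ‖q (m + 3)‖ * 2 ^ (m + 3) * (r' / 2 : ℝ) ^ m :=
            mul_le_mul_of_nonneg_left h7 (by positivity)
        _ = 8 * (r' : ℝ)⁻¹ ^ 3 * (‖q (m + 3)‖ * (r' : ℝ) ^ (m + 3)) := by
            rw [div_pow, pow_add 2 m 3, pow_add (r' : ℝ) m 3]
            field_simp
            ring
        _ ≤ 8 * (r' : ℝ)⁻¹ ^ 3 * (K * a ^ (m + 3)) := mul_le_mul_of_nonneg_left h8 (by positivity)
        _ ≤ 8 * (r' : ℝ)⁻¹ ^ 3 * (K * a ^ m) := by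
            refine mul_le_mul_of_nonneg_left (mul_le_mul_of_nonneg_left ?_ hK.le) (by positivity)
            exact pow_le_pow_of_le_one ha.1.le ha.2.le (Nat.le_add_right m 3)
        _ = _ := by ring
    calc ‖q (m + 3)‖ * 2 ^ (m + 3) * (‖x‖ * ‖y‖ * (‖x‖ + ‖y‖) * (max ‖x‖ ‖y‖) ^ m)
        = (‖q (m + 3)‖ * 2 ^ (m + 3) * (max ‖x‖ ‖y‖) ^ m) * (‖x‖ * ‖y‖ * (‖x‖ + ‖y‖)) := by ring
      _ ≤ _ := mul_le_mul_of_nonneg_right h6 (by positivity)
  have h9 := s5.norm_le_of_bounded (hgeo.mul_right (‖x‖ * ‖y‖ * (‖x‖ + ‖y‖))) hbound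
  refine h9.trans (le_of_eq ?_)
  ring

end Pool.Agent.PG
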