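import Pool.Agent.PG.LieDefs
import Pool.Agent.PG.Mixed

/-!
# The law of an analytic Lie group in the chart at `1`: row L1 of Theorem G
-/

set_option autoImplicit false

open Filter Topology
open scoped Manifold ContDiff

namespace Pool.Agent.PG

variable {𝕜 : Type*} [NontriviallyNormedField 𝕜] {H : Type*} [TopologicalSpace H]
  {E : Type*} [NormedAddCommGroup E] [NormedSpace 𝕜 E] {I : ModelWithCorners 𝕜 E H}
  {G : Type*} [TopologicalSpace G] [ChartedSpace H G] [Group G]

lemma symm_cen : (extChartAt I (1 : G)).symm (cen I G) = 1 := extChartAt_to_inv 1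

lemma lawAt_right {x : E} (hx : x + cen I G ∈ (extChartAt I (1 : G)).target) : lawAt I G (x, 0) = x := by
  unfold lawAt
  rw [zero_add, symm_cen, mul_one, (extChartAt I (1 : G)).right_inv hx, add_sub_cancel_right]

lemma lawAt_left {x : E} (hx : x + cen I G ∈ (extChartAt I (1 : G)).target) : lawAt I G (0, x) = x := by
  unfold lawAt
  rw [zero_add, symm_cen, one_mul, (extChartAt I (1 : G)).right_inv hx, add_sub_cancel_right]

lemma eventually_target [I.Boundaryless] : ∀ᶠ x in 𝓝 (0 : E), x + cen I G ∈ (extChartAt I (1 : G)).target := by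
  have h1 : Tendsto (fun x : E => x + cen I G) (𝓝 0) (𝓝 (cen I G)) := by
    have h2 : Tendsto (fun x : E => x + cen I G) (𝓝 0) (𝓝 (0 + cen I G)) := (continuous_add_const _).tendsto _
    rwa [zero_add] at h2
  exact h1.eventually (extChartAt_target_mem_nhds (I := I) (1 : G))

lemma contDiffAt_lawAt [I.Boundaryless] [LieGroup I ω G] : ContDiffAt 𝕜 ω (lawAt I G) 0 := by
  have hs : ContMDiffAt 𝓘(𝕜, E) I ω (extChartAt I (1 : G)).symm (cen I G) :=
    (contMDiffOn_extChartAt_symm (1 : G)).contMDiffAt (extChartAt_target_mem_nhds (I := I) (1 : G))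
  have h1 : ContMDiffAt 𝓘(𝕜, E × E) I ω (fun z : E × E => (extChartAt I (1 : G)).symm (z.1 + cen I G)) 0 := by
    have h2 : ContMDiffAt 𝓘(𝕜, E × E) 𝓘(𝕜, E) ω (fun z : E × E => z.1 + cen I G) 0 :=
      (contDiffAt_fst.add contDiffAt_const).contMDiffAt
    refine ContMDiffAt.comp (0 : E × E) (g := (extChartAt I (1 : G)).symm) ?_ h2
    show ContMDiffAt 𝓘(𝕜, E) I ω (extChartAt I (1 : G)).symm ((0 : E) + cen I G)
    rw [zero_add]
    exact hs
  have h1' : ContMDiffAt 𝓘(𝕜, E × E) I ω (fun z : E × E => (extChartAt I (1 : G)).symm (z.2 + cen I G)) 0 := by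
    have h2 : ContMDiffAt 𝓘(𝕜, E × E) 𝓘(𝕜, E) ω (fun z : E × E => z.2 + cen I G) 0 :=
      (contDiffAt_snd.add contDiffAt_const).contMDiffAt
    refine ContMDiffAt.comp (0 : E × E) (g := (extChartAt I (1 : G)).symm) ?_ h2
    show ContMDiffAt 𝓘(𝕜, E) I ω (extChartAt I (1 : G)).symm ((0 : E) + cen I G)
    rw [zero_add]
    exact hs
  have h3 := h1.mul h1'
  have h4 : ContMDiffAt 𝓘(𝕜, E × E) 𝓘(𝕜, E) ω
      (fun z : E × E => extChartAt I (1 : G) ((extChartAt I (1 : G)).symm (z.1 + cen I G) *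
        (extChartAt I (1 : G)).symm (z.2 + cen I G))) 0 := by
    refine ContMDiffAt.comp (0 : E × E) (g := extChartAt I (1 : G)) ?_ h3
    show ContMDiffAt I 𝓘(𝕜, E) ω (extChartAt I (1 : G)) ((extChartAt I (1 : G)).symm ((0 : E) + cen I G) *
        (extChartAt I (1 : G)).symm ((0 : E) + cen I G))
    rw [zero_add, symm_cen, one_mul]
    exact contMDiffAt_extChartAt
  exact h4.contDiffAt.sub contDiffAt_const

/-- **Row L1**: the law of an analytic Lie group is bilinear up to third order in the chart at `1`. -/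
theorem exists_quad [I.Boundaryless] [LieGroup I ω G] : ∃ B : E →L[𝕜] E →L[𝕜] E, IsQuad I G B := by
  have ha : AnalyticAt 𝕜 (lawAt I G) 0 := contDiffAt_lawAt.analyticAt
  obtain ⟨B, C, ρ, hρ, hB⟩ := exists_mixed ha
  obtain ⟨ρ', hρ', ht⟩ := Metric.eventually_nhds_iff.1 (eventually_target (I := I) (G := G))
  refine ⟨B, C, min ρ ρ', lt_min hρ hρ', fun x y hx hy => ?_⟩
  have hx' : x + cen I G ∈ (extChartAt I (1 : G)).target :=
    ht (by rw [dist_zero_right]; exact hx.trans_le (min_le_right _ _))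
  have hy' : y + cen I G ∈ (extChartAt I (1 : G)).target :=
    ht (by rw [dist_zero_right]; exact hy.trans_le (min_le_right _ _))
  have h0 : (0 : E) + cen I G ∈ (extChartAt I (1 : G)).target := ht (by rw [dist_self]; exact hρ')
  have h1 := hB x y (hx.trans_le (min_le_left _ _)) (hy.trans_le (min_le_left _ _))
  rw [lawAt_right hx', lawAt_left hy', lawAt_left h0, add_zero] at h1
  exact h1

end Pool.Agent.PG
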