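import Pool.Agent.PG.Fin
import Pool.Agent.PG.Quad
import Pool.Agent.PG.Bracket
import Pool.Agent.PG.ExLw2
import Pool.Agent.PG.LieBig
import Pool.Agent.PG.Perf
import Pool.Agent.PG.Level
import Pool.Agent.PG.NV
import Pool.Agent.PG.Codim

/-!
# Theorem G for Lie groups over `ℚ_p`
-/

set_option autoImplicit false

open Set Topology Metric
open scoped Manifold ContDiff

namespace Pool.Agent.PG

open Pool.Agent.Helper3.HS Pool.Agent.HSF

universe u

theorem allGR {p r D : ℕ} [Fact p.Prime] (hr : 1 ≤ r) : AllGR.{u} p r D :=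
  exists_GR_of_rows (fun W j U hU => W.exists_level j U hU) (fun W hκ _ hB j => W.perf hκ hB j)
    (fun W _ _ _ hk hκ hr ρ c lam M hper hinv hd => W.nv hk hκ hr ρ c lam M hper hinv hd) hr

section

variable {p : ℕ} [hp : Fact p.Prime] {E : Type*} [NormedAddCommGroup E] [NormedSpace ℚ_[p] E]
  [FiniteDimensional ℚ_[p] E] {Γ : Type u} [TopologicalSpace Γ]
  [ChartedSpace E Γ] [Group Γ] [LieGroup 𝓘(ℚ_[p], E) ω Γ]

/-- A Lie group over `ℚ_p` has an open subgroup which satisfies `Lw`. -/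
theorem exists_Lw_lie {m : ℕ}
    (hm : SubalgCodim ℚ_[p] (GroupLieAlgebra 𝓘(ℚ_[p], E) Γ) m) :
    ∃ (κ : ℕ) (U : Subgroup Γ) (_ : 1 ≤ κ) (_ : IsOpen (U : Set Γ)) (W : Lw p (Module.finrank ℚ_[p] E) κ U),
      W.Big m := by
  have hEc : CompleteSpace E := FiniteDimensional.complete ℚ_[p] E
  obtain ⟨B, hB⟩ := exists_quad (I := 𝓘(ℚ_[p], E)) (G := Γ)
  obtain ⟨A, c, hA⟩ := exists_Lw 𝓘(ℚ_[p], E) hB
  obtain ⟨κ, hκ, U, hU, -, -, W, hW⟩ := hA 1 univ Filter.univ_mem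
  refine ⟨κ, U, hκ, hU, W, W.big_of_lie (L := GroupLieAlgebra 𝓘(ℚ_[p], E) Γ) A.toLinearEquiv c
    (fun x y => ?_) fun S hS => ?_⟩
  swap
  · exact hm S.toSubmodule (fun v hv w hw => S.lie_mem hv hw) fun h => hS (LieSubalgebra.toSubmodule_injective h)
  rw [map_sub, bracket_eq hB]
  have h1 : inc p _ (W.B x y) = (p : ℚ_[p]) ^ c • A (B (A.symm (inc p _ x)) (A.symm (inc p _ y))) := hW x y
  have h2 : inc p _ (W.B y x) = (p : ℚ_[p]) ^ c • A (B (A.symm (inc p _ y)) (A.symm (inc p _ x))) := hW y x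
  rw [h1, h2, ← smul_sub, ← map_sub]
  rfl

/-- Theorem G. -/
theorem final_lie {m : ℕ} (hm0 : 1 ≤ m)
    (hm : SubalgCodim ℚ_[p] (GroupLieAlgebra 𝓘(ℚ_[p], E) Γ) m)
    {d : ℕ} {X : Type*} [MetricSpace X] {G : Type*} [Group G] [TopologicalSpace G]
    [IsTopologicalGroup G] [MulAction G X] [ContinuousSMul G X] {R : Set X}
    (hRo : IsOpen R) (hRd : Dense R) (hRc : IsPreconnected R) (hR : R ⊆ regPts (d + 1) X)
    (hH : ∀ x₀ ∈ R, ¬ IsMeagre {g : G | ∃ b : ℝ, (d + 1 : ℝ) < b * (d + 1 + m) ∧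
      HolderNear b (fun x : X => g • x) x₀})
    (θ : Γ →* G) (hθ : Continuous θ) :
    ∃ U : Subgroup Γ, IsOpen (U : Set Γ) ∧ ∀ a ∈ U, ∀ x : X, θ a • x = x := by
  have hΓ : IsTopologicalGroup Γ := topologicalGroup_of_lieGroup 𝓘(ℚ_[p], E) ω
  rcases Nat.eq_zero_or_pos (Module.finrank ℚ_[p] E) with hr | hr
  · have hE : Subsingleton E := Module.finrank_zero_iff.1 hr
    refine ⟨⊥, ?_, fun a ha x => ?_⟩
    · have h1 : ((⊥ : Subgroup Γ) : Set Γ) = (chartAt E (1 : Γ)).source := by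
        ext g
        rw [SetLike.mem_coe, Subgroup.mem_bot]
        constructor
        · rintro rfl
          exact mem_chart_source _ _
        · intro hg
          exact (chartAt E (1 : Γ)).injOn hg (mem_chart_source _ _) (Subsingleton.elim _ _)
      rw [h1]
      exact (chartAt E (1 : Γ)).open_source
    · rw [Subgroup.mem_bot.1 ha, map_one, one_smul]
  · obtain ⟨D, rfl⟩ : ∃ D, m = D + 1 := ⟨m - 1, by omega⟩
    obtain ⟨κ, U, hκ, hU, W, hW⟩ := exists_Lw_lie (p := p) hm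
    refine final_Lw (d := d) hU W (allGR hr) hW hr hκ hRo hRd hRc hR (fun x₀ hx₀ h => hH x₀ hx₀ (h.mono ?_)) θ hθ
    rintro g ⟨b, hb, V, hV, C, hC⟩
    refine ⟨V, hV, b, C, ?_, hC⟩
    push_cast at hb
    rw [show (d : ℝ) + 1 + D + 1 = d + 1 + (D + 1) by ring]
    exact hb

end

end Pool.Agent.PG
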