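import Pool.Agent.PG.FinC
import Pool.Agent.PG.FinalLie

/-!
# Theorem G for Lie groups over `ℚ_p`, improved threshold
-/

set_option autoImplicit false

open Set Topology Metric
open scoped Manifold ContDiff

namespace Pool.Agent.PG

open Pool.Agent.Helper3.HS Pool.Agent.HSF

universe u

section

variable {p : ℕ} [hp : Fact p.Prime] {E : Type*} [NormedAddCommGroup E] [NormedSpace ℚ_[p] E]
  [FiniteDimensional ℚ_[p] E] {Γ : Type u} [TopologicalSpace Γ]
  [ChartedSpace E Γ] [Group Γ] [LieGroup 𝓘(ℚ_[p], E) ω Γ]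

/-- Theorem G, with the threshold `d / (d + m)`, where `d + 1` is the dimension of the space. -/
theorem final_lieC {m : ℕ} (hm0 : 1 ≤ m)
    (hm : SubalgCodim ℚ_[p] (GroupLieAlgebra 𝓘(ℚ_[p], E) Γ) m)
    {d : ℕ} {X : Type*} [MetricSpace X] {G : Type*} [Group G] [TopologicalSpace G]
    [IsTopologicalGroup G] [MulAction G X] [ContinuousSMul G X] {R : Set X}
    (hRo : IsOpen R) (hRd : Dense R) (hRc : IsPreconnected R) (hR : R ⊆ regPts (d + 1) X)
    (hH : ∀ x₀ ∈ R, ¬ IsMeagre {g : G | ∃ b : ℝ, (d : ℝ) < b * (d + m) ∧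
      HolderNear b (fun x : X => g • x) x₀})
    (θ : Γ →* G) (hθ : Continuous θ) :
    ∃ U : Subgroup Γ, IsOpen (U : Set Γ) ∧ ∀ a ∈ U, ∀ x : X, θ a • x = x := by
  have hΓ : IsTopologicalGroup Γ := topologicalGroup_of_lieGroup 𝓘(ℚ_[p], E) ω
  rcases Nat.eq_zero_or_pos (Module.finrank ℚ_[p] E) with hr | hr
  · have hE : Subsingleton E := Module.finrank_zero_iff.1 hr
    refine ⟨⊥, ?_, fun a ha x => ?_⟩
    · have h1 : ((⊥ : Subgroup Γ) : Set Γ) = (chartAt E (1 : Γ)).source := by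
        ext g
        rw [SetLike.mem_coe, Subgroup.mem_bot]
        constructor
        · rintro rfl
          exact mem_chart_source _ _
        · intro hg
          exact (chartAt E (1 : Γ)).injOn hg (mem_chart_source _ _) (Subsingleton.elim _ _)
      rw [h1]
      exact (chartAt E (1 : Γ)).open_source
    · rw [Subgroup.mem_bot.1 ha, map_one, one_smul]
  · obtain ⟨D, rfl⟩ : ∃ D, m = D + 1 := ⟨m - 1, by omega⟩
    obtain ⟨κ, U, hκ, hU, W, hW⟩ := exists_Lw_lie (p := p) hm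
    refine final_LwC (d := d) hU W (allGR hr) hW hr hκ hRo hRd hRc hR (fun x₀ hx₀ h => hH x₀ hx₀ (h.mono ?_)) θ hθ
    rintro g ⟨b, hb, V, hV, C, hC⟩
    refine ⟨V, hV, b, C, ?_, hC⟩
    push_cast at hb
    rw [show (d : ℝ) + 1 + D = d + (D + 1) by ring]
    exact hb

end

end Pool.Agent.PG
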