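import Mathlib
import Pool.Agent.PG.Codim

/-!
# Subalgebras of a simple Lie algebra

A proper subalgebra of codimension `k` in a finite-dimensional simple Lie algebra `L` of
characteristic zero satisfies `dim L ≤ k ^ 2 + 2 k`. Hence `m ^ 2 ≤ dim L` implies that every proper
subalgebra has codimension at least `m`.
-/

set_option autoImplicit false

namespace Pool.Agent.PG

/-- The algebra `L` is simple: its bracket is not identically zero, and a linear subspace `I`
which is stable under the brackets with all elements of `L` is zero or `L`. -/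
def SimpleAlg (k L : Type*) [Field k] [AddCommGroup L] [Module k L] [Bracket L L] : Prop :=
  (∃ v w : L, ⁅v, w⁆ ≠ 0) ∧
    ∀ I : Submodule k L, (∀ v : L, ∀ w ∈ I, ⁅v, w⁆ ∈ I) → I = ⊥ ∨ I = ⊤

section

open Module

variable {K L : Type*} [Field K] [LieRing L] [LieAlgebra K L]

/-- the filtration `L₀ ⊇ L₁ ⊇ …` defined by a subspace `L₀` -/
def filt (S : Submodule K L) : ℕ → Submodule K L
  | 0 => S
  | n + 1 =>
    { carrier := {x | x ∈ filt S n ∧ ∀ z : L, ⁅x, z⁆ ∈ filt S n}
      add_mem' := fun {a b} ha hb => ⟨add_mem ha.1 hb.1, fun z => by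
        rw [add_lie]; exact add_mem (ha.2 z) (hb.2 z)⟩
      zero_mem' := ⟨zero_mem _, fun z => by rw [zero_lie]; exact zero_mem _⟩
      smul_mem' := fun c x hx => ⟨Submodule.smul_mem _ _ hx.1, fun z => by
        rw [smul_lie]; exact Submodule.smul_mem _ _ (hx.2 z)⟩ }

theorem mem_filt_succ {S : Submodule K L} {n : ℕ} {x : L} :
    x ∈ filt S (n + 1) ↔ x ∈ filt S n ∧ ∀ z : L, ⁅x, z⁆ ∈ filt S n := Iff.rfl

theorem filt_succ_le (S : Submodule K L) (n : ℕ) : filt S (n + 1) ≤ filt S n := fun _ hx => hx.1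

theorem filt_antitone (S : Submodule K L) : Antitone (filt S) :=
  antitone_nat_of_succ_le (filt_succ_le S)

theorem lie_mem_filt_left {S : Submodule K L} {n : ℕ} {x : L} (hx : x ∈ filt S (n + 1)) (z : L) :
    ⁅x, z⁆ ∈ filt S n := hx.2 z

theorem lie_mem_filt_right {S : Submodule K L} {n : ℕ} {x : L} (hx : x ∈ filt S (n + 1)) (z : L) :
    ⁅z, x⁆ ∈ filt S n := by
  rw [← lie_skew]
  exact neg_mem (hx.2 z)

theorem lie_mem_filt {S : Submodule K L} (hS : ∀ v ∈ S, ∀ w ∈ S, ⁅v, w⁆ ∈ S) :
    ∀ (t i j : ℕ), i + j = t → ∀ x ∈ filt S i, ∀ y ∈ filt S j, ⁅x, y⁆ ∈ filt S t := by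
  intro t
  induction t with
  | zero =>
    intro i j hij x hx y hy
    obtain ⟨rfl, rfl⟩ : i = 0 ∧ j = 0 := by omega
    exact hS x hx y hy
  | succ t ih =>
    intro i j hij x hx y hy
    refine mem_filt_succ.2 ⟨?_, fun z => ?_⟩
    · rcases Nat.eq_zero_or_pos j with rfl | hj
      · obtain rfl : i = t + 1 := by omega
        exact ih t 0 (by omega) x (filt_succ_le S t hx) y hy
      · obtain ⟨j, rfl⟩ : ∃ j', j = j' + 1 := ⟨j - 1, by omega⟩
        exact ih i j (by omega) x hx y (filt_succ_le S j hy)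
    · have h1 : ⁅x, ⁅y, z⁆⁆ ∈ filt S t := by
        rcases Nat.eq_zero_or_pos j with rfl | hj
        · obtain rfl : i = t + 1 := by omega
          exact lie_mem_filt_left hx _
        · obtain ⟨j, rfl⟩ : ∃ j', j = j' + 1 := ⟨j - 1, by omega⟩
          exact ih i j (by omega) x hx _ (lie_mem_filt_left hy z)
      have h2 : ⁅y, ⁅x, z⁆⁆ ∈ filt S t := by
        rcases Nat.eq_zero_or_pos i with rfl | hi
        · obtain rfl : j = t + 1 := by omega
          exact lie_mem_filt_left hy _
        · obtain ⟨i, rfl⟩ : ∃ i', i = i' + 1 := ⟨i - 1, by omega⟩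
          exact ih j i (by omega) y hy _ (lie_mem_filt_left hx z)
      have h3 : ⁅⁅x, y⁆, z⁆ = ⁅x, ⁅y, z⁆⁆ - ⁅y, ⁅x, z⁆⁆ := by
        rw [lie_lie]
      rw [h3]
      exact sub_mem h1 h2

/-- the composition `ad x ∘ ad y` raises the filtration -/
theorem ad_ad_pow {S : Submodule K L} (hS : ∀ v ∈ S, ∀ w ∈ S, ⁅v, w⁆ ∈ S) {x y : L}
    (hx : x ∈ filt S 1) (hy : y ∈ S) (n : ℕ) (z : L) :
    ((LieAlgebra.ad K L x ∘ₗ LieAlgebra.ad K L y) ^ (n + 1)) z ∈ filt S n := by
  induction n with
  | zero =>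
    rw [zero_add, pow_one]
    exact lie_mem_filt_left hx _
  | succ n ih =>
    rw [pow_succ', Module.End.mul_apply]
    have h1 : ⁅y, ((LieAlgebra.ad K L x ∘ₗ LieAlgebra.ad K L y) ^ (n + 1)) z⁆ ∈ filt S n :=
      lie_mem_filt hS n 0 n (by omega) y hy _ ih
    have h2 := lie_mem_filt hS (n + 1) 1 n (by omega) x hx _ h1
    simpa using h2

variable [FiniteDimensional K L]

/-- the filtration of a proper subalgebra of a simple algebra ends with `0` -/
theorem exists_filt_eq_bot (hs : SimpleAlg K L) {S : Submodule K L} (hS1 : S ≠ ⊤) :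
    ∃ n, filt S n = ⊥ := by
  obtain ⟨n, hn⟩ := IsArtinian.monotone_stabilizes
    (⟨fun n => OrderDual.toDual (filt S n), fun a b hab => filt_antitone S hab⟩ :
      ℕ →o (Submodule K L)ᵒᵈ)
  have h1 : filt S n = filt S (n + 1) := hn (n + 1) (Nat.le_succ n)
  refine ⟨n, (hs.2 (filt S n) fun v w hw => ?_).resolve_right fun h => ?_⟩
  · rw [h1] at hw
    exact lie_mem_filt_right hw v
  · apply hS1
    rw [eq_top_iff, ← h]
    exact filt_antitone S (Nat.zero_le n)

/-- `L₁` is orthogonal to `L₀` for the Killing form -/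
theorem killing_filt (hs : SimpleAlg K L) {S : Submodule K L}
    (hS : ∀ v ∈ S, ∀ w ∈ S, ⁅v, w⁆ ∈ S) (hS1 : S ≠ ⊤) {x y : L} (hx : x ∈ filt S 1) (hy : y ∈ S) :
    killingForm K L x y = 0 := by
  obtain ⟨n, hn⟩ := exists_filt_eq_bot hs hS1
  rw [killingForm_apply_apply]
  apply IsNilpotent.eq_zero
  apply LinearMap.isNilpotent_trace_of_isNilpotent
  refine ⟨n + 1, LinearMap.ext fun z => ?_⟩
  have h1 := ad_ad_pow hS hx hy n z
  rw [hn, Submodule.mem_bot] at h1
  simpa using h1

/-- `L₀ / L₁` embeds in `End (L / L₀)` -/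
theorem finrank_filt_zero_le {S : Submodule K L} (hS : ∀ v ∈ S, ∀ w ∈ S, ⁅v, w⁆ ∈ S) :
    finrank K S ≤ (finrank K (L ⧸ S)) ^ 2 + finrank K (filt S 1) := by
  have hmap : ∀ y : S, S ≤ S.comap (LieAlgebra.ad K L (y : L)) := fun y z hz => hS _ y.2 z hz
  let φ : S →ₗ[K] (L ⧸ S →ₗ[K] L ⧸ S) :=
    { toFun := fun y => S.mapQ S (LieAlgebra.ad K L (y : L)) (hmap y)
      map_add' := fun y z => by
        refine LinearMap.ext fun w => ?_
        obtain ⟨w, rfl⟩ := Submodule.Quotient.mk_surjective S w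
        rw [LinearMap.add_apply, Submodule.mapQ_apply, Submodule.mapQ_apply, Submodule.mapQ_apply,
          ← Submodule.Quotient.mk_add]
        simp
      map_smul' := fun c z => by
        refine LinearMap.ext fun w => ?_
        obtain ⟨w, rfl⟩ := Submodule.Quotient.mk_surjective S w
        rw [LinearMap.smul_apply, Submodule.mapQ_apply, Submodule.mapQ_apply,
          ← Submodule.Quotient.mk_smul]
        simp }
  have h1 := LinearMap.finrank_range_add_finrank_ker φ
  have h2 : finrank K (LinearMap.range φ) ≤ (finrank K (L ⧸ S)) ^ 2 := by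
    refine (Submodule.finrank_le _).trans ?_
    rw [Module.finrank_linearMap, sq]
  have h3 : finrank K (LinearMap.ker φ) ≤ finrank K (filt S 1) := by
    have h4 : (LinearMap.ker φ).map S.subtype ≤ filt S 1 := by
      rintro _ ⟨y, hy, rfl⟩
      refine ⟨y.2, fun z => ?_⟩
      have h5 : φ y (Submodule.Quotient.mk z) = 0 := by
        rw [LinearMap.mem_ker.1 hy]; rfl
      exact (Submodule.Quotient.mk_eq_zero S).1 h5
    rw [← Submodule.finrank_map_subtype_eq]
    exact Submodule.finrank_mono h4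
  omega

variable [CharZero K]

/-- **The dimension of a simple Lie algebra with a subalgebra of codimension `k`.** -/
theorem finrank_le_of_subalgebra (hs : SimpleAlg K L) {S : Submodule K L}
    (hS : ∀ v ∈ S, ∀ w ∈ S, ⁅v, w⁆ ∈ S) (hS1 : S ≠ ⊤) :
    finrank K L ≤ (finrank K (L ⧸ S)) ^ 2 + 2 * finrank K (L ⧸ S) := by
  have hsimple : LieAlgebra.IsSimple K L :=
    { eq_bot_or_eq_top := fun I => by
        rcases hs.2 I.toSubmodule (fun v w hw => I.lie_mem hw) with h | h
        · exact Or.inl ((LieSubmodule.toSubmodule_eq_bot I).1 h)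
        · exact Or.inr ((LieSubmodule.toSubmodule_eq_top I).1 h)
      non_abelian := fun h => by
        obtain ⟨v, w, hvw⟩ := hs.1
        exact hvw (h.trivial v w) }
  have hk : LieAlgebra.IsKilling K L := inferInstance
  have h1 := finrank_filt_zero_le hS
  have h2 : filt S 1 ≤ (killingForm K L).orthogonal S := by
    intro x hx
    rw [LinearMap.BilinForm.mem_orthogonal_iff]
    intro y hy
    have h3 := killing_filt hs hS hS1 hx hy
    rw [LieModule.traceForm_comm] at h3
    exact h3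
  have h3 := Submodule.finrank_mono h2
  have h4 := LinearMap.BilinForm.finrank_orthogonal (LieAlgebra.IsKilling.killingForm_nondegenerate K L) S
  have h5 := Submodule.finrank_quotient_add_finrank S
  omega

/-- A simple Lie algebra of dimension at least `m ^ 2` has no proper subalgebra of codimension less
than `m`. -/
theorem SimpleAlg.subalgCodim (hs : SimpleAlg K L) {m : ℕ} (hm : m ^ 2 ≤ finrank K L) :
    SubalgCodim K L m := by
  intro S hS hS1
  have h1 := finrank_le_of_subalgebra hs hS hS1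
  have h5 := Submodule.finrank_quotient_add_finrank S
  by_contra h
  have h6 : finrank K (L ⧸ S) + 1 ≤ m := by omega
  have h7 : (finrank K (L ⧸ S) + 1) ^ 2 ≤ m ^ 2 := Nat.pow_le_pow_left h6 2
  nlinarith

end

end Pool.Agent.PG
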