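import Pool.Agent.PG.FinalLieC
import Pool.Agent.PG.SimpleCodim

/-!
# Theorem G for simple Lie groups over `ℚ_p`
-/

set_option autoImplicit false

open Set Topology Metric
open scoped Manifold ContDiff

namespace Pool.Agent.PG

open Pool.Agent.Helper3.HS Pool.Agent.HSF

universe u

section

variable {p : ℕ} [hp : Fact p.Prime] {E : Type*} [NormedAddCommGroup E] [NormedSpace ℚ_[p] E]
  [FiniteDimensional ℚ_[p] E] {Γ : Type u} [TopologicalSpace Γ]
  [ChartedSpace E Γ] [Group Γ] [LieGroup 𝓘(ℚ_[p], E) ω Γ]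

/-- the Lie algebra of a simple Lie group of dimension at least `m ^ 2` has no proper subalgebra of
codimension less than `m` -/
theorem subalgCodim_of_simple {m : ℕ}
    (hs : SimpleAlg ℚ_[p] (GroupLieAlgebra 𝓘(ℚ_[p], E) Γ)) (hm : m ^ 2 ≤ Module.finrank ℚ_[p] E) :
    SubalgCodim ℚ_[p] (GroupLieAlgebra 𝓘(ℚ_[p], E) Γ) m := by
  have h1 : LieGroup 𝓘(ℚ_[p], E) (minSmoothness ℚ_[p] 3) Γ := LieGroup.of_le (n := ω) le_top
  have h2 : CompleteSpace E := FiniteDimensional.complete ℚ_[p] E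
  have h3 : FiniteDimensional ℚ_[p] (GroupLieAlgebra 𝓘(ℚ_[p], E) Γ) :=
    inferInstanceAs (FiniteDimensional ℚ_[p] E)
  exact SimpleAlg.subalgCodim hs hm

/-- Theorem G; the codimension condition is automatic for simple Lie algebras of dimension at least
`m ^ 2`. -/
theorem final_simple {m : ℕ} (hm0 : 1 ≤ m)
    (hm : SubalgCodim ℚ_[p] (GroupLieAlgebra 𝓘(ℚ_[p], E) Γ) m ∨
      (SimpleAlg ℚ_[p] (GroupLieAlgebra 𝓘(ℚ_[p], E) Γ) ∧ m ^ 2 ≤ Module.finrank ℚ_[p] E))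
    {d : ℕ} {X : Type*} [MetricSpace X] {G : Type*} [Group G] [TopologicalSpace G]
    [IsTopologicalGroup G] [MulAction G X] [ContinuousSMul G X] {R : Set X}
    (hRo : IsOpen R) (hRd : Dense R) (hRc : IsPreconnected R) (hR : R ⊆ regPts (d + 1) X)
    (hH : ∀ x₀ ∈ R, ¬ IsMeagre {g : G | ∃ b : ℝ, (d : ℝ) < b * (d + m) ∧
      HolderNear b (fun x : X => g • x) x₀})
    (θ : Γ →* G) (hθ : Continuous θ) :
    ∃ U : Subgroup Γ, IsOpen (U : Set Γ) ∧ ∀ a ∈ U, ∀ x : X, θ a • x = x :=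
  final_lieC hm0 (hm.elim id fun h => subalgCodim_of_simple h.1 h.2) hRo hRd hRc hR hH θ hθ

end

end Pool.Agent.PG
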