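import Pool.Agent.PG.GR1
import Pool.Agent.PG.Level
import Pool.Agent.PG.Perf
import Pool.Agent.PG.NV

/-!
# The group data of the levels of a standard group
-/

set_option autoImplicit false

namespace Pool.Agent.PG

open Pool.Agent.HSF

universe u

variable {p r : ℕ} [hp : Fact p.Prime]

/-- **The group data of all deep levels.** The ring `k`, the vectors `w` and the bound `j₀` depend only on `p`, `r`
and `D`. -/
theorem exists_GR {D : ℕ} (hr : 1 ≤ r) :
    ∃ (j₀ : ℕ) (k : Type) (_ : CommRing k) (w : Fin (D + 1) → (Fin r → k)),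
      ∀ {κ : ℕ} {G : Type u} [Group G] [TopologicalSpace G] (W : Lw p r κ G), W.Big (D + 1) →
        ∀ j, j₀ ≤ κ + j → ∀ U : Subgroup G, (∀ g, g ∈ U ↔ Dv j (W.φ g)) → Nonempty (GR U p r D k w) :=
  exists_GR_of_rows (fun W j U hU => W.exists_level j U hU) (fun W hκ _ hB j => W.perf hκ hB j)
    (fun W _ _ _ hk hκ hr ρ c lam M hper hinv hd => W.nv hk hκ hr ρ c lam M hper hinv hd) hr

end Pool.Agent.PG
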