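import Pool.Agent.PG.Lev
import Pool.Agent.HSF.Dual
import Pool.Agent.HSF.Defs4

/-!
# The group data of a standard group
-/

set_option autoImplicit false

open Topology Filter Module

namespace Pool.Agent.PG

open Pool.Agent.HSF

variable {p r κ : ℕ} [hp : Fact p.Prime]

lemma toZModPow_eq_zero {e : ℕ} {x : ℤ_[p]} : PadicInt.toZModPow e x = 0 ↔ (p : ℤ_[p]) ^ e ∣ x := by
  rw [← RingHom.mem_ker, PadicInt.ker_toZModPow, Ideal.mem_span_singleton]

variable {G : Type*} [Group G] [TopologicalSpace G] (W : Lw p r κ G)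

namespace Lw

/-- small levels are small neighbourhoods of the identity -/
lemma exists_lev_subset {V : Set G} (hV : V ∈ 𝓝 (1 : G)) : ∃ l, (W.lev l : Set G) ⊆ V := by
  by_contra hcon
  push Not at hcon
  have h1 : ∀ l, ∃ g : G, g ∈ W.lev l ∧ g ∉ V := fun l => by
    obtain ⟨g, hg, hgV⟩ := Set.not_subset.1 (hcon l)
    exact ⟨g, hg, hgV⟩
  choose u hu huV using h1
  have h2 : Tendsto u atTop (𝓝 1) := by
    rw [W.φ.isInducing.tendsto_nhds_iff, tendsto_iff_dv]
    intro n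
    filter_upwards [eventually_ge_atTop n] with l hl
    show Dv n (W.φ (u l) - W.φ 1)
    rw [W.one, sub_zero]
    exact Dv.mono hl (hu l)
  obtain ⟨l, hl⟩ := (h2.eventually (p := fun g => g ∈ V) hV).exists
  exact huV l hl

/-- the coordinates modulo `p ^ e` -/
noncomputable def chi (e : ℕ) (g : G) (i : Fin r) : ZMod (p ^ e) := PadicInt.toZModPow e (W.φ g i)

lemma chi_mul {e : ℕ} (he : e ≤ κ) (g h : G) : W.chi e (g * h) = W.chi e g + W.chi e h := by
  funext i
  have h1 := ((W.mul g h 0 0 (dv_zero _) (dv_zero _)).mono (show e ≤ κ + 0 + 0 by omega)) i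
  show PadicInt.toZModPow e (W.φ (g * h) i) = PadicInt.toZModPow e (W.φ g i) + PadicInt.toZModPow e (W.φ h i)
  rw [← map_add, ← sub_eq_zero, ← map_sub, toZModPow_eq_zero]
  have h2 : W.φ (g * h) i - (W.φ g i + W.φ h i) = (W.φ (g * h) - W.φ g - W.φ h) i := by
    rw [Pi.sub_apply, Pi.sub_apply]
    ring
  rw [h2]
  exact h1

lemma chi_eq_zero {e : ℕ} {g : G} (hg : g ∈ W.lev e) : W.chi e g = 0 :=
  funext fun i => toZModPow_eq_zero.2 (hg i)

lemma chi_one (e : ℕ) : W.chi e (1 : G) = 0 := by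
  refine W.chi_eq_zero ?_
  exact one_mem _

/-- the image of a subgroup under `chi` -/
noncomputable def chiV {e : ℕ} (he : e ≤ κ) (H : Subgroup G) : AddSubgroup (Fin r → ZMod (p ^ e)) where
  carrier := W.chi e '' (H : Set G)
  add_mem' := by
    rintro _ _ ⟨g, hg, rfl⟩ ⟨h, hh, rfl⟩
    exact ⟨g * h, mul_mem hg hh, W.chi_mul he g h⟩
  zero_mem' := ⟨1, one_mem H, W.chi_one e⟩
  neg_mem' := by
    rintro _ ⟨g, hg, rfl⟩
    refine ⟨g⁻¹, inv_mem hg, ?_⟩
    have h1 := W.chi_mul he g⁻¹ g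
    rw [inv_mul_cancel, W.chi_one] at h1
    exact eq_neg_of_add_eq_zero_left h1.symm

/-- the socle of `chiV` -/
lemma socle {e : ℕ} (he : 1 ≤ e) (heκ : e ≤ κ) (H : Subgroup G) (x : Fin r → ℤ)
    (hx : (fun i => (((p : ℤ) ^ (e - 1) * x i : ℤ) : ZMod (p ^ e))) ∈ W.chiV heκ H) :
    (fun i => ((x i : ℤ) : ZMod p)) ∈ W.cls (he.trans heκ) H (e - 1) := by
  obtain ⟨h, hh, hhx⟩ := hx
  have h1 : ∀ i, (p : ℤ_[p]) ^ e ∣ W.φ h i - (p : ℤ_[p]) ^ (e - 1) * (x i : ℤ_[p]) := by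
    intro i
    rw [← toZModPow_eq_zero, map_sub, sub_eq_zero]
    have h2 := congrFun hhx i
    have h3 : PadicInt.toZModPow e (W.φ h i) = (((p : ℤ) ^ (e - 1) * x i : ℤ) : ZMod (p ^ e)) := h2
    rw [h3, map_mul, map_pow, map_natCast, map_intCast]
    push_cast
    rfl
  choose z hz using h1
  refine (W.mem_cls _).2 ⟨h, hh, fun i => (x i : ℤ_[p]) + (p : ℤ_[p]) * z i, ?_, fun a => ?_⟩
  · funext i
    have h2 := hz i
    rw [sub_eq_iff_eq_add] at h2
    rw [h2, Pi.smul_apply, smul_eq_mul]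
    obtain ⟨n, rfl⟩ : ∃ n, e = n + 1 := ⟨e - 1, by omega⟩
    rw [Nat.add_sub_cancel, pow_succ]
    ring
  · rw [map_add, map_mul, map_natCast, ZMod.natCast_self, zero_mul, add_zero, map_intCast]

/-- a proper closed subgroup is killed by a nonzero homomorphism to `ℤ / p` -/
lemma exists_eta (hκ : 2 ≤ κ) {H : Subgroup G} (hH : IsClosed (H : Set G)) (hne : H ≠ ⊤) :
    ∃ η : G → ZMod p, (∀ g h, η (g * h) = η g + η h) ∧ (∀ g ∈ H, η g = 0) ∧
      (∀ g ∈ W.lev 1, η g = 0) ∧ ∃ g, η g ≠ 0 := by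
  have h1 : W.cls (by omega) H 0 ≠ ⊤ := by
    intro h
    apply hne
    rw [eq_top_iff]
    exact fun g _ => W.lev_le_of_cls hκ hH h (dv_zero _)
  obtain ⟨f, hf0, hf⟩ := Submodule.exists_le_ker_of_lt_top _ (lt_top_iff_ne_top.2 h1)
  have hadd : ∀ g h : G, (fun a => PadicInt.toZMod (W.φ (g * h) a)) =
      (fun a => PadicInt.toZMod (W.φ g a)) + fun a => PadicInt.toZMod (W.φ h a) := by
    intro g h
    funext i
    have h1 := ((W.mul g h 0 0 (dv_zero _) (dv_zero _)).mono (show 1 ≤ κ + 0 + 0 by omega)) i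
    show PadicInt.toZMod (W.φ (g * h) i) = PadicInt.toZMod (W.φ g i) + PadicInt.toZMod (W.φ h i)
    rw [← map_add, ← sub_eq_zero, ← map_sub, toZMod_eq_zero]
    have h2 : W.φ (g * h) i - (W.φ g i + W.φ h i) = (W.φ (g * h) - W.φ g - W.φ h) i := by
      rw [Pi.sub_apply, Pi.sub_apply]
      ring
    rw [h2]
    rw [pow_one] at h1
    exact h1
  refine ⟨fun g => f fun a => PadicInt.toZMod (W.φ g a), fun g h => ?_, fun g hg => ?_, fun g hg => ?_, ?_⟩
  · show f (fun a => PadicInt.toZMod (W.φ (g * h) a)) = _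
    rw [hadd, map_add]
  · refine hf ((W.mem_cls _).2 ⟨g, hg, W.φ g, ?_, fun a => rfl⟩)
    rw [pow_zero, one_smul]
  · show f (fun a => PadicInt.toZMod (W.φ g a)) = 0
    have h2 : (fun a => PadicInt.toZMod (W.φ g a)) = (0 : Fin r → ZMod p) := by
      funext a
      show PadicInt.toZMod (W.φ g a) = 0
      rw [toZMod_eq_zero]
      have h3 := hg a
      rw [pow_one] at h3
      exact h3
    rw [h2, map_zero]
  · by_contra hall
    push Not at hall
    apply hf0
    refine LinearMap.ext fun v => ?_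
    have h2 : ∀ a, ∃ z : ℤ_[p], PadicInt.toZMod z = v a := fun a => by
      obtain ⟨n, hn⟩ := ZMod.intCast_surjective (v a)
      exact ⟨(n : ℤ_[p]), by rw [map_intCast, hn]⟩
    choose z hz using h2
    obtain ⟨g, hg⟩ := W.φ.surjective z
    have h3 := hall g
    rw [hg] at h3
    have h4 : (fun a => PadicInt.toZMod (z a)) = v := funext hz
    rw [h4] at h3
    rw [h3]
    rfl

/-- **The group data of a standard group**, from the dual families, the largeness statement and the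
non-vanishing statement. -/
theorem exists_GR_of {D e : ℕ} (he : 1 ≤ e) (hκ : 2 ≤ κ) (heκ : e ≤ κ) {k : Type*} [CommRing k]
    [Algebra (ZMod (p ^ e)) k] {w : Fin (D + 1) → Fin r → k}
    (hfac : ∀ a : k, (r.factorial : k) * (1 + p * a) ≠ 0)
    (hdual : ∀ (V : AddSubgroup (Fin r → ZMod (p ^ e))) (S : Submodule (ZMod p) (Fin r → ZMod p)),
      (∀ x : Fin r → ℤ, (fun i => (((p : ℤ) ^ (e - 1) * x i : ℤ) : ZMod (p ^ e))) ∈ V →
        (fun i => ((x i : ℤ) : ZMod p)) ∈ S) →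
      Module.finrank (ZMod p) S + (D + 1) ≤ r → ∃ Ξ : Fin (D + 1) → Fin r → k,
        (∀ c, ∀ v ∈ V, ∑ i, Ξ c i * algebraMap (ZMod (p ^ e)) k (v i) = 0) ∧
          ∀ c j, ∑ i, Ξ c i * w j i = if c = j then 1 else 0)
    (hperf : ∃ J, ∀ H : Subgroup G, IsClosed (H : Set G) →
      r < finrank (ZMod p) (W.cls (he.trans heκ) H (e - 1)) + (D + 1) → W.lev J ≤ H)
    (hnv : ∀ (M : ℕ) (c : List G → k) (lam : k),
      (∀ l l' : List G, List.Forall₂ (fun g h => Dv M (W.φ g - W.φ h)) l l' → c l = c l') →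
      (∀ (g : G) l, l.length = r → c (l.map (g * ·)) = c l) →
      (∀ l : List G, l.length = r + 1 → dl c l = lam * vol r (l.map fun g i =>
        algebraMap (ZMod (p ^ e)) k (PadicInt.toZModPow e (W.φ g i)))) → (r.factorial : k) * lam = 0) :
    Nonempty (GR G p r D k w) := by
  obtain ⟨J, hJ⟩ := hperf
  refine ⟨GR.mk (fun g i => algebraMap (ZMod (p ^ e)) k (W.chi e g i)) ?_ (W.lev (max J e))
    (W.lev_normal (by omega) _) (W.isClopen_lev _).isOpen ?_ ?_ ?_ ?_ ?_ hfac⟩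
  · intro g h
    funext i
    rw [W.chi_mul heκ, Pi.add_apply, Pi.add_apply, map_add]
  · intro g hg
    rw [W.chi_eq_zero (W.lev_anti (le_max_right _ _) hg)]
    funext i
    rw [Pi.zero_apply, Pi.zero_apply, map_zero]
  · intro H hH hnot
    have hfin : finrank (ZMod p) (W.cls (he.trans heκ) H (e - 1)) + (D + 1) ≤ r := by
      by_contra hlt
      exact hnot ((W.lev_anti (le_max_left _ _)).trans (hJ H hH (by omega)))
    obtain ⟨Ξ, h1, h2⟩ := hdual (W.chiV heκ H) _ (fun x hx => W.socle he heκ H x hx) hfin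
    exact ⟨Ξ, fun c h hh => h1 c _ ⟨h, hh, rfl⟩, h2⟩
  · intro H hH hne
    obtain ⟨η, h1, h2, h3, h4⟩ := W.exists_eta hκ hH hne
    exact ⟨η, h1, h2, fun g hg => h3 g (W.lev_anti (he.trans (le_max_right _ _)) hg), h4⟩
  · intro V hV
    obtain ⟨l, hl⟩ := W.exists_lev_subset hV
    exact ⟨W.lev (max l (max J e)), W.lev_normal (by omega) _, (W.isClopen_lev _).isOpen,
      fun g hg => hl (W.lev_anti (le_max_left _ _) hg), W.lev_anti (le_max_right _ _)⟩
  · intro N hN hNo hNG c lam hper hinv hd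
    obtain ⟨M, hM⟩ := W.exists_lev_subset (hNo.mem_nhds (one_mem N))
    refine hnv M c lam (fun l l' hl => hper l l' (hl.imp fun g h hgh => ?_)) hinv hd
    exact hM (W.dv_left (by omega) (dv_comm.1 hgh))

end Lw

end Pool.Agent.PG
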