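import Pool.Agent.PG.GR0
import Pool.Agent.PG.NV

/-!
# The part of the group data which does not need a largeness hypothesis, and pointwise dual families
-/

set_option autoImplicit false

open Topology Filter Module

namespace Pool.Agent.PG

open Pool.Agent.HSF

universe u

/-- **Group data without largeness.** The ring `k` and the vectors `w` depend only on `p`, `r`, `D`.
A closed subgroup whose class at level `e - 1` has codimension greater than `D` has a dual family. -/
theorem exists_GR0P (p r D : ℕ) [hp : Fact p.Prime] (hr : 1 ≤ r) :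
    ∃ (e : ℕ) (k : Type) (_ : CommRing k) (w : Fin (D + 1) → Fin r → k), 1 ≤ e ∧
      ∀ {κ : ℕ} {G : Type u} [Group G] [TopologicalSpace G] (W : Lw p r κ G) (hκ : e + 1 ≤ κ),
        ∃ E : GR0 G p r k,
          (∀ H : Subgroup G, IsClosed (H : Set G) →
            finrank (ZMod p) (W.cls (le_trans (Nat.le_add_left 1 e) hκ) H (e - 1)) + (D + 1) ≤ r →
            ∃ Ξ : Fin (D + 1) → Fin r → k, (∀ c, ∀ h ∈ H, ∑ i, Ξ c i * E.χ h i = 0) ∧
              ∀ c j, ∑ i, Ξ c i * w j i = if c = j then 1 else 0) ∧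
          (∀ H : Subgroup G, IsClosed (H : Set G) → H ≠ ⊤ → ∃ η : G → ZMod p,
            (∀ g h, η (g * h) = η g + η h) ∧ (∀ g ∈ H, η g = 0) ∧ (∀ g ∈ E.G₂, η g = 0) ∧
              ∃ g, η g ≠ 0) := by
  obtain ⟨e, he, k, i1, i2, w, hfac, hdual⟩ := exists_kw p r D
  have hk : (p : k) ^ e = 0 := by
    have h1 : ((p : ZMod (p ^ e)) ^ e) = 0 := by
      have h2 := ZMod.natCast_self (p ^ e)
      push_cast at h2
      exact h2
    have h3 := congrArg (algebraMap (ZMod (p ^ e)) k) h1
    rwa [map_pow, map_natCast, map_zero] at h3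
  refine ⟨e, k, i1, w, he, fun {κ G} _ _ W hκ => ?_⟩
  have heκ : e ≤ κ := by omega
  have hκ2 : 2 ≤ κ := by omega
  refine ⟨GR0.mk (fun g i => algebraMap (ZMod (p ^ e)) k (W.chi e g i)) ?_ (W.lev e)
    (W.lev_normal (by omega) _) (W.isClopen_lev _).isOpen ?_ ?_ ?_ hfac, ?_, ?_⟩
  · intro g h
    funext i
    rw [W.chi_mul heκ, Pi.add_apply, Pi.add_apply, map_add]
  · intro g hg
    rw [W.chi_eq_zero hg]
    funext i
    rw [Pi.zero_apply, Pi.zero_apply, map_zero]
  · intro V hV
    obtain ⟨l, hl⟩ := W.exists_lev_subset hV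
    exact ⟨W.lev (max l e), W.lev_normal (by omega) _, (W.isClopen_lev _).isOpen,
      fun g hg => hl (W.lev_anti (le_max_left _ _) hg), W.lev_anti (le_max_right _ _)⟩
  · intro N hN hNo hNG c lam hper hinv hd
    obtain ⟨M, hM⟩ := W.exists_lev_subset (hNo.mem_nhds (one_mem N))
    refine W.nv hk (by omega) hr ((algebraMap (ZMod (p ^ e)) k).comp (PadicInt.toZModPow e)) c lam M
      (fun l l' hl => hper l l' (hl.imp fun g h hgh => ?_)) hinv hd
    exact hM (W.dv_left (by omega) (dv_comm.1 hgh))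
  · intro H hH hfin
    obtain ⟨Ξ, h1, h2⟩ := hdual (W.chiV heκ H) _ (fun x hx => W.socle he heκ H x hx) hfin
    exact ⟨Ξ, fun c h hh => h1 c _ ⟨h, hh, rfl⟩, h2⟩
  · intro H hH hne
    obtain ⟨η, h1, h2, h3, h4⟩ := W.exists_eta hκ2 hH hne
    exact ⟨η, h1, h2, fun g hg => h3 g (W.lev_anti he hg), h4⟩

end Pool.Agent.PG
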