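import Pool.Agent.PG.GR0

/-!
# The group data of the levels of a standard group, for all levels at once
-/

set_option autoImplicit false

open Topology Filter Module

namespace Pool.Agent.PG

open Pool.Agent.HSF

universe u

variable {p r : ℕ} [hp : Fact p.Prime]

/-- the group data of all deep levels, from the three ingredients: the passage to a level, the largeness statement
and the non-vanishing statement -/
theorem exists_GR_of_rows {D : ℕ}
    (hlev : ∀ {κ : ℕ} {G : Type u} [Group G] [TopologicalSpace G] (W : Lw p r κ G) (j : ℕ) (U : Subgroup G),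
      (∀ g, g ∈ U ↔ Dv j (W.φ g)) → ∃ W' : Lw p r (κ + j) U,
        W'.B = W.B ∧ ∀ g : U, W.φ g = (p : ℤ_[p]) ^ j • W'.φ g)
    (hperf : ∀ {κ : ℕ} {G : Type u} [Group G] [TopologicalSpace G] (W : Lw p r κ G) (hκ : 2 ≤ κ) {m : ℕ},
      W.Big m → ∀ j : ℕ, ∃ J, ∀ H : Subgroup G, IsClosed (H : Set G) →
        r < finrank (ZMod p) (W.cls (by omega) H j) + m → W.lev J ≤ H)
    (hnv : ∀ {κ : ℕ} {G : Type u} [Group G] [TopologicalSpace G] (W : Lw p r κ G) {k : Type} [CommRing k] {s : ℕ},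
      (p : k) ^ s = 0 → s + 1 ≤ κ → 1 ≤ r → ∀ (ρ : ℤ_[p] →+* k) (c : List G → k) (lam : k) (M : ℕ),
      (∀ l l' : List G, List.Forall₂ (fun g h => Dv M (W.φ g - W.φ h)) l l' → c l = c l') →
      (∀ (g : G) l, l.length = r → c (l.map (g * ·)) = c l) →
      (∀ l : List G, l.length = r + 1 → dl c l = lam * vol r (l.map fun g i => ρ (W.φ g i))) →
      (r.factorial : k) * lam = 0)
    (hr : 1 ≤ r) : ∃ (j₀ : ℕ) (k : Type) (_ : CommRing k) (w : Fin (D + 1) → (Fin r → k)),
      ∀ {κ : ℕ} {G : Type u} [Group G] [TopologicalSpace G] (W : Lw p r κ G), W.Big (D + 1) →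
        ∀ j, j₀ ≤ κ + j → ∀ U : Subgroup G, (∀ g, g ∈ U ↔ Dv j (W.φ g)) → Nonempty (GR U p r D k w) := by
  obtain ⟨e, he, k, i1, i2, w, hfac, hdual⟩ := exists_kw p r D
  have hk : (p : k) ^ e = 0 := by
    have h1 : ((p : ZMod (p ^ e)) ^ e) = 0 := by
      have h2 := ZMod.natCast_self (p ^ e)
      push_cast at h2
      exact h2
    have h3 := congrArg (algebraMap (ZMod (p ^ e)) k) h1
    rwa [map_pow, map_natCast, map_zero] at h3
  refine ⟨e + 1, k, i1, w, fun {κ G} _ _ W hB j hj U hU => ?_⟩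
  obtain ⟨W', hB', -⟩ := hlev W j U hU
  have hκ : 2 ≤ κ + j := by omega
  have hBW : W'.Big (D + 1) := by
    unfold Lw.Big
    rw [hB']
    exact hB
  refine W'.exists_GR_of he hκ (by omega) hfac hdual (hperf W' hκ hBW (e - 1)) ?_
  intro M c lam hper hinv hd
  exact hnv W' hk (by omega) hr ((algebraMap (ZMod (p ^ e)) k).comp (PadicInt.toZModPow e)) c lam M hper hinv hd

end Pool.Agent.PG
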