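import Pool.Agent.PG.Lev

/-!
# The Lie algebra of a closed subgroup of a standard group
-/

set_option autoImplicit false

open Topology Filter

namespace Pool.Agent.PG

variable {p r κ : ℕ} [hp : Fact p.Prime] {G : Type*} [Group G] [TopologicalSpace G] (W : Lw p r κ G)

namespace Lw

/-- membership in the Lie algebra of `H` -/
def InLie (H : Subgroup G) (x : Fin r → ℤ_[p]) : Prop :=
  ∀ n : ℕ, ∃ i ≥ n, ∃ h ∈ H, ∃ y : Fin r → ℤ_[p], W.φ h = (p : ℤ_[p]) ^ i • y ∧ Dv n (y - x)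

lemma InLie.eventually (hκ : 2 ≤ κ) {H : Subgroup G} {x : Fin r → ℤ_[p]} (hx : W.InLie H x) (n : ℕ) :
    ∃ i₀ ≥ n, ∀ i ≥ i₀, ∃ h ∈ H, ∃ y : Fin r → ℤ_[p], W.φ h = (p : ℤ_[p]) ^ i • y ∧ Dv n (y - x) := by
  obtain ⟨i₀, hi₀, h₀⟩ := hx n
  refine ⟨i₀, hi₀, fun i hi => ?_⟩
  induction i, hi using Nat.le_induction with
  | base => exact h₀
  | succ i hi ih =>
    obtain ⟨h, hh, y, hy, hd⟩ := ih
    obtain ⟨h', hh', y', hy', hd'⟩ := W.exists_succ hκ hh hy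
    refine ⟨h', hh', y', hy', ?_⟩
    have h1 : y' - x = (y' - y) + (y - x) := by abel
    rw [h1]
    exact (hd'.mono (by omega)).add hd

lemma dv_B {n : ℕ} {u : Fin r → ℤ_[p]} (hu : Dv n u) (v : Fin r → ℤ_[p]) : Dv n (W.B u v) ∧ Dv n (W.B v u) := by
  obtain ⟨z, rfl⟩ := dv_iff.1 hu
  constructor
  · rw [map_smul, LinearMap.smul_apply]
    exact dv_iff.2 ⟨_, rfl⟩
  · rw [map_smul]
    exact dv_iff.2 ⟨_, rfl⟩

/-- the Lie algebra of a subgroup -/
def lie (hκ : 2 ≤ κ) (H : Subgroup G) : Submodule ℤ_[p] (Fin r → ℤ_[p]) where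
  carrier := {x | W.InLie H x}
  zero_mem' := fun n => ⟨n, le_rfl, 1, one_mem _, 0, by rw [W.one, smul_zero], by rw [sub_zero]; exact Dv.zero' _⟩
  add_mem' := by
    intro x x' hx hx' n
    obtain ⟨i₁, hi₁, h₁⟩ := InLie.eventually W hκ hx n
    obtain ⟨i₂, hi₂, h₂⟩ := InLie.eventually W hκ hx' n
    obtain ⟨h, hh, y, hy, hd⟩ := h₁ (max i₁ i₂) (le_max_left _ _)
    obtain ⟨h', hh', y', hy', hd'⟩ := h₂ (max i₁ i₂) (le_max_right _ _)
    have h12 : n ≤ max i₁ i₂ := le_trans hi₁ (le_max_left _ _)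
    set i := max i₁ i₂
    obtain ⟨z, hz⟩ := dv_iff.1 (W.mul h h' i i (dv_iff.2 ⟨y, hy⟩) (dv_iff.2 ⟨y', hy'⟩))
    refine ⟨i, h12, h * h', mul_mem hh hh', y + y' + (p : ℤ_[p]) ^ (κ + i) • z, ?_, ?_⟩
    · rw [smul_add, smul_add, smul_smul, ← pow_add, ← hy, ← hy']
      have h2 : W.φ (h * h') = (W.φ (h * h') - W.φ h - W.φ h') + W.φ h + W.φ h' := by abel
      rw [h2, hz, show κ + i + i = i + (κ + i) by omega]
      abel
    · have h3 : y + y' + (p : ℤ_[p]) ^ (κ + i) • z - (x + x') = (y - x) + (y' - x') + (p : ℤ_[p]) ^ (κ + i) • z := by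
        abel
      rw [h3]
      exact (hd.add hd').add ((dv_iff.2 ⟨z, rfl⟩ : Dv (κ + i) _).mono (by omega))
  smul_mem' := by
    intro c x hx n
    obtain ⟨i, hi, h₁⟩ := InLie.eventually W hκ hx n
    obtain ⟨h, hh, y, hy, hd⟩ := h₁ i le_rfl
    obtain ⟨z, hz⟩ := dv_iff.1 (W.pow_sub (dv_iff.2 ⟨y, hy⟩) (PadicInt.appr c n)).2
    have hc : (p : ℤ_[p]) ^ n ∣ c - (PadicInt.appr c n : ℤ_[p]) :=
      Ideal.mem_span_singleton.1 (PadicInt.appr_spec n c)
    obtain ⟨t, ht⟩ := hc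
    refine ⟨i, hi, h ^ PadicInt.appr c n, pow_mem hh _,
      (PadicInt.appr c n : ℤ_[p]) • y + (p : ℤ_[p]) ^ (κ + i) • z, ?_, ?_⟩
    · rw [smul_add, smul_comm, ← hy, smul_smul, ← pow_add, show i + (κ + i) = κ + 2 * i by omega, ← hz]
      abel
    · have h3 : (PadicInt.appr c n : ℤ_[p]) • y + (p : ℤ_[p]) ^ (κ + i) • z - c • x =
          (PadicInt.appr c n : ℤ_[p]) • (y - x) - (c - (PadicInt.appr c n : ℤ_[p])) • x +
            (p : ℤ_[p]) ^ (κ + i) • z := by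
        rw [smul_sub, sub_smul]
        abel
      rw [h3, ht, mul_smul]
      exact ((hd.smul _).sub (dv_iff.2 ⟨_, rfl⟩)).add ((dv_iff.2 ⟨z, rfl⟩ : Dv (κ + i) _).mono (by omega))

lemma mem_lie {hκ : 2 ≤ κ} {H : Subgroup G} {x : Fin r → ℤ_[p]} : x ∈ W.lie hκ H ↔ W.InLie H x := Iff.rfl

lemma lie_pure (hκ : 2 ≤ κ) (H : Subgroup G) (x : Fin r → ℤ_[p]) (hx : (p : ℤ_[p]) • x ∈ W.lie hκ H) :
    x ∈ W.lie hκ H := by
  intro n
  obtain ⟨i, hi, h₁⟩ := InLie.eventually W hκ hx (n + 1)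
  obtain ⟨h, hh, y, hy, hd⟩ := h₁ i le_rfl
  have h2 : Dv 1 y := by
    have h3 : y = (y - (p : ℤ_[p]) • x) + (p : ℤ_[p]) ^ 1 • x := by rw [pow_one]; abel
    rw [h3]
    exact (hd.mono (by omega)).add (dv_iff.2 ⟨x, rfl⟩)
  obtain ⟨y', hy'⟩ := dv_iff.1 h2
  refine ⟨i + 1, by omega, h, hh, y', by rw [hy, hy', smul_smul, ← pow_add], ?_⟩
  have h3 : Dv (1 + n) ((p : ℤ_[p]) ^ 1 • (y' - x)) := by
    rw [smul_sub, ← hy', pow_one, add_comm]
    exact hd
  exact dv_pow_smul.1 h3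

lemma lie_bracket (hκ : 2 ≤ κ) (H : Subgroup G) (x : Fin r → ℤ_[p]) (hx : x ∈ W.lie hκ H) (x' : Fin r → ℤ_[p])
    (hx' : x' ∈ W.lie hκ H) : W.B x x' - W.B x' x ∈ W.lie hκ H := by
  intro n
  obtain ⟨i₁, hi₁, h₁⟩ := InLie.eventually W hκ hx n
  obtain ⟨i₂, hi₂, h₂⟩ := InLie.eventually W hκ hx' n
  obtain ⟨h, hh, y, hy, hd⟩ := h₁ (max i₁ i₂) (le_max_left _ _)
  obtain ⟨h', hh', y', hy', hd'⟩ := h₂ (max i₁ i₂) (le_max_right _ _)
  have h12 : n ≤ max i₁ i₂ := le_trans hi₁ (le_max_left _ _)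
  set i := max i₁ i₂
  have h3 := W.comm_sub (by omega) (dv_iff.2 ⟨y, hy⟩) (dv_iff.2 ⟨y', hy'⟩)
  rw [min_self] at h3
  obtain ⟨z, hz⟩ := dv_iff.1 h3
  refine ⟨κ + 2 * i, by omega, h * h' * (h' * h)⁻¹, mul_mem (mul_mem hh hh') (inv_mem (mul_mem hh' hh)),
    (W.B y y' - W.B y' y) + (p : ℤ_[p]) ^ (κ + i) • z, ?_, ?_⟩
  · rw [hy, hy'] at hz
    simp only [map_smul, LinearMap.smul_apply] at hz
    rw [smul_add, smul_smul, ← pow_add, show κ + 2 * i + (κ + i) = 2 * κ + i + i + i by omega, ← hz,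
      show κ + 2 * i = κ + i + i by omega, pow_add, pow_add, mul_smul, mul_smul, smul_sub, smul_sub]
    abel
  · have h4 : W.B y y' - W.B y' y + (p : ℤ_[p]) ^ (κ + i) • z - (W.B x x' - W.B x' x) =
        (W.B (y - x) y' + W.B x (y' - x')) - (W.B y' (y - x) + W.B (y' - x') x) + (p : ℤ_[p]) ^ (κ + i) • z := by
      simp only [map_sub, LinearMap.sub_apply]
      abel
    rw [h4]
    exact (((W.dv_B hd y').1.add (W.dv_B hd' x).2).sub ((W.dv_B hd y').2.add (W.dv_B hd' x).1)).add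
      ((dv_iff.2 ⟨z, rfl⟩ : Dv (κ + i) _).mono (by omega))

/-- every class is the class of an element of the Lie algebra -/
lemma exists_lie (hκ : 2 ≤ κ) {H : Subgroup G} {i : ℕ} {v : Fin r → ZMod p} (hv : v ∈ W.cls (by omega) H i) :
    ∃ x ∈ W.lie hκ H, ∀ a, PadicInt.toZMod (x a) = v a := by
  obtain ⟨h₀, hh₀, y₀, hy₀, hv₀⟩ := (W.mem_cls _).1 hv
  have step : ∀ (k : ℕ) (y : {y : Fin r → ℤ_[p] // ∃ h ∈ H, W.φ h = (p : ℤ_[p]) ^ (i + k) • y}),
      ∃ y' : {y : Fin r → ℤ_[p] // ∃ h ∈ H, W.φ h = (p : ℤ_[p]) ^ (i + (k + 1)) • y},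
        Dv (k + 1) (y'.1 - y.1) := by
    rintro k ⟨y, h, hh, hy⟩
    obtain ⟨h', hh', y', hy', hd⟩ := W.exists_succ hκ hh hy
    exact ⟨⟨y', h', hh', hy'⟩, hd.mono (by omega)⟩
  choose f hf using step
  let u : (k : ℕ) → {y : Fin r → ℤ_[p] // ∃ h ∈ H, W.φ h = (p : ℤ_[p]) ^ (i + k) • y} := fun k =>
    Nat.rec ⟨y₀, h₀, hh₀, hy₀⟩ (fun k y => f k y) k
  have hu : ∀ k, Dv (k + 1) ((u (k + 1)).1 - (u k).1) := fun k => hf k (u k)
  have hu' : ∀ k t, Dv (k + 1) ((u (k + t)).1 - (u k).1) := by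
    intro k t
    induction t with
    | zero => rw [add_zero, sub_self]; exact Dv.zero' _
    | succ t ih =>
      have h1 : (u (k + (t + 1))).1 - (u k).1 = ((u (k + t + 1)).1 - (u (k + t)).1) + ((u (k + t)).1 - (u k).1) := by
        exact (sub_add_sub_cancel _ _ _).symm
      rw [h1]
      exact ((hu (k + t)).mono (by omega)).add ih
  have hpos : (0 : ℝ) < p := by exact_mod_cast hp.out.pos
  have hc : ∀ a, CauchySeq fun k => (u k).1 a := by
    intro a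
    refine cauchySeq_of_le_geometric ((p : ℝ)⁻¹) 1 (inv_lt_one_of_one_lt₀ (by exact_mod_cast hp.out.one_lt)) fun k => ?_
    rw [dist_comm, dist_eq_norm, one_mul]
    have h1 := norm_le_iff_dvd.2 (((hu k).mono (Nat.le_succ k)) a)
    rw [zpow_neg, zpow_natCast, ← inv_pow] at h1
    exact h1
  choose x hx using fun a => cauchySeq_tendsto_of_complete (hc a)
  have hx' : Tendsto (fun k => (u k).1) atTop (𝓝 x) := tendsto_pi_nhds.2 hx
  rw [tendsto_iff_dv] at hx'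
  have hd : ∀ k, Dv (k + 1) ((u k).1 - x) := by
    intro k
    obtain ⟨N, hN⟩ := eventually_atTop.1 (hx' (k + 1))
    have h1 := hN (k + N) (Nat.le_add_left N k)
    have h2 : (u k).1 - x = ((u (k + N)).1 - x) - ((u (k + N)).1 - (u k).1) := by abel
    rw [h2]
    exact h1.sub (hu' k N)
  refine ⟨x, fun n => ?_, fun a => ?_⟩
  · obtain ⟨h, hh, hy⟩ := (u n).2
    exact ⟨i + n, by omega, h, hh, (u n).1, hy, (hd n).mono (by omega)⟩
  · rw [← hv₀ a, eq_comm, ← sub_eq_zero, ← map_sub, toZMod_eq_zero]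
    have h1 := hd 0 a
    rw [zero_add, pow_one] at h1
    exact h1

/-- the rank of the Lie algebra bounds the dimension of the space of classes -/
lemma finrank_cls_le (hκ : 2 ≤ κ) (H : Subgroup G) (i : ℕ) :
    Module.finrank (ZMod p) (W.cls (by omega) H i) ≤ Module.finrank ℤ_[p] (W.lie hκ H) := by
  classical
  set b := Module.finBasis ℤ_[p] (W.lie hκ H) with hb
  set g : Fin (Module.finrank ℤ_[p] (W.lie hκ H)) → (Fin r → ZMod p) := fun t a =>
    PadicInt.toZMod ((b t : Fin r → ℤ_[p]) a) with hg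
  have h1 : W.cls (by omega) H i ≤ Submodule.span (ZMod p) (Set.range g) := by
    intro v hv
    obtain ⟨x, hx, hxv⟩ := W.exists_lie hκ hv
    have h2 : v = ∑ t, PadicInt.toZMod (b.repr ⟨x, hx⟩ t) • g t := by
      funext a
      have h3 := congrArg (fun y : W.lie hκ H => PadicInt.toZMod ((y : Fin r → ℤ_[p]) a)) (b.sum_repr ⟨x, hx⟩)
      simp only [Submodule.coe_sum, Submodule.coe_smul, Finset.sum_apply, Pi.smul_apply, smul_eq_mul, map_sum,
        map_mul] at h3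
      rw [Finset.sum_apply, ← hxv a, ← h3]
      rfl
    rw [h2]
    exact Submodule.sum_mem _ fun t _ => Submodule.smul_mem _ _ (Submodule.subset_span ⟨t, rfl⟩)
  calc Module.finrank (ZMod p) (W.cls (by omega) H i) ≤
      Module.finrank (ZMod p) (Submodule.span (ZMod p) (Set.range g)) := Submodule.finrank_mono h1
    _ ≤ Fintype.card (Fin (Module.finrank ℤ_[p] (W.lie hκ H))) := finrank_range_le_card g
    _ = Module.finrank ℤ_[p] (W.lie hκ H) := Fintype.card_fin _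

/-- if the Lie algebra is everything, then all classes occur on some level -/
lemma exists_cls_top (hκ : 2 ≤ κ) {H : Subgroup G} (h : W.lie hκ H = ⊤) : ∃ i, W.cls (by omega) H i = ⊤ := by
  classical
  have h1 : ∀ a : Fin r, ∃ i₀, ∀ i ≥ i₀, (Pi.single a (1 : ZMod p) : Fin r → ZMod p) ∈ W.cls (by omega) H i := by
    intro a
    have h2 : W.InLie H (Pi.single a (1 : ℤ_[p]) : Fin r → ℤ_[p]) := by
      have h3 : (Pi.single a (1 : ℤ_[p]) : Fin r → ℤ_[p]) ∈ W.lie hκ H := by rw [h]; exact Submodule.mem_top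
      exact h3
    obtain ⟨i₀, _, h3⟩ := InLie.eventually W hκ h2 1
    refine ⟨i₀, fun i hi => ?_⟩
    obtain ⟨g, hg, y, hy, hd⟩ := h3 i hi
    refine (W.mem_cls _).2 ⟨g, hg, y, hy, fun a' => ?_⟩
    have h4 := hd a'
    rw [pow_one, ← toZMod_eq_zero, Pi.sub_apply, map_sub, sub_eq_zero] at h4
    rw [h4]
    by_cases haa : a' = a
    · subst haa
      rw [Pi.single_eq_same, Pi.single_eq_same, map_one]
    · rw [Pi.single_eq_of_ne haa, Pi.single_eq_of_ne haa, map_zero]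
  choose i₀ hi₀ using h1
  refine ⟨Finset.univ.sup i₀, eq_top_iff.2 fun v _ => ?_⟩
  have h2 : v = ∑ a, v a • (Pi.single a (1 : ZMod p) : Fin r → ZMod p) := by
    funext b
    rw [Finset.sum_apply]
    simp [Pi.single_apply]
  rw [h2]
  exact Submodule.sum_mem _ fun a _ => Submodule.smul_mem _ _ (hi₀ a _ (Finset.le_sup (Finset.mem_univ a)))

end Lw

end Pool.Agent.PG
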