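import Pool.Agent.PG.ExLw2
import Pool.Agent.PG.Lie
import Pool.Agent.PG.LieBig

/-!
# The tangent space of a closed subgroup of a Lie group over `ℚ_p`
-/

set_option autoImplicit false

open Topology Filter Module
open scoped Manifold ContDiff

namespace Pool.Agent.PG

/-- The dimension of the tangent space at `1` of a subset `K` of a Lie group `G`: the dimension of the
span of the tangent directions at `1` of `K` in the chart of `G` at `1`. -/
noncomputable def tdim {𝕜 : Type*} [NontriviallyNormedField 𝕜] {H : Type*} [TopologicalSpace H]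
    {E : Type*} [NormedAddCommGroup E] [NormedSpace 𝕜 E] (I : ModelWithCorners 𝕜 E H)
    {G : Type*} [TopologicalSpace G] [ChartedSpace H G] [Group G] (K : Set G) : ℕ :=
  finrank 𝕜 (Submodule.span 𝕜 (tangentConeAt 𝕜 ((extChartAt I (1 : G)).symm ⁻¹' K) (extChartAt I (1 : G) 1)))

section chart

variable {p : ℕ} [hp : Fact p.Prime] {E : Type*} [NormedAddCommGroup E] [NormedSpace ℚ_[p] E]
  {H : Type*} [TopologicalSpace H] {I : ModelWithCorners ℚ_[p] E H} [I.Boundaryless]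
  {G : Type*} [TopologicalSpace G] [ChartedSpace H G] [Group G]

/-- the chart data from `IsQuad`, with the chart -/
theorem exists_Cht_chart {r : ℕ} (A : E ≃L[ℚ_[p]] (Fin r → ℚ_[p])) {B : E →L[ℚ_[p]] E →L[ℚ_[p]] E} (hB : IsQuad I G B) :
    ∃ T : Cht p r G, T.e = chA I G A ∧ ∀ x y, T.b x y = A (B (A.symm x) (A.symm y)) := by
  obtain ⟨C, ρ, hρ, hC⟩ := hB
  set α : ℝ := ‖(A : E →L[ℚ_[p]] (Fin r → ℚ_[p]))‖ with hα
  set a : ℝ := ‖(A.symm : (Fin r → ℚ_[p]) →L[ℚ_[p]] E)‖ with ha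
  have hA : ∀ v, ‖A v‖ ≤ α * ‖v‖ := fun v => (A : E →L[ℚ_[p]] (Fin r → ℚ_[p])).le_opNorm v
  have hS : ∀ x, ‖A.symm x‖ ≤ a * ‖x‖ := fun x => (A.symm : (Fin r → ℚ_[p]) →L[ℚ_[p]] E).le_opNorm x
  have hα0 : 0 ≤ α := norm_nonneg _
  have ha0 : 0 ≤ a := norm_nonneg _
  obtain ⟨c, hc⟩ := exists_pow_ge (p := p) (α * ‖B‖ * a ^ 2 + 2 * (α * |C| * a ^ 3))
  have hc1 : α * ‖B‖ * a ^ 2 ≤ (p : ℝ) ^ c := le_trans (by
    have : 0 ≤ 2 * (α * |C| * a ^ 3) := by positivity
    linarith) hc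
  have hc2 : 2 * (α * |C| * a ^ 3) ≤ (p : ℝ) ^ c := le_trans (by
    have : 0 ≤ α * ‖B‖ * a ^ 2 := by positivity
    linarith) hc
  let b : (Fin r → ℚ_[p]) →ₗ[ℚ_[p]] (Fin r → ℚ_[p]) →ₗ[ℚ_[p]] (Fin r → ℚ_[p]) :=
    LinearMap.mk₂ ℚ_[p] (fun x y => A (B (A.symm x) (A.symm y)))
      (fun x x' y => by rw [map_add, map_add, add_apply, map_add])
      (fun t x y => by rw [map_smul, map_smul, smul_apply, map_smul])
      (fun x y y' => by rw [map_add, map_add, map_add])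
      (fun t x y => by rw [map_smul, map_smul, map_smul])
  have hρ' : 0 < ρ / (a + 1) := by positivity
  refine ⟨{ e := chA I G A, one_mem := ?_, one := ?_, b := b, c := c, hb := ?_, ρ := ρ / (a + 1), hρ := hρ',
            law := ?_ }, rfl, fun x y => rfl⟩
  · exact mem_chart_source H (1 : G)
  · rw [chA_apply]
    show A (cen I G - cen I G) = 0
    rw [sub_self, map_zero]
  · intro x y
    show ‖A (B (A.symm x) (A.symm y))‖ ≤ _
    calc ‖A (B (A.symm x) (A.symm y))‖ ≤ α * ‖B (A.symm x) (A.symm y)‖ := hA _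
      _ ≤ α * (‖B‖ * ‖A.symm x‖ * ‖A.symm y‖) := mul_le_mul_of_nonneg_left (B.le_opNorm₂ _ _) hα0
      _ ≤ α * (‖B‖ * (a * ‖x‖) * (a * ‖y‖)) := by gcongr <;> exact hS _
      _ = α * ‖B‖ * a ^ 2 * ‖x‖ * ‖y‖ := by ring
      _ ≤ (p : ℝ) ^ c * ‖x‖ * ‖y‖ := by gcongr
  · intro x y hx hy
    have hsm : ∀ x : Fin r → ℚ_[p], ‖x‖ < ρ / (a + 1) → ‖A.symm x‖ < ρ := by
      intro x hx
      rw [lt_div_iff₀ (by positivity)] at hx
      calc ‖A.symm x‖ ≤ a * ‖x‖ := hS x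
        _ ≤ ‖x‖ * (a + 1) := by nlinarith [norm_nonneg x]
        _ < ρ := hx
    have h1 := hC _ _ (hsm x hx) (hsm y hy)
    have h2 : chA I G A ((chA I G A).symm x * (chA I G A).symm y) - x - y - b x y =
        A (lawAt I G (A.symm x, A.symm y) - A.symm x - A.symm y - B (A.symm x) (A.symm y)) := by
      rw [map_sub, map_sub, map_sub, A.apply_symm_apply, A.apply_symm_apply]
      rfl
    rw [h2]
    have h3 : ‖A.symm x‖ + ‖A.symm y‖ ≤ 2 * (a * max ‖x‖ ‖y‖) := by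
      have h4 := hS x
      have h5 := hS y
      have h6 : a * ‖x‖ ≤ a * max ‖x‖ ‖y‖ := mul_le_mul_of_nonneg_left (le_max_left _ _) ha0
      have h7 : a * ‖y‖ ≤ a * max ‖x‖ ‖y‖ := mul_le_mul_of_nonneg_left (le_max_right _ _) ha0
      linarith
    have hm : 0 ≤ max ‖x‖ ‖y‖ := (norm_nonneg x).trans (le_max_left _ _)
    calc ‖A (lawAt I G (A.symm x, A.symm y) - A.symm x - A.symm y - B (A.symm x) (A.symm y))‖
        ≤ α * ‖lawAt I G (A.symm x, A.symm y) - A.symm x - A.symm y - B (A.symm x) (A.symm y)‖ := hA _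
      _ ≤ α * (C * ‖A.symm x‖ * ‖A.symm y‖ * (‖A.symm x‖ + ‖A.symm y‖)) := mul_le_mul_of_nonneg_left h1 hα0
      _ ≤ α * (|C| * ‖A.symm x‖ * ‖A.symm y‖ * (‖A.symm x‖ + ‖A.symm y‖)) := by
          gcongr
          exact le_abs_self C
      _ ≤ α * (|C| * (a * ‖x‖) * (a * ‖y‖) * (2 * (a * max ‖x‖ ‖y‖))) := by
          gcongr <;> exact hS _
      _ = 2 * (α * |C| * a ^ 3) * ‖x‖ * ‖y‖ * max ‖x‖ ‖y‖ := by ring
      _ ≤ (p : ℝ) ^ c * ‖x‖ * ‖y‖ * max ‖x‖ ‖y‖ := by gcongr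

end chart

/-- **Standard subgroups**, with the coordinates. -/
theorem Cht.exists_Lw_of_chart_coord {p r : ℕ} [hp : Fact p.Prime] {G : Type*} [Group G] [TopologicalSpace G]
    [IsTopologicalGroup G] (T : Cht p r G) (κ₀ : ℕ) {V : Set G} (hV : V ∈ 𝓝 (1 : G)) :
    ∃ κ, κ₀ ≤ κ ∧ ∃ U : Subgroup G, IsOpen (U : Set G) ∧ IsCompact (U : Set G) ∧ (U : Set G) ⊆ V ∧
      (U : Set G) ⊆ T.e.source ∧ ∃ W : Lw p r κ U,
        (∀ x y, io (W.B x y) = (p : ℚ_[p]) ^ T.c • T.b (io x) (io y)) ∧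
        ∃ N : ℕ, ∀ u : U, T.e (u : G) = (p : ℚ_[p]) ^ N • io (W.φ u) := by
  obtain ⟨N, hN, h⟩ := exists_Lg2 (T := T) hV (κ₀ + T.c)
  refine ⟨N - T.c, by omega, ballU h, isOpen_ballU h, isCompact_ballU h, ballU_subset h,
    fun g hg => ((mem_ballU h).1 hg).1, ⟨ballH h, T.Bint, ?_, ?_, ?_⟩, fun x y => io_Bint T x y, N, fun u => ?_⟩
  · apply io_injective
    rw [io_ballH, io_zero]
    show (p : ℚ_[p]) ^ (-(N : ℤ)) • T.e 1 = 0
    rw [T.one, smul_zero]
  · intro x y i j hx hy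
    have h1 := law2 h (by omega) x y i j hx hy
    have h2 : ballH h (x * y) - ballH h x - ballH h y =
        (ballH h (x * y) - ballH h x - ballH h y - (p : ℤ_[p]) ^ (N - T.c) • T.Bint (ballH h x) (ballH h y)) +
        (p : ℤ_[p]) ^ (N - T.c) • T.Bint (ballH h x) (ballH h y) := by abel
    rw [h2]
    refine (h1.mono (by omega)).add ?_
    rw [add_assoc, dv_pow_smul]
    obtain ⟨x', hx'⟩ := dv_iff.1 hx
    obtain ⟨y', hy'⟩ := dv_iff.1 hy
    rw [hx', hy', LinearMap.map_smul₂, map_smul, dv_pow_smul]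
    exact dv_iff.2 ⟨_, rfl⟩
  · intro x y i j hx hy
    exact law2 h (by omega) x y i j hx hy
  · have h1 := e_ball h u
    rw [zpow_natCast] at h1
    exact h1

section main

variable {p : ℕ} [hp : Fact p.Prime] {E : Type*} [NormedAddCommGroup E] [NormedSpace ℚ_[p] E]

/-- **Standard subgroups of a `p`-adic Lie group**, with the coordinates. -/
theorem exists_Lw_coord [FiniteDimensional ℚ_[p] E] {H : Type*} [TopologicalSpace H] (I : ModelWithCorners ℚ_[p] E H)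
    [I.Boundaryless] {G : Type*} [TopologicalSpace G] [ChartedSpace H G] [Group G] [LieGroup I ω G]
    {B : E →L[ℚ_[p]] E →L[ℚ_[p]] E} (hB : IsQuad I G B) :
    ∃ (A : E ≃L[ℚ_[p]] (Fin (finrank ℚ_[p] E) → ℚ_[p])) (c : ℕ), ∀ (κ₀ : ℕ), ∀ V ∈ 𝓝 (1 : G), ∃ κ, κ₀ ≤ κ ∧
      ∃ U : Subgroup G, IsOpen (U : Set G) ∧ IsCompact (U : Set G) ∧ (U : Set G) ⊆ V ∧
        (U : Set G) ⊆ (extChartAt I (1 : G)).source ∧ ∃ W : Lw p (finrank ℚ_[p] E) κ U,
          (∀ x y, io (W.B x y) = (p : ℚ_[p]) ^ c • A (B (A.symm (io x)) (A.symm (io y)))) ∧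
          ∃ N : ℕ, ∀ u : U, A (extChartAt I (1 : G) (u : G) - extChartAt I (1 : G) 1) =
            (p : ℚ_[p]) ^ N • io (W.φ u) := by
  have : IsTopologicalGroup G := topologicalGroup_of_lieGroup I ω
  let A : E ≃L[ℚ_[p]] (Fin (finrank ℚ_[p] E) → ℚ_[p]) := (finBasis ℚ_[p] E).equivFun.toContinuousLinearEquiv
  obtain ⟨T, hTe, hT⟩ := exists_Cht_chart A hB
  refine ⟨A, T.c, fun κ₀ V hV => ?_⟩
  obtain ⟨κ, hκ, U, h1, h2, h3, h4, W, hW, N, hN⟩ := Cht.exists_Lw_of_chart_coord T κ₀ hV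
  refine ⟨κ, hκ, U, h1, h2, h3, ?_, W, fun x y => by rw [hW, hT], N, fun u => ?_⟩
  · rw [hTe] at h4
    rw [extChartAt_source]
    exact h4
  · rw [← hN u, hTe, chA_apply]
    rfl

/-- **The tangent row.** The rank of the Lie algebra of `K ∩ U` is at most the dimension of the tangent
space of `K`. -/
theorem finrank_lie_le_tdim {H : Type*} [TopologicalSpace H] {I : ModelWithCorners ℚ_[p] E H}
    [FiniteDimensional ℚ_[p] E] {G : Type*} [TopologicalSpace G] [ChartedSpace H G] [Group G] {r κ : ℕ}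
    {U : Subgroup G} (hU : (U : Set G) ⊆ (extChartAt I (1 : G)).source) (W : Lw p r κ U) (hκ : 2 ≤ κ)
    (A : E ≃L[ℚ_[p]] (Fin r → ℚ_[p])) {N : ℕ}
    (hA : ∀ u : U, A (extChartAt I (1 : G) (u : G) - extChartAt I (1 : G) 1) = (p : ℚ_[p]) ^ N • io (W.φ u))
    (K : Subgroup G) : finrank ℤ_[p] (W.lie hκ (K.subgroupOf U)) ≤ tdim I (K : Set G) := by
  refine (finrank_le_span _).trans ?_
  have hp0 : (p : ℚ_[p]) ≠ 0 := by exact_mod_cast hp.out.ne_zero
  have h1 : ∀ x ∈ W.lie hκ (K.subgroupOf U), A.symm (inc p r x) ∈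
      tangentConeAt ℚ_[p] ((extChartAt I (1 : G)).symm ⁻¹' (K : Set G)) (extChartAt I (1 : G) 1) := by
    intro x hx
    have hx' : W.InLie (K.subgroupOf U) x := hx
    choose i hi h hh y hy hd using hx'
    have hsm : ∀ n, extChartAt I (1 : G) (h n : G) - extChartAt I (1 : G) 1 =
        (p : ℚ_[p]) ^ (N + i n) • A.symm (io (y n)) := by
      intro n
      apply A.injective
      rw [hA, hy, io_smul_pow, map_smul, A.apply_symm_apply, smul_smul, pow_add]
    have hlim : Tendsto (fun n => io (y n)) atTop (𝓝 (io x)) := by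
      rw [tendsto_iff_norm_sub_tendsto_zero]
      have h2 : ∀ n, ‖io (y n) - io x‖ ≤ ((p : ℝ)⁻¹) ^ n := by
        intro n
        have h3 := dv_iff_norm.1 (hd n)
        rw [io_sub] at h3
        rwa [zpow_neg, zpow_natCast, ← inv_pow] at h3
      refine squeeze_zero (fun n => norm_nonneg _) h2 ?_
      exact tendsto_pow_atTop_nhds_zero_of_lt_one (by have := p_pos (p := p); positivity)
        (inv_lt_one_of_one_lt₀ one_lt_p)
    have hlim' : Tendsto (fun n => A.symm (io (y n))) atTop (𝓝 (A.symm (io x))) :=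
      (A.symm.continuous.tendsto _).comp hlim
    refine mem_tangentConeAt_of_seq atTop (fun n => ((p : ℚ_[p]) ^ (N + i n))⁻¹)
      (fun n => extChartAt I (1 : G) (h n : G) - extChartAt I (1 : G) 1) ?_ ?_ ?_
    · have h4 : Tendsto (fun n => (p : ℚ_[p]) ^ (N + i n)) atTop (𝓝 0) := by
        refine (tendsto_pow_atTop_nhds_zero_of_norm_lt_one ?_).comp
          (tendsto_atTop_mono (fun n => (hi n).trans (Nat.le_add_left _ _)) tendsto_id)
        rw [Padic.norm_p]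
        exact inv_lt_one_of_one_lt₀ one_lt_p
      have h5 := h4.smul hlim'
      rw [zero_smul] at h5
      exact h5.congr fun n => (hsm n).symm
    · refine Eventually.of_forall fun n => ?_
      show (extChartAt I (1 : G)).symm (extChartAt I (1 : G) 1 +
        (extChartAt I (1 : G) (h n : G) - extChartAt I (1 : G) 1)) ∈ (K : Set G)
      rw [add_sub_cancel, (extChartAt I (1 : G)).left_inv (hU (h n).2)]
      exact Subgroup.mem_subgroupOf.1 (hh n)
    · have h6 : ∀ n, ((p : ℚ_[p]) ^ (N + i n))⁻¹ • (extChartAt I (1 : G) (h n : G) - extChartAt I (1 : G) 1) =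
          A.symm (io (y n)) := by
        intro n
        rw [hsm, inv_smul_smul₀ (pow_ne_zero _ hp0)]
      exact hlim'.congr fun n => (h6 n).symm
  have h2 : Submodule.span ℚ_[p] (inc p r '' (W.lie hκ (K.subgroupOf U) : Set (Fin r → ℤ_[p]))) ≤
      (Submodule.span ℚ_[p] (tangentConeAt ℚ_[p] ((extChartAt I (1 : G)).symm ⁻¹' (K : Set G))
        (extChartAt I (1 : G) 1))).map (A : E →ₗ[ℚ_[p]] (Fin r → ℚ_[p])) := by
    rw [Submodule.span_le]
    rintro _ ⟨x, hx, rfl⟩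
    exact ⟨A.symm (inc p r x), Submodule.subset_span (h1 x hx), A.apply_symm_apply _⟩
  refine (Submodule.finrank_mono h2).trans ?_
  exact Submodule.finrank_map_le _ _

end main

end Pool.Agent.PG
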